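import Pool.Agent.P.MP_373cf5_nt.Defs

namespace PNF

theorem card_big_primes (F : ℤ) (hF : F ≠ 0) (X K : ℕ) (hX : 2 ≤ X)
    (h : |(F : ℝ)| ≤ (X : ℝ) ^ K) (V : Finset ℕ)
    (hV : ∀ l ∈ V, l.Prime ∧ X < l ∧ (l : ℤ) ∣ F) : V.card ≤ K := by
  have h1 : ∏ l ∈ V, l ∣ F.natAbs := by
    apply Finset.prod_primes_dvd
    · intro a ha; exact (hV a ha).1.prime
    · intro a ha; exact Int.natCast_dvd.mp (hV a ha).2.2
  have h2 : ∏ l ∈ V, l ≤ F.natAbs := Nat.le_of_dvd (Int.natAbs_pos.mpr hF) h1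
  have h3 : X ^ V.card ≤ ∏ l ∈ V, l :=
    Finset.pow_card_le_prod V (fun l => l) X (fun l hl => (hV l hl).2.1.le)
  have h4 : F.natAbs ≤ X ^ K := by
    have : ((F.natAbs : ℕ) : ℝ) ≤ ((X ^ K : ℕ) : ℝ) := by
      rw [Nat.cast_natAbs]; push_cast; exact h
    exact_mod_cast this
  exact (Nat.pow_le_pow_iff_right (by omega)).mp (h3.trans (h2.trans h4))

end PNF
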