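import Pool.Agent.P.MP_373cf5_nt.Defs

namespace PNF

open Complex

theorem cauchy_norm (c : ℂ) (t θ : ℝ) (m : ℕ) :
    ‖c * cexp (-(t + θ * I)) ^ m‖ = ‖c‖ * Real.exp (-t) ^ m := by
  rw [norm_mul, norm_pow, Complex.norm_exp]
  simp

theorem continuous_series (c : ℕ → ℂ) (t : ℝ)
    (hs : Summable fun m : ℕ => ‖c m‖ * Real.exp (-t) ^ m) :
    Continuous fun θ : ℝ => ∑' m : ℕ, c m * cexp (-(t + θ * I)) ^ m :=
  continuous_tsum (fun m => by fun_prop) hs fun m θ => (cauchy_norm (c m) t θ m).le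

theorem cauchy_term (t : ℝ) (m n : ℕ) :
    ∫ θ in (-Real.pi)..Real.pi, cexp (-(t + θ * I)) ^ m * cexp (n * (t + θ * I)) =
      if m = n then (2 * Real.pi : ℂ) else 0 := by
  have e : ∀ θ : ℝ, cexp (-(t + θ * I)) ^ m * cexp (n * (t + θ * I)) =
      cexp ((n - m) * t) * cexp ((n - m) * I * θ) := fun θ => by
    rw [← Complex.exp_nat_mul, ← Complex.exp_add, ← Complex.exp_add]
    congr 1
    ring
  simp only [e]
  split_ifs with h
  · subst h
    simp
    ring
  · have h0 : ((n : ℂ) - m) * I ≠ 0 :=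
      mul_ne_zero (sub_ne_zero.2 fun e => h (by exact_mod_cast e.symm)) I_ne_zero
    have : cexp ((n - m) * I * (Real.pi : ℝ)) = cexp ((n - m) * I * (-Real.pi : ℝ)) := by
      rw [Complex.exp_eq_exp_iff_exists_int]
      exact ⟨n - m, by push_cast; ring⟩
    rw [intervalIntegral.integral_const_mul, integral_exp_mul_complex h0, this]
    simp

theorem cauchy_coeff (c : ℕ → ℂ) (t : ℝ)
    (hs : Summable fun m : ℕ => ‖c m‖ * Real.exp (-t) ^ m) (n : ℕ) :
    c n = (1 / (2 * Real.pi) : ℂ) * ∫ θ in (-Real.pi)..Real.pi,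
      (∑' m : ℕ, c m * cexp (-(t + θ * I)) ^ m) * cexp (n * (t + θ * I)) := by
  have h1 : ∀ θ : ℝ, Summable fun m : ℕ => c m * cexp (-(t + θ * I)) ^ m := fun θ =>
    Summable.of_norm (by simpa only [cauchy_norm] using hs)
  have h := intervalIntegral.hasSum_integral_of_dominated_convergence
    (μ := MeasureTheory.volume) (a := -Real.pi) (b := Real.pi)
    (F := fun (m : ℕ) (θ : ℝ) => c m * cexp (-(t + θ * I)) ^ m * cexp (n * (t + θ * I)))
    (f := fun θ : ℝ => (∑' m : ℕ, c m * cexp (-(t + θ * I)) ^ m) * cexp (n * (t + θ * I)))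
    (fun m _ => ‖c m‖ * Real.exp (-t) ^ m * Real.exp (n * t))
    (fun m => Continuous.aestronglyMeasurable (by fun_prop))
    (fun m => .of_forall fun θ _ => by
      rw [norm_mul, cauchy_norm, Complex.norm_exp]
      simp)
    (.of_forall fun θ _ => hs.mul_right _) intervalIntegrable_const
    (.of_forall fun θ _ => (h1 θ).hasSum.mul_right (cexp (n * (t + θ * I))))
  simp only [mul_assoc, intervalIntegral.integral_const_mul, cauchy_term] at h
  have hp : (Real.pi : ℂ) ≠ 0 := by exact_mod_cast Real.pi_ne_zero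
  rw [← h.tsum_eq, tsum_eq_single n fun m hm => by rw [if_neg hm, mul_zero], if_pos rfl]
  field_simp

end PNF
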