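import Pool.Agent.P.MP_373cf5_nt.Eta

namespace PNF

open Complex

theorem circle_real {s L : ℝ} (hs : 0 < s) (hL : 0 ≤ L) (h : aa / s ≤ L + 1) :
    Real.exp (s / 24) * (Real.exp (aa * Real.exp (-s) / (1 - Real.exp (-s))) - 1) ≤
      8 * Real.exp L := by
  have h0 := aa_pos
  have h1 := aa_lt
  have h2 : 0 < Real.exp (-s) := Real.exp_pos _
  have h3 : Real.exp (-s) < 1 := Real.exp_lt_one_iff.2 (by linarith)
  have h4 : 1 ≤ Real.exp L := Real.one_le_exp hL
  rcases le_total 1 s with h5 | h5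
  · have h6 : Real.exp (-s) ≤ 0.37 :=
      (Real.exp_le_exp.2 (by linarith)).trans (Real.exp_neg_one_lt_d9.le.trans (by norm_num))
    have h7 : aa * Real.exp (-s) / (1 - Real.exp (-s)) ≤ 2.7 * Real.exp (-s) := by
      rw [div_le_iff₀ (by linarith)]
      nlinarith
    have h8 : 0 ≤ aa * Real.exp (-s) / (1 - Real.exp (-s)) :=
      div_nonneg (by positivity) (by linarith)
    have h9 := Real.abs_exp_sub_one_le (x := aa * Real.exp (-s) / (1 - Real.exp (-s)))
      (by rw [abs_of_nonneg h8]; linarith)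
    rw [abs_of_nonneg h8] at h9
    have h10 : Real.exp (s / 24) * Real.exp (-s) ≤ 1 := by
      rw [← Real.exp_add]
      exact Real.exp_le_one_iff.2 (by linarith)
    calc _ ≤ Real.exp (s / 24) * (5.4 * Real.exp (-s)) :=
          mul_le_mul_of_nonneg_left (by linarith [le_abs_self (Real.exp (aa * Real.exp (-s) /
            (1 - Real.exp (-s))) - 1)]) (Real.exp_pos _).le
      _ ≤ _ := by nlinarith
  · have h6 : (s + 1) * Real.exp (-s) ≤ 1 := by
      rw [Real.exp_neg, ← div_eq_mul_inv, div_le_one (Real.exp_pos _)]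
      exact Real.add_one_le_exp s
    have h7 : aa * Real.exp (-s) / (1 - Real.exp (-s)) ≤ aa / s := by
      rw [div_le_div_iff₀ (by linarith) hs]
      nlinarith
    have h8 : Real.exp 2 ≤ 8 := by
      have e1 := Real.exp_one_lt_d9
      have e2 : Real.exp 2 = Real.exp 1 * Real.exp 1 := by rw [← Real.exp_add]; norm_num
      have e3 := Real.exp_pos 1
      nlinarith
    calc _ ≤ Real.exp (s / 24) * Real.exp (L + 1) :=
          mul_le_mul_of_nonneg_left (by linarith [Real.exp_le_exp.2 (h7.trans h)])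
            (Real.exp_pos _).le
      _ ≤ Real.exp 2 * Real.exp L := by
          rw [← Real.exp_add, ← Real.exp_add]
          exact Real.exp_le_exp.2 (by linarith)
      _ ≤ _ := by gcongr

/-- On the whole circle the generating function is the model up to `8 exp(a / (4 t))`. -/
theorem PP_sub_model (t θ : ℝ) (ht : 0 < t) (ht1 : t ≤ 1) (hθ : |θ| ≤ Real.pi) :
    ‖PP (cexp (-(t + θ * I))) - ((√(2 * Real.pi) : ℝ) : ℂ)⁻¹ * (t + θ * I) ^ (1 / 2 : ℂ) *
      cexp (-(t + θ * I) / 24 + aa / (t + θ * I))‖ ≤ 8 * Real.exp (aa / (4 * t)) := by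
  obtain ⟨τ, hτ⟩ : ∃ τ : ℂ, τ = t + θ * I := ⟨_, rfl⟩
  rw [← hτ]
  have hre : τ.re = t := by simp [hτ]
  have hn : normSq τ = t ^ 2 + θ ^ 2 := by rw [hτ, normSq_add_mul_I]
  have hpos : 0 < t ^ 2 + θ ^ 2 := by positivity
  have hπ := Real.pi_pos
  obtain ⟨s, hs⟩ : ∃ s : ℝ, s = 4 * Real.pi ^ 2 * (t / (t ^ 2 + θ ^ 2)) := ⟨_, rfl⟩
  have hs0 : 0 < s := by rw [hs]; positivity
  have hdiv : ∀ c : ℝ, ((c : ℂ) / τ).re = c * (t / (t ^ 2 + θ ^ 2)) := fun c => by
    rw [div_eq_mul_inv, re_ofReal_mul, inv_re, hre, hn]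
  have hq : ‖cexp (-(4 * Real.pi ^ 2 / τ))‖ = Real.exp (-s) := by
    rw [norm_exp, neg_re, hs, ← hdiv]
    push_cast
    rfl
  have h1 := norm_PP_sub_one (cexp (-(4 * Real.pi ^ 2 / τ)))
    (by rw [hq]; exact Real.exp_lt_one_iff.2 (by linarith))
  rw [hq] at h1
  have h2 : ‖cexp (-τ / 24 + aa / τ)‖ ≤ Real.exp (s / 24) := by
    rw [norm_exp, add_re, hdiv]
    refine Real.exp_le_exp.2 ?_
    have e1 : (-τ / 24).re = -t / 24 := by simp [hre]
    have e2 : aa * (t / (t ^ 2 + θ ^ 2)) = s / 24 := by rw [hs, aa]; ring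
    rw [e1, e2]
    linarith
  have h3 : ‖((√(2 * Real.pi) : ℝ) : ℂ)⁻¹ * τ ^ (1 / 2 : ℂ)‖ ≤ 1 := by
    have e1 : ‖τ‖ ≤ 2 * Real.pi := by
      have e2 : ‖τ‖ ≤ ‖(t : ℂ)‖ + ‖θ * I‖ := hτ ▸ norm_add_le _ _
      rw [norm_mul, norm_I, mul_one, norm_real, norm_real, Real.norm_eq_abs, Real.norm_eq_abs,
        abs_of_pos ht] at e2
      linarith [Real.pi_gt_three]
    have e3 : (1 / 2 : ℂ) = ((1 / 2 : ℝ) : ℂ) := by push_cast; rfl
    rw [norm_mul, norm_inv, e3, norm_cpow_real, norm_real, Real.norm_eq_abs,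
      abs_of_nonneg (Real.sqrt_nonneg _), ← Real.sqrt_eq_rpow, inv_mul_le_one₀ (by positivity)]
    exact Real.sqrt_le_sqrt e1
  have h4 : aa / s ≤ aa / (4 * t) + 1 := by
    have e1 : θ ^ 2 ≤ Real.pi ^ 2 := sq_le_sq' (abs_le.1 hθ).1 (abs_le.1 hθ).2
    have e2 : aa / s = (t ^ 2 + θ ^ 2) / (24 * t) := by
      rw [hs, aa]
      field_simp
      norm_num
    have e3 : aa / (4 * t) + 1 = (24 * t + Real.pi ^ 2) / (24 * t) := by
      rw [aa]
      field_simp
      ring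
    rw [e2, e3]
    gcongr
    nlinarith
  rw [PP_transform τ (hre ▸ ht), ← mul_sub_one, norm_mul, norm_mul]
  refine le_trans ?_ (circle_real hs0 (div_nonneg aa_pos.le (by positivity)) h4)
  calc _ ≤ 1 * Real.exp (s / 24) *
        (Real.exp (aa * Real.exp (-s) / (1 - Real.exp (-s))) - 1) := by gcongr
    _ = _ := by rw [one_mul]

end PNF
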