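import Pool.Agent.P.MP_373cf5_nt.Defs

namespace PNF

open Polynomial

theorem coeff_natDegree_prod (A : Finset ℕ) :
    (∏ x ∈ A, (C (x : ℤ) * X - 1 : ℤ[X])).natDegree ≤ A.card := by
  refine (natDegree_prod_le _ _).trans ?_
  rw [Finset.card_eq_sum_ones]
  refine Finset.sum_le_sum fun x _ => ?_
  compute_degree

theorem natDegree_QQ_le (A B : Finset ℕ) (d : ℕ) (hA : A.card ≤ d) (hB : B.card ≤ d) :
    (QQ A B).natDegree ≤ d :=
  (natDegree_sub_le _ _).trans (max_le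
    ((natDegree_C_mul_le _ _).trans ((coeff_natDegree_prod A).trans hA))
    ((natDegree_C_mul_le _ _).trans ((coeff_natDegree_prod B).trans hB)))

theorem coeff_prod_lin (a c : ℕ → ℝ) (M : ℝ) (A : Finset ℕ)
    (h : ∀ x ∈ A, |a x| + |c x| ≤ M) (k : ℕ) :
    |(∏ x ∈ A, (C (a x) * X + C (c x))).coeff k| ≤ M ^ A.card := by
  induction A using Finset.induction_on generalizing k with
  | empty =>
    rw [Finset.prod_empty, coeff_one]
    split_ifs <;> simp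
  | insert y A hy ih =>
    have h1 := h y (Finset.mem_insert_self _ _)
    have ih' := ih fun x hx => h x (Finset.mem_insert_of_mem hx)
    have h0 : 0 ≤ M ^ A.card := (abs_nonneg _).trans (ih' 0)
    have ha := abs_nonneg (a y)
    have hc := abs_nonneg (c y)
    rw [Finset.prod_insert hy, Finset.card_insert_of_notMem hy, add_mul, mul_assoc, coeff_add,
      coeff_C_mul, coeff_C_mul, pow_succ']
    refine (abs_add_le _ _).trans ?_
    rw [abs_mul, abs_mul]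
    have h2 : |(X * ∏ x ∈ A, (C (a x) * X + C (c x))).coeff k| ≤ M ^ A.card := by
      cases k with
      | zero => simpa using h0
      | succ k => rw [coeff_X_mul]; exact ih' k
    calc _ ≤ |a y| * M ^ A.card + |c y| * M ^ A.card :=
          add_le_add (mul_le_mul_of_nonneg_left h2 ha) (mul_le_mul_of_nonneg_left (ih' k) hc)
      _ = (|a y| + |c y|) * M ^ A.card := by ring
      _ ≤ _ := mul_le_mul_of_nonneg_right h1 h0

theorem coeff_term_le (κ Y : ℝ) (hκ : 0 ≤ κ) (hY : 1 ≤ Y) (A B : Finset ℕ)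
    (h1 : ∀ x ∈ A, (x : ℝ) ≤ Y) (h2 : ∀ x ∈ B, (x : ℝ) ≤ Y) (d : ℕ) (hA : A.card ≤ d)
    (hB : B.card ≤ d) (k : ℕ) :
    |(taylor κ ((C (∏ x ∈ B, (x : ℤ) ^ 3) * ∏ x ∈ A, (C (x : ℤ) * X - 1)).map
      (Int.castRingHom ℝ))).coeff k| ≤ ((κ + 2) * Y) ^ d * Y ^ (3 * d) := by
  have e : taylor κ ((C (∏ x ∈ B, (x : ℤ) ^ 3) * ∏ x ∈ A, (C (x : ℤ) * X - 1)).map
      (Int.castRingHom ℝ)) = C (∏ x ∈ B, (x : ℝ) ^ 3) *
        ∏ x ∈ A, (C (x : ℝ) * X + C ((x : ℝ) * κ - 1)) := by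
    rw [Polynomial.map_mul, Polynomial.map_prod, taylor_mul, map_C, taylor_C]
    congr 1
    · simp
    · rw [← taylorAlgHom_apply, map_prod]
      refine Finset.prod_congr rfl fun x _ => ?_
      rw [taylorAlgHom_apply, Polynomial.map_sub, Polynomial.map_mul, map_C, map_X,
        Polynomial.map_one, map_sub, taylor_mul, taylor_C, taylor_X, taylor_one]
      simp only [eq_intCast, Int.cast_natCast, map_sub, map_mul, map_one]
      ring
  have hM : 1 ≤ (κ + 2) * Y := by nlinarith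
  have h3 := coeff_prod_lin (fun x => (x : ℝ)) (fun x => (x : ℝ) * κ - 1) ((κ + 2) * Y) A
    (fun x hx => by
      have h4 := h1 x hx
      have h5 : (0 : ℝ) ≤ x := Nat.cast_nonneg x
      have h6 : (x : ℝ) * κ ≤ Y * κ := mul_le_mul_of_nonneg_right h4 hκ
      have h7 : 0 ≤ (x : ℝ) * κ := mul_nonneg h5 hκ
      have h8 : |(x : ℝ) * κ - 1| ≤ x * κ + 1 := abs_le.2 ⟨by linarith, by linarith⟩
      rw [abs_of_nonneg h5]
      linarith) k
  have h4 : ∏ x ∈ B, (x : ℝ) ^ 3 ≤ Y ^ (3 * d) := by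
    calc _ ≤ ∏ _x ∈ B, Y ^ 3 := Finset.prod_le_prod (fun x _ => by positivity) fun x hx =>
            pow_le_pow_left₀ (Nat.cast_nonneg x) (h2 x hx) 3
      _ = Y ^ (3 * B.card) := by rw [Finset.prod_const, pow_mul]
      _ ≤ _ := pow_le_pow_right₀ hY (by omega)
  rw [e, coeff_C_mul, abs_mul, mul_comm, abs_of_nonneg (a := ∏ x ∈ B, (x : ℝ) ^ 3) (by positivity)]
  exact mul_le_mul (h3.trans (pow_le_pow_right₀ hM hA)) h4 (by positivity) (by positivity)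

theorem taylor_coeff_le (κ Y : ℝ) (hκ : 0 ≤ κ) (hY : 1 ≤ Y) (A B : Finset ℕ)
    (h : ∀ x ∈ A ∪ B, (x : ℝ) ≤ Y) (d : ℕ) (hA : A.card ≤ d) (hB : B.card ≤ d) (k : ℕ) :
    |(taylor κ ((QQ A B).map (Int.castRingHom ℝ))).coeff k| ≤
      2 * ((κ + 2) * Y) ^ d * Y ^ (3 * d) := by
  have h1 : ∀ x ∈ A, (x : ℝ) ≤ Y := fun x hx => h x (Finset.mem_union_left _ hx)
  have h2 : ∀ x ∈ B, (x : ℝ) ≤ Y := fun x hx => h x (Finset.mem_union_right _ hx)
  have h3 := coeff_term_le κ Y hκ hY A B h1 h2 d hA hB k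
  have h4 := coeff_term_le κ Y hκ hY B A h2 h1 d hB hA k
  rw [QQ, Polynomial.map_sub, map_sub, coeff_sub]
  refine (abs_sub _ _).trans ?_
  linarith

theorem coeff_QQ_le (Y : ℝ) (hY : 1 ≤ Y) (A B : Finset ℕ)
    (h : ∀ x ∈ A ∪ B, (x : ℝ) ≤ Y) (d : ℕ) (hA : A.card ≤ d) (hB : B.card ≤ d) (k : ℕ) :
    |((QQ A B).coeff k : ℝ)| ≤ 2 * (2 * Y) ^ d * Y ^ (3 * d) := by
  have := taylor_coeff_le 0 Y le_rfl hY A B h d hA hB k
  rwa [taylor_zero, coeff_map, zero_add] at this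

theorem QQ_ne_zero (A B : Finset ℕ) (hdisj : Disjoint A B) (hB : B.Nonempty)
    (h0 : ∀ x ∈ A ∪ B, x ≠ 0) : QQ A B ≠ 0 := by
  intro h
  obtain ⟨b, hb⟩ := hB
  have hb0 : (b : ℚ) ≠ 0 := Nat.cast_ne_zero.2 (h0 b (Finset.mem_union_right _ hb))
  have h1 := congrArg (aeval ((b : ℚ)⁻¹)) h
  have h2 : ∏ x ∈ B, ((x : ℚ) * (b : ℚ)⁻¹ - 1) = 0 :=
    Finset.prod_eq_zero hb (by rw [mul_inv_cancel₀ hb0, sub_self])
  simp only [QQ, map_sub, map_mul, map_prod, aeval_X, map_one, map_zero, map_pow,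
    map_natCast, h2, mul_zero, sub_zero] at h1
  rcases mul_eq_zero.1 h1 with h3 | h3
  · obtain ⟨x, hx, h4⟩ := Finset.prod_eq_zero_iff.1 h3
    exact h0 x (Finset.mem_union_right _ hx) (Nat.cast_eq_zero.1 (pow_eq_zero_iff (by norm_num) |>.1 h4))
  · obtain ⟨x, hx, h4⟩ := Finset.prod_eq_zero_iff.1 h3
    have h5 : (x : ℚ) = b := (mul_inv_eq_one₀ hb0).1 (sub_eq_zero.1 h4)
    exact Finset.disjoint_left.1 hdisj hx (Nat.cast_injective h5 ▸ hb)

end PNF
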