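import Pool.Agent.P.MP_373cf5_nt.BigPrimes

namespace PNF

open Polynomial Classical

/-- the homogenised value `y ^ d P (1 / y)` -/
noncomputable def edges_F (P : ℤ[X]) (d y : ℕ) : ℤ :=
  ∑ k ∈ Finset.range (d + 1), P.coeff k * (y : ℤ) ^ (d - k)

theorem edges_cast (P : ℤ[X]) (d y : ℕ) (hd : P.natDegree ≤ d) (R : Type) [Field R]
    (hy : (y : R) ≠ 0) :
    (edges_F P d y : R) = (y : R) ^ d * (P.map (Int.castRingHom R)).eval ((y : R)⁻¹) := by
  rw [eval_eq_sum_range' (n := d + 1) (Nat.lt_succ_of_le (natDegree_map_le.trans hd)),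
    Finset.mul_sum, edges_F]
  push_cast
  refine Finset.sum_congr rfl fun k hk => ?_
  have hk' : k ≤ d := Nat.lt_succ_iff.1 (Finset.mem_range.1 hk)
  rw [coeff_map, eq_intCast, pow_sub₀ _ hy hk', inv_pow]
  ring

theorem edges_bound (P : ℤ[X]) (d y : ℕ) (H Y : ℝ) (hH : ∀ k, |(P.coeff k : ℝ)| ≤ H)
    (hY : 1 ≤ Y) (hy : (y : ℝ) ≤ Y) : |(edges_F P d y : ℝ)| ≤ (d + 1) * H * Y ^ d := by
  have h0 : 0 ≤ H := (abs_nonneg _).trans (hH 0)
  rw [edges_F]
  push_cast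
  refine (Finset.abs_sum_le_sum_abs _ _).trans ?_
  have h : ∀ k ∈ Finset.range (d + 1), |(P.coeff k : ℝ) * (y : ℝ) ^ (d - k)| ≤ H * Y ^ d := by
    intro k _
    rw [abs_mul, abs_of_nonneg (by positivity : (0 : ℝ) ≤ (y : ℝ) ^ (d - k))]
    refine mul_le_mul (hH k) ?_ (by positivity) h0
    exact (pow_le_pow_left₀ (by positivity) hy _).trans (pow_le_pow_right₀ hY (Nat.sub_le _ _))
  refine (Finset.sum_le_sum h).trans (le_of_eq ?_)
  simp only [Finset.sum_const, Finset.card_range, nsmul_eq_mul]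
  push_cast
  ring

theorem edges_roots (P : ℤ[X]) (hP : P ≠ 0) (d : ℕ) (hd : P.natDegree ≤ d) (V : Finset ℕ)
    (hV : ∀ x ∈ V, 0 < x) : (V.filter fun y => edges_F P d y = 0).card ≤ d := by
  have hm : P.map (Int.castRingHom ℚ) ≠ 0 :=
    (Polynomial.map_ne_zero_iff (RingHom.injective_int _)).2 hP
  refine le_trans (Finset.card_le_card_of_injOn (t := (P.map (Int.castRingHom ℚ)).roots.toFinset)
    (fun y => ((y : ℚ))⁻¹) ?_ ?_) ?_
  · intro y hy
    rw [Finset.coe_filter] at hy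
    have hy0 : (y : ℚ) ≠ 0 := by exact_mod_cast (hV y hy.1).ne'
    have h := edges_cast P d y hd ℚ hy0
    rw [hy.2, Int.cast_zero] at h
    simp only [Finset.mem_coe, Multiset.mem_toFinset, mem_roots hm, IsRoot.def]
    exact (mul_eq_zero.1 h.symm).resolve_left (pow_ne_zero _ hy0)
  · intro a _ b _ hab
    exact_mod_cast inv_injective hab
  · exact (Multiset.toFinset_card_le _).trans
      ((card_roots' _).trans (natDegree_map_le.trans hd))

theorem edges_dvd (P : ℤ[X]) (d y l : ℕ) (hd : P.natDegree ≤ d) (hy : y.Prime) (hl : l.Prime)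
    (hne : l ≠ y) (hb : Bad P y l) : (l : ℤ) ∣ edges_F P d y := by
  have : Fact l.Prime := ⟨hl⟩
  have hy0 : (y : ZMod l) ≠ 0 := by
    rw [Ne, ZMod.natCast_eq_zero_iff]
    exact fun h => hne ((Nat.prime_dvd_prime_iff_eq hl hy).1 h)
  rw [← ZMod.intCast_zmod_eq_zero_iff_dvd, edges_cast P d y hd (ZMod l) hy0]
  exact mul_eq_zero_of_right _ hb

theorem edges (P : ℤ[X]) (hP : P ≠ 0) (d K X₀ : ℕ) (hX : 2 ≤ X₀) (hd : P.natDegree ≤ d)
    (H Y : ℝ) (hH : ∀ k, |(P.coeff k : ℝ)| ≤ H) (hY : 1 ≤ Y)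
    (hK : (d + 1) * H * Y ^ d ≤ (X₀ : ℝ) ^ K) (V : Finset ℕ)
    (hV : ∀ x ∈ V, x.Prime ∧ X₀ < x ∧ (x : ℝ) ≤ Y) :
    ∃ V' ⊆ V, V.card ≤ V'.card + d + K ∧ (∀ l ∈ V', ¬ (l : ℤ) ∣ P.leadingCoeff) ∧
      ∀ y ∈ V', (V'.filter fun l => l ≠ y ∧ Bad P y l).card ≤ K := by
  have h0 : 0 ≤ H := (abs_nonneg _).trans (hH 0)
  refine ⟨V.filter fun y => edges_F P d y ≠ 0 ∧ ¬ (y : ℤ) ∣ P.leadingCoeff,
    Finset.filter_subset _ _, ?_, fun l hl => (Finset.mem_filter.1 hl).2.2, fun y hy => ?_⟩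
  · have h1 := edges_roots P hP d hd V fun x hx => (hV x hx).1.pos
    have h2 : (V.filter fun l : ℕ => (l : ℤ) ∣ P.leadingCoeff).card ≤ K := by
      refine card_big_primes P.leadingCoeff (leadingCoeff_ne_zero.2 hP) X₀ K hX ?_ _
        fun l hl => ?_
      · refine (hH _).trans (le_trans ?_ hK)
        have h3 : (1 : ℝ) ≤ Y ^ d := one_le_pow₀ hY
        have h4 : (0 : ℝ) ≤ d := by positivity
        have h5 : H ≤ (d + 1) * H := by nlinarith
        exact h5.trans (le_mul_of_one_le_right (by positivity) h3)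
      · rw [Finset.mem_filter] at hl
        exact ⟨(hV l hl.1).1, (hV l hl.1).2.1, hl.2⟩
    have h3 : V ⊆ (V.filter fun y => edges_F P d y ≠ 0 ∧ ¬ (y : ℤ) ∣ P.leadingCoeff) ∪
        (V.filter fun y => edges_F P d y = 0) ∪
        (V.filter fun l : ℕ => (l : ℤ) ∣ P.leadingCoeff) := by
      intro y hy
      simp only [Finset.mem_union, Finset.mem_filter]
      tauto
    have h4 := (Finset.card_le_card h3).trans ((Finset.card_union_le _ _).trans
      (Nat.add_le_add_right (Finset.card_union_le _ _) _))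
    omega
  · rw [Finset.mem_filter] at hy
    refine card_big_primes (edges_F P d y) hy.2.1 X₀ K hX
      ((edges_bound P d y H Y hH hY (hV y hy.1).2.2).trans hK) _ fun l hl => ?_
    rw [Finset.mem_filter, Finset.mem_filter] at hl
    exact ⟨(hV l hl.1.1).1, (hV l hl.1.1).2.1,
      edges_dvd P d y l hd (hV y hy.1).1 (hV l hl.1.1).1 hl.2.1 hl.2.2⟩

end PNF
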