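import Pool.Agent.P.MP_373cf5_nt.Defs

namespace PNF

open Classical

theorem indep_half (V : Finset ℕ) (E : ℕ → ℕ → Prop) (K : ℕ)
    (hout : ∀ y ∈ V, (V.filter fun l => l ≠ y ∧ E y l).card ≤ K) :
    V.card ≤ 2 * (V.filter fun l => (V.filter fun y => l ≠ y ∧ E y l).card ≤ 2 * K).card := by
  have h1 : ∑ l ∈ V, (V.filter fun y => l ≠ y ∧ E y l).card =
      ∑ y ∈ V, (V.filter fun l => l ≠ y ∧ E y l).card := by
    simp only [Finset.card_filter]
    exact Finset.sum_comm
  have h2 : ∑ y ∈ V, (V.filter fun l => l ≠ y ∧ E y l).card ≤ V.card * K := by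
    have := Finset.sum_le_card_nsmul V _ K hout
    rwa [smul_eq_mul] at this
  have h3 : (V.filter fun l => ¬ (V.filter fun y => l ≠ y ∧ E y l).card ≤ 2 * K).card *
      (2 * K + 1) ≤ ∑ l ∈ V, (V.filter fun y => l ≠ y ∧ E y l).card := by
    refine le_trans ?_ (Finset.sum_le_sum_of_subset (Finset.filter_subset
      (fun l => ¬ (V.filter fun y => l ≠ y ∧ E y l).card ≤ 2 * K) V))
    have := Finset.card_nsmul_le_sum
      (V.filter fun l => ¬ (V.filter fun y => l ≠ y ∧ E y l).card ≤ 2 * K)
      (fun l => (V.filter fun y => l ≠ y ∧ E y l).card) (2 * K + 1)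
      fun l hl => Nat.succ_le_of_lt (not_le.1 (Finset.mem_filter.1 hl).2)
    rwa [smul_eq_mul] at this
  have h4 := Finset.card_filter_add_card_filter_not (s := V)
    (fun l => (V.filter fun y => l ≠ y ∧ E y l).card ≤ 2 * K)
  have h5 := h3.trans (h1.le.trans h2)
  generalize (V.filter fun l => ¬ (V.filter fun y => l ≠ y ∧ E y l).card ≤ 2 * K).card = b at h4 h5
  generalize (V.filter fun l => (V.filter fun y => l ≠ y ∧ E y l).card ≤ 2 * K).card = a at h4 ⊢
  rw [← h4] at h5 ⊢
  by_contra hc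
  have h6 : a + 1 ≤ b := by omega
  nlinarith [Nat.mul_le_mul_right K h6]

/-- independent subsets of a given size -/
noncomputable def indepF (W : Finset ℕ) (E : ℕ → ℕ → Prop) (t : ℕ) : Finset (Finset ℕ) :=
  (W.powersetCard t).filter fun A => ∀ y ∈ A, ∀ l ∈ A, l ≠ y → ¬ E y l

theorem indep_step (V W : Finset ℕ) (E : ℕ → ℕ → Prop) (K d t : ℕ) (hW : W ⊆ V)
    (hout : ∀ y ∈ V, (V.filter fun l => l ≠ y ∧ E y l).card ≤ K)
    (hin : ∀ l ∈ W, (V.filter fun y => l ≠ y ∧ E y l).card ≤ 2 * K)
    (hc : V.card ≤ 2 * W.card) (hV : 4 * d * (3 * K + 1) ≤ V.card) (ht : t < d) :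
    V.card * (indepF W E t).card ≤ 4 * d * (indepF W E (t + 1)).card := by
  obtain ⟨m, hm⟩ : ∃ m, m = W.card - d * (3 * K + 1) := ⟨_, rfl⟩
  have hm4 : V.card ≤ 4 * m := by
    rw [mul_assoc] at hV
    omega
  have key : (indepF W E t).card * m ≤ (indepF W E (t + 1)).card * (t + 1) := by
    refine Finset.card_mul_le_card_mul (fun A B => A ⊆ B) (fun A hA => ?_) fun B hB => ?_
    · obtain ⟨hA1, hA2⟩ := Finset.mem_filter.1 hA
      obtain ⟨hAW, hAt⟩ := Finset.mem_powersetCard.1 hA1
      obtain ⟨Z, hZ⟩ : ∃ Z, Z = A.biUnion fun a => insert a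
        ((V.filter fun l => l ≠ a ∧ E a l) ∪ V.filter fun y => a ≠ y ∧ E y a) := ⟨_, rfl⟩
      have hZc : Z.card ≤ d * (3 * K + 1) := by
        rw [hZ]
        refine (Finset.card_biUnion_le_card_mul _ _ (3 * K + 1) fun a ha => ?_).trans
          (Nat.mul_le_mul_right _ (by omega))
        have h1 := hout a (hW (hAW ha))
        have h2 := hin a (hAW ha)
        have h3 := Finset.card_insert_le a
          ((V.filter fun l => l ≠ a ∧ E a l) ∪ V.filter fun y => a ≠ y ∧ E y a)
        have h4 := Finset.card_union_le (V.filter fun l => l ≠ a ∧ E a l)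
          (V.filter fun y => a ≠ y ∧ E y a)
        omega
      have hs : m ≤ (W \ Z).card := by
        have := Finset.le_card_sdiff Z W
        omega
      have hn : ∀ v ∈ W \ Z, ∀ a ∈ A, v ≠ a ∧ ¬ E a v ∧ ¬ E v a := fun v hv a ha => by
        obtain ⟨hvW, hvZ⟩ := Finset.mem_sdiff.1 hv
        rw [hZ, Finset.mem_biUnion] at hvZ
        have h1 : v ≠ a := fun h => hvZ ⟨a, ha, by simp [h]⟩
        refine ⟨h1, fun h => hvZ ⟨a, ha, ?_⟩, fun h => hvZ ⟨a, ha, ?_⟩⟩
        · simp [hW hvW, h1, h]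
        · simp [hW hvW, h1.symm, h]
      refine hs.trans (Finset.card_le_card_of_injOn (fun v => insert v A) (fun v hv => ?_)
        fun v hv v' hv' h => ?_)
      · have hv1 : v ∈ W \ Z := hv
        have hvA : v ∉ A := fun h => (hn v hv1 v h).1 rfl
        refine Finset.mem_coe.2 ((Finset.mem_bipartiteAbove _).2
          ⟨Finset.mem_filter.2 ⟨Finset.mem_powersetCard.2 ⟨?_, ?_⟩, fun y hy l hl hne => ?_⟩,
            Finset.subset_insert _ _⟩)
        · exact Finset.insert_subset (Finset.mem_sdiff.1 hv1).1 hAW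
        · rw [Finset.card_insert_of_notMem hvA, hAt]
        · rcases Finset.mem_insert.1 hy with rfl | hy' <;> rcases Finset.mem_insert.1 hl with rfl | hl'
          · exact absurd rfl hne
          · exact (hn _ hv1 l hl').2.2
          · exact (hn _ hv1 y hy').2.1
          · exact hA2 y hy' l hl' hne
      · have hv1 : v ∈ W \ Z := hv
        have h1 : v ∈ insert v' A := by
          have h' : insert v A = insert v' A := h
          rw [← h']
          exact Finset.mem_insert_self _ _
        rcases Finset.mem_insert.1 h1 with h2 | h2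
        · exact h2
        · exact absurd rfl (hn v hv1 v h2).1
    · have hBt := (Finset.mem_powersetCard.1 (Finset.mem_filter.1 hB).1).2
      have h1 : (indepF W E t).bipartiteBelow (fun A B => A ⊆ B) B ⊆ B.powersetCard t :=
        fun A hA => by
          obtain ⟨h2, h3⟩ := (Finset.mem_bipartiteBelow _).1 hA
          exact Finset.mem_powersetCard.2
            ⟨h3, (Finset.mem_powersetCard.1 (Finset.mem_filter.1 h2).1).2⟩
      refine (Finset.card_le_card h1).trans ?_
      rw [Finset.card_powersetCard, hBt, Nat.choose_succ_self_right]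
  calc V.card * (indepF W E t).card ≤ 4 * m * (indepF W E t).card := Nat.mul_le_mul_right _ hm4
    _ = 4 * ((indepF W E t).card * m) := by ring
    _ ≤ 4 * ((indepF W E (t + 1)).card * d) :=
      Nat.mul_le_mul_left _ (key.trans (Nat.mul_le_mul_left _ ht))
    _ = 4 * d * (indepF W E (t + 1)).card := by ring

theorem indep_count (V : Finset ℕ) (E : ℕ → ℕ → Prop) (K d : ℕ)
    (hout : ∀ y ∈ V, (V.filter fun l => l ≠ y ∧ E y l).card ≤ K)
    (hV : 4 * d * (3 * K + 1) ≤ V.card) :
    ∃ F : Finset (Finset ℕ),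
      (∀ A ∈ F, A ⊆ V ∧ A.card = d ∧ ∀ y ∈ A, ∀ l ∈ A, l ≠ y → ¬ E y l) ∧
      V.card ^ d ≤ (4 * d) ^ d * F.card := by
  have hc := indep_half V E K hout
  have hW := Finset.filter_subset (fun l => (V.filter fun y => l ≠ y ∧ E y l).card ≤ 2 * K) V
  have hin : ∀ l ∈ V.filter fun l => (V.filter fun y => l ≠ y ∧ E y l).card ≤ 2 * K,
      (V.filter fun y => l ≠ y ∧ E y l).card ≤ 2 * K := fun l hl => (Finset.mem_filter.1 hl).2
  generalize (V.filter fun l => (V.filter fun y => l ≠ y ∧ E y l).card ≤ 2 * K) = W at hc hW hin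
  refine ⟨indepF W E d, fun A hA => ?_, ?_⟩
  · obtain ⟨hA1, hA2⟩ := Finset.mem_filter.1 hA
    obtain ⟨hAW, hAt⟩ := Finset.mem_powersetCard.1 hA1
    exact ⟨hAW.trans hW, hAt, hA2⟩
  · have main : ∀ t ≤ d, V.card ^ t ≤ (4 * d) ^ t * (indepF W E t).card := by
      intro t
      induction t with
      | zero =>
        intro _
        have : ∅ ∈ indepF W E 0 := Finset.mem_filter.2 ⟨by simp, by simp⟩
        simpa using Finset.card_pos.2 ⟨_, this⟩
      | succ t ih =>
        intro ht
        have h1 := indep_step V W E K d t hW hout hin hc hV ht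
        calc V.card ^ (t + 1) = V.card ^ t * V.card := pow_succ _ _
          _ ≤ (4 * d) ^ t * (indepF W E t).card * V.card := Nat.mul_le_mul_right _ (ih (by omega))
          _ = (4 * d) ^ t * (V.card * (indepF W E t).card) := by ring
          _ ≤ (4 * d) ^ t * (4 * d * (indepF W E (t + 1)).card) := Nat.mul_le_mul_left _ h1
          _ = (4 * d) ^ (t + 1) * (indepF W E (t + 1)).card := by ring
    exact main d le_rfl

end PNF
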