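import Pool.Agent.P.MP_373cf5_nt.Defs

namespace PNF

theorem pigeon_fac {n B : ℕ} (h0 : n ≠ 0) (h : n ≤ 2 ^ B) (l : ℕ) : n.factorization l ≤ B := by
  by_cases hl : l.Prime
  · have h1 : l ^ n.factorization l ≤ n := Nat.ordProj_le l h0
    have h2 : 2 ^ n.factorization l ≤ l ^ n.factorization l := Nat.pow_le_pow_left hl.two_le _
    exact (Nat.pow_le_pow_iff_right (by norm_num)).1 (h2.trans (h1.trans h))
  · simp [Nat.factorization_eq_zero_of_not_prime _ hl]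

theorem pigeon (F : Finset (Finset ℕ)) (V S : Finset ℕ) (w : ℕ → ℕ) (d B Y : ℕ)
    (hF : ∀ A ∈ F, A ⊆ V ∧ A.card = d)
    (hw : ∀ x ∈ V, w x ≠ 0 ∧ w x ≤ 2 ^ B ∧ (w x).primeFactors ⊆ S) (hY : ∀ x ∈ V, x ≤ Y)
    (hc : (d * B + 1) ^ S.card * (d * Y + 1) < F.card) :
    ∃ A₀ ∈ F, ∃ A A' : Finset ℕ, A ⊆ A₀ ∧ A' ⊆ V ∧ Disjoint A A' ∧ A.Nonempty ∧
      A.card = A'.card ∧ ∑ x ∈ A, x = ∑ x ∈ A', x ∧ ∏ x ∈ A, w x = ∏ x ∈ A', w x := by
  classical
  have hcard : ((Fintype.piFinset fun _ : S => Finset.range (d * B + 1)) ×ˢ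
      Finset.range (d * Y + 1)).card < F.card := by
    simpa [Finset.card_product, Fintype.card_piFinset] using hc
  obtain ⟨A₀, h₀, A₁, h₁, hne, he⟩ := Finset.exists_ne_map_eq_of_card_lt_of_maps_to hcard
    (f := fun A : Finset ℕ => ((fun l : S => ∑ x ∈ A, (w x).factorization l), ∑ x ∈ A, x))
    (fun A hA => by
      obtain ⟨hAV, hd⟩ := hF A hA
      simp only [Finset.coe_product, Set.mem_prod, Finset.mem_coe, Fintype.mem_piFinset,
        Finset.mem_range, Nat.lt_succ_iff]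
      refine ⟨fun l => ?_, ?_⟩
      · have := Finset.sum_le_card_nsmul A (fun x => (w x).factorization l) B
          fun x hx => pigeon_fac (hw x (hAV hx)).1 (hw x (hAV hx)).2.1 l
        rwa [hd, smul_eq_mul] at this
      · have := Finset.sum_le_card_nsmul A (fun x => x) Y fun x hx => hY x (hAV hx)
        rwa [hd, smul_eq_mul] at this)
  obtain ⟨s₀, c₀⟩ := hF A₀ h₀
  obtain ⟨s₁, c₁⟩ := hF A₁ h₁
  obtain ⟨e1, e2⟩ := Prod.mk.inj he
  have n₀ : ∀ x ∈ A₀, w x ≠ 0 := fun x hx => (hw x (s₀ hx)).1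
  have n₁ : ∀ x ∈ A₁, w x ≠ 0 := fun x hx => (hw x (s₁ hx)).1
  have e3 : ∏ x ∈ A₀, w x = ∏ x ∈ A₁, w x := by
    refine Nat.eq_of_factorization_eq (Finset.prod_ne_zero_iff.2 n₀)
      (Finset.prod_ne_zero_iff.2 n₁) fun l => ?_
    rw [Nat.factorization_prod n₀, Nat.factorization_prod n₁, Finset.sum_apply', Finset.sum_apply']
    by_cases hl : l ∈ S
    · exact congrFun e1 ⟨l, hl⟩
    · have z : ∀ x ∈ V, (w x).factorization l = 0 := fun x hx => by
        rw [← Finsupp.notMem_support_iff, Nat.support_factorization]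
        exact fun h => hl ((hw x hx).2.2 h)
      rw [Finset.sum_eq_zero fun x hx => z x (s₀ hx), Finset.sum_eq_zero fun x hx => z x (s₁ hx)]
  refine ⟨A₀, h₀, A₀ \ A₁, A₁ \ A₀, Finset.sdiff_subset, Finset.sdiff_subset.trans s₁,
    disjoint_sdiff_sdiff, ?_, ?_, ?_, ?_⟩
  · rw [Finset.sdiff_nonempty]
    exact fun h => hne (Finset.eq_of_subset_of_card_le h (by omega))
  · have a := Finset.card_sdiff_add_card_inter A₀ A₁
    have b := Finset.card_sdiff_add_card_inter A₁ A₀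
    rw [Finset.inter_comm] at b
    omega
  · have a := Finset.sum_inter_add_sum_sdiff A₀ A₁ (fun x => x)
    have b := Finset.sum_inter_add_sum_sdiff A₁ A₀ (fun x => x)
    rw [Finset.inter_comm] at b
    omega
  · have a := Finset.prod_inter_mul_prod_sdiff A₀ A₁ w
    have b := Finset.prod_inter_mul_prod_sdiff A₁ A₀ w
    rw [Finset.inter_comm] at b
    have c : ∏ x ∈ A₀ ∩ A₁, w x ≠ 0 :=
      Finset.prod_ne_zero_iff.2 fun x hx => n₀ x (Finset.mem_inter.1 hx).1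
    exact mul_left_cancel₀ c (by rw [a, b, e3])

end PNF
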