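import Pool.Agent.P.MP_373cf5_nt.Defs

namespace PNF

open Polynomial

theorem resBound_det {N : ℕ} (A : Matrix (Fin N) (Fin N) ℝ) (i₀ : Fin N) {H ε : ℝ} (hH : 1 ≤ H)
    (hε : 0 ≤ ε) (hA : ∀ i j, |A i j| ≤ H) (h0 : ∀ j, |A i₀ j| ≤ ε) :
    |A.det| ≤ (N.factorial : ℝ) * H ^ N * ε := by
  rcases hε.eq_or_lt with rfl | hε'
  · rw [Matrix.det_eq_zero_of_row_eq_zero i₀ fun j => abs_nonpos_iff.1 (h0 j)]
    simp
  · have e : A = A.updateRow i₀ (ε • fun j => A i₀ j / ε) := by
      have : (ε • fun j => A i₀ j / ε) = A i₀ := by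
        ext j
        simp only [Pi.smul_apply, smul_eq_mul]
        field_simp
      rw [this, Matrix.updateRow_eq_self]
    have hb : |(A.updateRow i₀ fun j => A i₀ j / ε).det| ≤ (N.factorial : ℝ) * H ^ N := by
      have := Matrix.det_le (A := A.updateRow i₀ fun j => A i₀ j / ε) (abv := AbsoluteValue.abs)
        (x := H) (fun i j => by
          rw [AbsoluteValue.abs_apply, Matrix.updateRow_apply]
          split_ifs
          · rw [abs_div, abs_of_pos hε']
            exact ((div_le_one hε').2 (h0 j)).trans hH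
          · exact hA i j)
      simpa using this
    rw [e, Matrix.det_updateRow_smul, abs_mul, abs_of_pos hε', mul_comm]
    exact mul_le_mul_of_nonneg_right hb hε

theorem res_bound (f g : ℤ[X]) (hf : f ≠ 0) (hres : resultant f g ≠ 0) (d : ℕ)
    (hfd : f.natDegree ≤ d) (hgd : g.natDegree ≤ d) (κ H ε : ℝ) (hH : 1 ≤ H)
    (hfc : ∀ k, |(taylor κ (f.map (Int.castRingHom ℝ))).coeff k| ≤ H)
    (hgc : ∀ k, |(taylor κ (g.map (Int.castRingHom ℝ))).coeff k| ≤ H)
    (hf0 : |aeval κ f| ≤ ε) (hg0 : |aeval κ g| ≤ ε) :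
    1 ≤ ((2 * d).factorial : ℝ) * H ^ (2 * d) * ε := by
  have hε : 0 ≤ ε := (abs_nonneg _).trans hf0
  have hinj : Function.Injective (Int.castRingHom ℝ) := Int.cast_injective
  have hone : ∀ a : ℤ, a ≠ 0 → (1 : ℝ) ≤ |(a : ℝ)| := fun a ha => by
    exact_mod_cast Int.one_le_abs ha
  have hmono : ∀ N ≤ 2 * d, (N.factorial : ℝ) * H ^ N * ε ≤
      ((2 * d).factorial : ℝ) * H ^ (2 * d) * ε := fun N hN => by
    have h1 : (N.factorial : ℝ) ≤ ((2 * d).factorial : ℝ) := by
      exact_mod_cast Nat.factorial_le hN
    have h2 : H ^ N ≤ H ^ (2 * d) := pow_le_pow_right₀ hH hN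
    have h3 : 0 ≤ H ^ N := by positivity
    gcongr
  have hc : ∀ p : ℤ[X], (taylor κ (p.map (Int.castRingHom ℝ))).coeff 0 = aeval κ p := fun p => by
    rw [taylor_coeff_zero, eval_map, aeval_def]; rfl
  set f' := taylor κ (f.map (Int.castRingHom ℝ)) with hf'
  set g' := taylor κ (g.map (Int.castRingHom ℝ)) with hg'
  have hr : resultant f' g' f.natDegree g.natDegree = ((resultant f g : ℤ) : ℝ) := by
    have := resultant_taylor (f.map (Int.castRingHom ℝ)) (g.map (Int.castRingHom ℝ)) κ
    rw [natDegree_taylor, natDegree_taylor, natDegree_map_eq_of_injective hinj,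
      natDegree_map_eq_of_injective hinj, resultant_map_map] at this
    exact this
  refine le_trans ?_ (hmono (f.natDegree + g.natDegree) (by omega))
  rcases Nat.eq_zero_or_pos (f.natDegree + g.natDegree) with h0 | h0
  · have hf1 : f.natDegree = 0 := by omega
    rw [h0]
    rw [eq_C_of_natDegree_eq_zero hf1] at hf hf0
    have := hone (f.coeff 0) (fun h => hf (by rw [h, map_zero]))
    rw [aeval_C] at hf0
    simpa using this.trans hf0
  · refine (hone _ hres).trans ?_
    rw [← hr, resultant]
    have hH0 : |(0 : ℝ)| ≤ H := by rw [abs_zero]; linarith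
    have hε0 : |(0 : ℝ)| ≤ ε := by rw [abs_zero]; exact hε
    refine resBound_det _ ⟨0, h0⟩ hH hε (fun i j => ?_) fun j => ?_
    · induction j using Fin.addCases with
      | left j =>
        simp only [sylvester, Matrix.of_apply, Fin.addCases_left]
        split_ifs
        · exact hgc _
        · exact hH0
      | right j =>
        simp only [sylvester, Matrix.of_apply, Fin.addCases_right]
        split_ifs
        · exact hfc _
        · exact hH0
    · induction j using Fin.addCases with
      | left j =>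
        simp only [sylvester, Matrix.of_apply, Fin.addCases_left, Nat.zero_sub]
        split_ifs
        · rw [hg', hc]; exact hg0
        · exact hε0
      | right j =>
        simp only [sylvester, Matrix.of_apply, Fin.addCases_right, Nat.zero_sub]
        split_ifs
        · rw [hf', hc]; exact hf0
        · exact hε0

end PNF
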