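import Pool.Agent.P.MP_373cf5_nt.Defs

namespace PNF

open Polynomial

theorem res_ne_zero (P : ℤ[X]) (A B : Finset ℕ) (hp : ∀ x ∈ A ∪ B, x.Prime)
    (hdisj : Disjoint A B) (l : ℕ) (hl : l ∈ A) (hlc : ¬ (l : ℤ) ∣ P.leadingCoeff)
    (hind : ∀ y ∈ A, l ≠ y → ¬ Bad P y l) : resultant P (QQ A B) ≠ 0 := by
  have hlp : l.Prime := hp l (Finset.mem_union_left _ hl)
  have : Fact l.Prime := ⟨hlp⟩
  have hne : ∀ y : ℕ, y.Prime → l ≠ y → (y : ZMod l) ≠ 0 := fun y hy h h0 =>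
    h ((Nat.prime_dvd_prime_iff_eq hlp hy).1 ((ZMod.natCast_eq_zero_iff y l).1 h0))
  set φ := Int.castRingHom (ZMod l) with hφ
  have hlc' : φ P.leadingCoeff ≠ 0 := fun h => hlc ((ZMod.intCast_zmod_eq_zero_iff_dvd _ l).1 h)
  have hdeg : (P.map φ).natDegree = P.natDegree := natDegree_map_of_leadingCoeff_ne_zero φ hlc'
  have hQ : (QQ A B).map φ = C (∏ x ∈ B, (x : ZMod l) ^ 3) * ∏ x ∈ A, (C (x : ZMod l) * X - 1) := by
    have h0 : ∏ x ∈ A, (x : ZMod l) ^ 3 = 0 := Finset.prod_eq_zero hl (by simp)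
    have h1 : ∀ T : Finset ℕ, φ (∏ x ∈ T, (x : ℤ) ^ 3) = ∏ x ∈ T, (x : ZMod l) ^ 3 := fun T => by
      simp [hφ]
    have h2 : ∀ T : Finset ℕ, (∏ x ∈ T, (C (x : ℤ) * X - 1)).map φ =
        ∏ x ∈ T, (C (x : ZMod l) * X - 1) := fun T => by
      rw [Polynomial.map_prod]
      refine Finset.prod_congr rfl fun x _ => ?_
      rw [Polynomial.map_sub, Polynomial.map_mul, map_C, map_X, Polynomial.map_one, map_natCast φ]
    rw [QQ, Polynomial.map_sub, Polynomial.map_mul, Polynomial.map_mul, map_C, map_C, h1, h1, h2,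
      h0, C_0, zero_mul, sub_zero]
  have hu : ∏ x ∈ B, (x : ZMod l) ^ 3 ≠ 0 := Finset.prod_ne_zero_iff.2 fun x hx =>
    pow_ne_zero _ (hne x (hp x (Finset.mem_union_right _ hx))
      fun h => Finset.disjoint_left.1 hdisj hl (h ▸ hx))
  have hcop : IsCoprime (P.map φ) ((QQ A B).map φ) := by
    rw [hQ, isCoprime_mul_unit_left_right (isUnit_C.2 hu.isUnit)]
    refine IsCoprime.prod_right fun y hy => ?_
    rcases eq_or_ne l y with rfl | hy'
    · simpa using isCoprime_one_right.neg_right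
    · have hy0 := hne y (hp y (Finset.mem_union_left _ hy)) hy'
      have e : C (y : ZMod l) * X - 1 = C (y : ZMod l) * (X - C (y : ZMod l)⁻¹) := by
        rw [mul_sub, ← C_mul, mul_inv_cancel₀ hy0, C_1]
      rw [e, isCoprime_mul_unit_left_right (isUnit_C.2 hy0.isUnit)]
      exact ((irreducible_X_sub_C _).coprime_iff_not_dvd.2
        fun h => hind y hy hy' (dvd_iff_isRoot.1 h)).symm
  intro h0
  have h1 := resultant_map_map P (QQ A B) P.natDegree (QQ A B).natDegree φ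
  obtain ⟨k, hk⟩ := Nat.exists_eq_add_of_le (natDegree_map_le (f := φ) (p := QQ A B))
  rw [h0, map_zero, hk, resultant_add_right_deg _ _ _ _ _ le_rfl, ← hdeg] at h1
  refine mul_ne_zero (pow_ne_zero _ ?_) (resultant_ne_zero _ _ hcop) h1
  rwa [hdeg, coeff_map]

end PNF
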