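import Pool.Agent.P.MP_373cf5_nt.Rel
import Pool.Agent.P.MP_373cf5_nt.Coeff
import Pool.Agent.P.MP_373cf5_nt.Edges
import Pool.Agent.P.MP_373cf5_nt.Indep
import Pool.Agent.P.MP_373cf5_nt.Pigeon
import Pool.Agent.P.MP_373cf5_nt.ResNZ
import Pool.Agent.P.MP_373cf5_nt.ResBound

namespace PNF

theorem core_edge_num (X d : ℕ) (hX : 16 ≤ X) (hd : 1 ≤ d) :
    ((d : ℝ) + 1) * (2 * (2 * (8 * X : ℝ)) ^ d * (8 * X : ℝ) ^ (3 * d)) * (8 * X : ℝ) ^ d ≤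
      (X : ℝ) ^ (12 * d) := by
  have hX' : (16 : ℝ) ≤ X := by exact_mod_cast hX
  have h1 : ((d : ℝ) + 1) ≤ 2 ^ d := by
    have : d + 1 ≤ 2 ^ d := Nat.lt_two_pow_self
    exact_mod_cast this
  have h2 : (2 : ℝ) ≤ 2 ^ d := by
    calc (2 : ℝ) = 2 ^ 1 := by norm_num
      _ ≤ 2 ^ d := pow_le_pow_right₀ (by norm_num) hd
  have h3 : (2 * 2 * (2 * (8 * X)) * (8 * X) ^ 3 * (8 * X) : ℝ) ≤ (X : ℝ) ^ 12 := by
    have h4 : (16 : ℝ) ^ 7 ≤ (X : ℝ) ^ 7 := pow_le_pow_left₀ (by norm_num) hX' 7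
    have h5 : (0 : ℝ) ≤ (X : ℝ) ^ 5 := by positivity
    have h6 : (X : ℝ) ^ 12 = (X : ℝ) ^ 7 * (X : ℝ) ^ 5 := by ring
    have h7 : (2 * 2 * (2 * (8 * X)) * (8 * X) ^ 3 * (8 * X) : ℝ) = 262144 * (X : ℝ) ^ 5 := by ring
    rw [h6, h7]
    apply mul_le_mul_of_nonneg_right _ h5
    linarith [show (262144 : ℝ) ≤ 16 ^ 7 by norm_num]
  calc ((d : ℝ) + 1) * (2 * (2 * (8 * X : ℝ)) ^ d * (8 * X : ℝ) ^ (3 * d)) * (8 * X : ℝ) ^ d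
      ≤ 2 ^ d * (2 ^ d * (2 * (8 * X : ℝ)) ^ d * (8 * X : ℝ) ^ (3 * d)) * (8 * X : ℝ) ^ d := by
        gcongr
    _ = (2 * 2 * (2 * (8 * X)) * (8 * X) ^ 3 * (8 * X) : ℝ) ^ d := by
        rw [pow_mul]; simp only [mul_pow]; ring
    _ ≤ ((X : ℝ) ^ 12) ^ d := pow_le_pow_left₀ (by positivity) h3 d
    _ = (X : ℝ) ^ (12 * d) := by rw [pow_mul]

theorem core (κ c η : ℝ) (hκ : 0 ≤ κ) (hc : 0 < c) (hη : 0 ≤ η) (X d B : ℕ) (hX : 16 ≤ X)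
    (hd : 1 ≤ d) (V S : Finset ℕ) (w : ℕ → ℕ) (e : ℕ → ℝ)
    (hV : ∀ x ∈ V, x.Prime ∧ X < x ∧ x ≤ 8 * X)
    (hw : ∀ x ∈ V, w x ≠ 0 ∧ w x ≤ 2 ^ B ∧ (w x).primeFactors ⊆ S)
    (hwe : ∀ x ∈ V, (w x : ℝ) = c * ((κ * x - 1) / (x : ℝ) ^ 3) * Real.exp (κ * x) * (1 + e x) ∧
      |e x| ≤ η)
    (hdη : d * η ≤ 1) (h1 : 200 * d ^ 2 ≤ V.card)
    (h2 : (d * B + 1) ^ S.card * (d * (8 * X) + 1) * (8 * d) ^ d < V.card ^ d)
    (h3 : ((2 * d).factorial : ℝ) *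
      (2 * ((κ + 2) * (8 * X : ℝ)) ^ d * (8 * X : ℝ) ^ (3 * d)) ^ (2 * d) *
      (4 * ((κ + 2) * (8 * X : ℝ)) ^ d * (8 * X : ℝ) ^ (3 * d) * (d * η)) < 1) : False := by
  classical
  set T := (d * B + 1) ^ S.card * (d * (8 * X) + 1) with hT
  have hX' : (16 : ℝ) ≤ X := by exact_mod_cast hX
  have hY : (1 : ℝ) ≤ 8 * X := by linarith
  have hdd : d ≤ d ^ 2 := by nlinarith
  -- facts on a relation inside `V`
  have hrel : ∀ A A' : Finset ℕ, A ⊆ V → A' ⊆ V → A.card ≤ d → A.card = A'.card →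
      ∑ x ∈ A, x = ∑ x ∈ A', x → ∏ x ∈ A, w x = ∏ x ∈ A', w x →
      (QQ A A').natDegree ≤ d ∧
      (∀ k, |(Polynomial.taylor κ ((QQ A A').map (Int.castRingHom ℝ))).coeff k| ≤
        2 * ((κ + 2) * (8 * X : ℝ)) ^ d * (8 * X : ℝ) ^ (3 * d)) ∧
      (∀ k, |((QQ A A').coeff k : ℝ)| ≤ 2 * (2 * (8 * X : ℝ)) ^ d * (8 * X : ℝ) ^ (3 * d)) ∧
      |Polynomial.aeval κ (QQ A A')| ≤
        4 * ((κ + 2) * (8 * X : ℝ)) ^ d * (8 * X : ℝ) ^ (3 * d) * (d * η) := by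
    intro A A' hA hA' hAd hc' hs hp
    have hU : ∀ x ∈ A ∪ A', x ∈ V := fun x hx => by
      rcases Finset.mem_union.mp hx with h | h
      exacts [hA h, hA' h]
    have hb : ∀ x ∈ A ∪ A', (x : ℝ) ≤ 8 * X := fun x hx => by
      exact_mod_cast (hV x (hU x hx)).2.2
    refine ⟨natDegree_QQ_le A A' d hAd (hc' ▸ hAd),
      fun k => taylor_coeff_le κ _ hκ hY A A' hb d hAd (hc' ▸ hAd) k,
      fun k => coeff_QQ_le _ hY A A' hb d hAd (hc' ▸ hAd) k, ?_⟩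
    exact rel_small κ c η _ hκ hc hη hY A A' w e d
      (fun x hx => ⟨(hV x (hU x hx)).1.one_le, hb x hx⟩) hc' hAd hs hp
      (fun x hx => (hwe x (hU x hx)).1) (fun x hx => (hwe x (hU x hx)).2) hdη
  have h8 : 0 < (8 * d) ^ d := by positivity
  -- first relation
  obtain ⟨F₁, hF₁, hc₁⟩ := indep_count V (fun _ _ => False) 0 d (by simp) (by omega)
  have hT₁ : T < F₁.card := by
    have h4 : (4 * d) ^ d ≤ (8 * d) ^ d := Nat.pow_le_pow_left (by omega) d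
    have h5 : T * (8 * d) ^ d < F₁.card * (8 * d) ^ d := by
      calc T * (8 * d) ^ d < V.card ^ d := h2
        _ ≤ (4 * d) ^ d * F₁.card := hc₁
        _ ≤ (8 * d) ^ d * F₁.card := Nat.mul_le_mul_right _ h4
        _ = F₁.card * (8 * d) ^ d := mul_comm _ _
    exact lt_of_mul_lt_mul_right h5 (Nat.zero_le _)
  obtain ⟨A₀, hA₀, A₁, B₁, hA₁, hB₁, hdis₁, hne₁, hcard₁, hsum₁, hprod₁⟩ :=
    pigeon F₁ V S w d B (8 * X) (fun A hA => ⟨(hF₁ A hA).1, (hF₁ A hA).2.1⟩) hw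
      (fun x hx => (hV x hx).2.2) hT₁
  have hA₁V : A₁ ⊆ V := hA₁.trans (hF₁ A₀ hA₀).1
  have hA₁d : A₁.card ≤ d := (Finset.card_le_card hA₁).trans (hF₁ A₀ hA₀).2.1.le
  obtain ⟨p1, p2, p3, p4⟩ := hrel A₁ B₁ hA₁V hB₁ hA₁d hcard₁ hsum₁ hprod₁
  have hP : QQ A₁ B₁ ≠ 0 := by
    apply QQ_ne_zero A₁ B₁ hdis₁
    · rw [← Finset.card_pos, ← hcard₁]; exact hne₁.card_pos
    · intro x hx
      rcases Finset.mem_union.mp hx with h | h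
      exacts [(hV x (hA₁V h)).1.ne_zero, (hV x (hB₁ h)).1.ne_zero]
  -- second relation
  obtain ⟨V', hV'V, hV'c, hlc, hout⟩ := edges (QQ A₁ B₁) hP d (12 * d) X (by omega) p1 _ _ p3 hY
    (core_edge_num X d hX hd) V
    (fun x hx => ⟨(hV x hx).1, (hV x hx).2.1, by exact_mod_cast (hV x hx).2.2⟩)
  obtain ⟨F₂, hF₂, hc₂⟩ := indep_count V' (Bad (QQ A₁ B₁)) (12 * d) d
    (fun y hy => by convert hout y hy) (by nlinarith)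
  have hT₂ : T < F₂.card := by
    have h4 : V.card ^ d ≤ (2 * V'.card) ^ d := Nat.pow_le_pow_left (by omega) d
    have h5 : T * (8 * d) ^ d < F₂.card * (8 * d) ^ d := by
      calc T * (8 * d) ^ d < V.card ^ d := h2
        _ ≤ (2 * V'.card) ^ d := h4
        _ = 2 ^ d * V'.card ^ d := mul_pow _ _ _
        _ ≤ 2 ^ d * ((4 * d) ^ d * F₂.card) := Nat.mul_le_mul_left _ hc₂
        _ = F₂.card * (8 * d) ^ d := by
          rw [show 8 * d = 2 * (4 * d) by ring, mul_pow 2 (4 * d)]; ring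
    exact lt_of_mul_lt_mul_right h5 (Nat.zero_le _)
  obtain ⟨A₃, hA₃, A₂, B₂, hA₂, hB₂, hdis₂, hne₂, hcard₂, hsum₂, hprod₂⟩ :=
    pigeon F₂ V' S w d B (8 * X) (fun A hA => ⟨(hF₂ A hA).1, (hF₂ A hA).2.1⟩)
      (fun x hx => hw x (hV'V hx)) (fun x hx => (hV x (hV'V hx)).2.2) hT₂
  have hA₂V : A₂ ⊆ V' := hA₂.trans (hF₂ A₃ hA₃).1
  have hA₂d : A₂.card ≤ d := (Finset.card_le_card hA₂).trans (hF₂ A₃ hA₃).2.1.le
  obtain ⟨q1, q2, -, q4⟩ := hrel A₂ B₂ (hA₂V.trans hV'V) (hB₂.trans hV'V) hA₂d hcard₂ hsum₂ hprod₂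
  obtain ⟨l, hl⟩ := hne₂
  have hres : Polynomial.resultant (QQ A₁ B₁) (QQ A₂ B₂) ≠ 0 := by
    apply res_ne_zero (QQ A₁ B₁) A₂ B₂ _ hdis₂ l hl (hlc l (hA₂V hl))
    · intro y hy hly
      exact (hF₂ A₃ hA₃).2.2 y (hA₂ hy) l (hA₂ hl) hly
    · intro x hx
      rcases Finset.mem_union.mp hx with h | h
      exacts [(hV x (hV'V (hA₂V h))).1, (hV x (hV'V (hB₂ h))).1]
  have hH : (1 : ℝ) ≤ 2 * ((κ + 2) * (8 * X : ℝ)) ^ d * (8 * X : ℝ) ^ (3 * d) := by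
    have a1 : (1 : ℝ) ≤ ((κ + 2) * (8 * X : ℝ)) ^ d := one_le_pow₀ (by nlinarith)
    have a2 : (1 : ℝ) ≤ (8 * X : ℝ) ^ (3 * d) := one_le_pow₀ hY
    nlinarith
  have := res_bound (QQ A₁ B₁) (QQ A₂ B₂) hP hres d p1 q1 κ _ _ hH p2 q2 p4 q4
  linarith

end PNF
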