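import Pool.Agent.P.MP_373cf5_nt.Defs

namespace PNF

/-- The pigeonhole inequality. -/
theorem num_pigeon (N X M d B r : ℕ) (ρ : ℝ) (hX : 2 ≤ X) (hN : 92 ≤ N) (hd : 1 ≤ d)
    (hρ : ρ = ((r : ℝ) + 1) * Real.log N / Real.log X) (hdρ : 9 * ρ ≤ d)
    (hdB : d * B ≤ 8 * N) (hdX : d * X ≤ N) (hM : 4 * (d : ℝ) ^ 2 + 4 * √(X : ℝ) ≤ M) :
    (d * B + 1) ^ r * (d * (8 * X) + 1) * (8 * d) ^ d < M ^ d := by
  have hN2 : 8 * N + 1 ≤ N ^ 2 := by nlinarith
  have h1 : (d * B + 1) ^ r * (d * (8 * X) + 1) ≤ N ^ (2 * (r + 1)) := by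
    rw [pow_mul, pow_succ (N ^ 2)]
    refine Nat.mul_le_mul (Nat.pow_le_pow_left (by omega) r) ?_
    nlinarith
  have hX' : (1 : ℝ) < X := by exact_mod_cast hX
  have hN' : (1 : ℝ) < N := by exact_mod_cast (by omega : 1 < N)
  have lX := Real.log_pos hX'
  have lN := Real.log_pos hN'
  have hy : 0 < √(√(X : ℝ)) := by positivity
  have ly : Real.log √(√(X : ℝ)) = Real.log X / 4 := by
    rw [Real.log_sqrt (by positivity), Real.log_sqrt (by positivity)]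
    ring
  have h2 : (N : ℝ) ^ (2 * (r + 1)) < √(√(X : ℝ)) ^ d := by
    rw [← Real.log_lt_log_iff (by positivity) (by positivity), Real.log_pow, Real.log_pow, ly]
    have e : ρ * Real.log X = ((r : ℝ) + 1) * Real.log N := by
      rw [hρ]
      field_simp
    have h3 := mul_le_mul_of_nonneg_right hdρ lX.le
    have h4 : 0 < ((r : ℝ) + 1) * Real.log N := by positivity
    push_cast
    nlinarith
  have h5 : √(√(X : ℝ)) * (8 * d) ≤ M := by
    have h6 := Real.sq_sqrt (Real.sqrt_nonneg (X : ℝ))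
    nlinarith [sq_nonneg ((d : ℝ) - √(√(X : ℝ)))]
  have hd' : (0 : ℝ) < d := by exact_mod_cast hd
  have h7 : (((d * B + 1) ^ r * (d * (8 * X) + 1) : ℕ) : ℝ) ≤ (N : ℝ) ^ (2 * (r + 1)) := by
    exact_mod_cast h1
  have h8 : (((d * B + 1) ^ r * (d * (8 * X) + 1) : ℕ) : ℝ) * (8 * d) ^ d < (M : ℝ) ^ d :=
    calc _ < √(√(X : ℝ)) ^ d * (8 * d) ^ d :=
          mul_lt_mul_of_pos_right (h7.trans_lt h2) (by positivity)
      _ = (√(√(X : ℝ)) * (8 * d)) ^ d := (mul_pow _ _ _).symm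
      _ ≤ _ := pow_le_pow_left₀ (by positivity) h5 d
  exact_mod_cast h8

end PNF
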