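import Pool.Agent.P.MP_373cf5_nt.Defs

namespace PNF

/-- The smallness inequality. -/
theorem num_small (N X d : ℕ) (κ C₀ η : ℝ) (hN : 92 ≤ N) (hd : 1 ≤ d) (hC : 1 ≤ C₀)
    (hκ : 0 ≤ κ) (hκX : (κ + 2) * (8 * X : ℝ) ≤ N) (hX : 8 * X ≤ N) (hdN : 2 * d ≤ N)
    (hη0 : 0 ≤ η) (hη : η ≤ C₀ * Real.exp (-√(N : ℝ) / 6))
    (hlog : 19 * (d : ℝ) ^ 2 * Real.log N ≤ √(N : ℝ) / 12) (hC' : 12 * C₀ ≤ √(N : ℝ)) :
    d * η ≤ 1 ∧ ((2 * d).factorial : ℝ) *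
      (2 * ((κ + 2) * (8 * X : ℝ)) ^ d * (8 * X : ℝ) ^ (3 * d)) ^ (2 * d) *
      (4 * ((κ + 2) * (8 * X : ℝ)) ^ d * (8 * X : ℝ) ^ (3 * d) * (d * η)) < 1 := by
  have hNR : (92 : ℝ) ≤ N := by exact_mod_cast hN
  have hN1 : (1 : ℝ) ≤ N := by linarith
  have hN0 : (0 : ℝ) < N := by linarith
  have hXR : (8 * X : ℝ) ≤ N := by exact_mod_cast hX
  have hX0 : (0 : ℝ) ≤ 8 * X := by positivity
  have hdR : (2 * d : ℝ) ≤ N := by exact_mod_cast hdN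
  have hd0 : (0 : ℝ) ≤ d := by positivity
  have hk0 : (0 : ℝ) ≤ (κ + 2) * (8 * X : ℝ) := by positivity
  have hNd : (N : ℝ) ≤ (N : ℝ) ^ d := le_self_pow₀ hN1 (by omega)
  have h1 : ((κ + 2) * (8 * X : ℝ)) ^ d ≤ (N : ℝ) ^ d := pow_le_pow_left₀ hk0 hκX d
  have h2 : (8 * X : ℝ) ^ (3 * d) ≤ (N : ℝ) ^ (3 * d) := pow_le_pow_left₀ hX0 hXR _
  have h12 : ((κ + 2) * (8 * X : ℝ)) ^ d * (8 * X : ℝ) ^ (3 * d) ≤ (N : ℝ) ^ (4 * d) := by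
    calc _ ≤ (N : ℝ) ^ d * (N : ℝ) ^ (3 * d) := mul_le_mul h1 h2 (by positivity) (by positivity)
      _ = (N : ℝ) ^ (4 * d) := by rw [← pow_add]; congr 1; ring
  have h5 : (N : ℝ) ^ (5 * d) = (N : ℝ) ^ d * (N : ℝ) ^ (4 * d) := by
    rw [← pow_add]; congr 1; ring
  have h4p : (0 : ℝ) ≤ (N : ℝ) ^ (4 * d) := by positivity
  have hP0 : (0 : ℝ) ≤ ((κ + 2) * (8 * X : ℝ)) ^ d * (8 * X : ℝ) ^ (3 * d) := by positivity
  have hH4 : 4 * ((κ + 2) * (8 * X : ℝ)) ^ d * (8 * X : ℝ) ^ (3 * d) ≤ (N : ℝ) ^ (5 * d) := by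
    rw [h5, mul_assoc]
    exact mul_le_mul (by linarith) h12 hP0 (by positivity)
  have hH2 : 2 * ((κ + 2) * (8 * X : ℝ)) ^ d * (8 * X : ℝ) ^ (3 * d) ≤ (N : ℝ) ^ (5 * d) := by
    rw [h5, mul_assoc]
    exact mul_le_mul (by linarith) h12 hP0 (by positivity)
  have hF : ((2 * d).factorial : ℝ) ≤ (N : ℝ) ^ (2 * d) := by
    have : (2 * d).factorial ≤ N ^ (2 * d) :=
      (Nat.factorial_le_pow _).trans (Nat.pow_le_pow_left hdN _)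
    exact_mod_cast this
  have hHp : (2 * ((κ + 2) * (8 * X : ℝ)) ^ d * (8 * X : ℝ) ^ (3 * d)) ^ (2 * d) ≤
      (N : ℝ) ^ (5 * d * (2 * d)) := by
    rw [pow_mul (N : ℝ) (5 * d) (2 * d)]
    exact pow_le_pow_left₀ (by positivity) hH2 _
  have hdN' : (d : ℝ) ≤ (N : ℝ) ^ d := by linarith
  have hL : 4 * ((κ + 2) * (8 * X : ℝ)) ^ d * (8 * X : ℝ) ^ (3 * d) * (d * η) ≤
      (N : ℝ) ^ (5 * d) * ((N : ℝ) ^ d * η) :=
    mul_le_mul hH4 (mul_le_mul_of_nonneg_right hdN' hη0) (by positivity) (by positivity)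
  have hE : (N : ℝ) ^ (19 * d ^ 2) ≤ Real.exp (√(N : ℝ) / 12) := by
    have : (N : ℝ) ^ (19 * d ^ 2) = Real.exp (19 * (d : ℝ) ^ 2 * Real.log N) := by
      rw [show 19 * (d : ℝ) ^ 2 * Real.log N = ((19 * d ^ 2 : ℕ) : ℝ) * Real.log N by
        push_cast; ring, Real.exp_nat_mul, Real.exp_log hN0]
    rw [this]
    exact Real.exp_le_exp.2 hlog
  have hkey : (N : ℝ) ^ (19 * d ^ 2) * η < 1 := by
    have hlt : C₀ < Real.exp (√(N : ℝ) / 12) := by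
      have := Real.add_one_le_exp (√(N : ℝ) / 12)
      linarith
    have hpos := Real.exp_pos (√(N : ℝ) / 12)
    have hpos' := Real.exp_pos (-√(N : ℝ) / 6)
    have hmul : Real.exp (√(N : ℝ) / 12) * (Real.exp (√(N : ℝ) / 12) *
        Real.exp (-√(N : ℝ) / 6)) = 1 := by
      rw [← Real.exp_add, ← Real.exp_add, ← Real.exp_zero]
      congr 1; ring
    calc (N : ℝ) ^ (19 * d ^ 2) * η
        ≤ Real.exp (√(N : ℝ) / 12) * (C₀ * Real.exp (-√(N : ℝ) / 6)) :=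
          mul_le_mul hE hη hη0 hpos.le
      _ < Real.exp (√(N : ℝ) / 12) * (Real.exp (√(N : ℝ) / 12) * Real.exp (-√(N : ℝ) / 6)) :=
          mul_lt_mul_of_pos_left (mul_lt_mul_of_pos_right hlt hpos') hpos
      _ = 1 := hmul
  have hdd : d ≤ d ^ 2 := Nat.le_self_pow (by norm_num) d
  refine ⟨?_, ?_⟩
  · have : (N : ℝ) ^ d ≤ (N : ℝ) ^ (19 * d ^ 2) := pow_le_pow_right₀ hN1 (by omega)
    exact (mul_le_mul_of_nonneg_right (hdN'.trans this) hη0).trans hkey.le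
  · refine lt_of_le_of_lt ?_ hkey
    have hexp : 2 * d + 5 * d * (2 * d) + (5 * d + d) ≤ 19 * d ^ 2 := by nlinarith
    calc _ ≤ (N : ℝ) ^ (2 * d) * (N : ℝ) ^ (5 * d * (2 * d)) *
          ((N : ℝ) ^ (5 * d) * ((N : ℝ) ^ d * η)) :=
          mul_le_mul (mul_le_mul hF hHp (by positivity) (by positivity)) hL (by positivity)
            (by positivity)
      _ = (N : ℝ) ^ (2 * d + 5 * d * (2 * d) + (5 * d + d)) * η := by
          rw [pow_add, pow_add, pow_add]; ring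
      _ ≤ (N : ℝ) ^ (19 * d ^ 2) * η :=
          mul_le_mul_of_nonneg_right (pow_le_pow_right₀ hN1 hexp) hη0

end PNF
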