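import Pool.Agent.P.MP_373cf5_nt.HRrel
import Pool.Agent.P.MP_373cf5_nt.Core
import Pool.Agent.P.MP_373cf5_nt.NumA
import Pool.Agent.P.MP_373cf5_nt.NumB

namespace PNF

/-- The uniform counting theorem. -/
theorem count : ∃ C : ℝ, 0 < C ∧ ∀ D X : ℕ, D % 24 = 23 → 2 ≤ X → ∀ (S : Finset ℕ) (ρ : ℝ),
    ρ = ((S.card : ℝ) + 1) * Real.log ((D * X ^ 2 : ℕ) : ℝ) / Real.log X →
    C * ρ ^ 2 * Real.log ((D * X ^ 2 : ℕ) : ℝ) ≤ √((D * X ^ 2 : ℕ) : ℝ) →
    (((Finset.Ioc X (8 * X)).filter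
      fun x => x.Prime ∧ (pn (nx D x)).primeFactors ⊆ S).card : ℝ) ≤ C * (ρ ^ 2 + √(X : ℝ)) := by
  obtain ⟨C₀, hC₀, hr⟩ := hr_rel
  refine ⟨30000 + 12 * C₀, by linarith, fun D X hD hX S ρ hρ hC => ?_⟩
  by_contra hM
  rw [not_le] at hM
  set V := (Finset.Ioc X (8 * X)).filter fun x => x.Prime ∧ (pn (nx D x)).primeFactors ⊆ S
    with hVdef
  have hV7 : V.card ≤ 7 * X := by
    have := Finset.card_filter_le (Finset.Ioc X (8 * X))
      fun x => x.Prime ∧ (pn (nx D x)).primeFactors ⊆ S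
    rw [Nat.card_Ioc] at this
    exact this.trans (by omega)
  have hD23 : 23 ≤ D := by omega
  have hNe : ((D * X ^ 2 : ℕ) : ℝ) = (D : ℝ) * (X : ℝ) ^ 2 := by push_cast; ring
  have hN : 92 ≤ D * X ^ 2 := by nlinarith
  have hXN : X ≤ D * X ^ 2 := by nlinarith
  generalize hNd : D * X ^ 2 = N at *
  have hX2 : (2 : ℝ) ≤ X := by exact_mod_cast hX
  have hNr : (92 : ℝ) ≤ N := by exact_mod_cast hN
  have hL : 1 ≤ Real.log N := by
    rw [Real.le_log_iff_exp_le (by linarith)]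
    linarith [Real.exp_one_lt_d9]
  have hlX : 0 < Real.log X := Real.log_pos (by linarith)
  have hρ1 : 1 ≤ ρ := by
    rw [hρ, le_div_iff₀ hlX]
    have : Real.log X ≤ Real.log N := Real.log_le_log (by linarith) (by exact_mod_cast hXN)
    nlinarith [(Nat.cast_nonneg S.card : (0 : ℝ) ≤ S.card)]
  have hDr : (23 : ℝ) ≤ D := by exact_mod_cast hD23
  have hσ : 4 ≤ √(D : ℝ) := Real.le_sqrt_of_sq_le (by linarith)
  have hs : √(N : ℝ) = √(D : ℝ) * X := by
    rw [hNe, Real.sqrt_mul (by linarith), Real.sqrt_sq (by linarith)]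
  have hss : √(N : ℝ) * √(N : ℝ) = N := Real.mul_self_sqrt (by linarith)
  have hκ2 : 2 ≤ kap D := by unfold kap; nlinarith [Real.pi_gt_three]
  have hκe : kap D * X = Real.pi * √(N : ℝ) / 6 := by rw [hs, kap]; ring
  have hXs : (X : ℝ) ≤ √(N : ℝ) := by rw [hs]; nlinarith
  have hc : 0 < 12 * √3 / (Real.pi * (D * √(D : ℝ))) := by
    have : (0 : ℝ) < D := by linarith
    positivity
  generalize √(N : ℝ) = s at *
  have hρ2 : ρ ≤ ρ ^ 2 := le_self_pow₀ hρ1 two_ne_zero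
  have hρL : ρ ^ 2 ≤ ρ ^ 2 * Real.log N := le_mul_of_one_le_right (by positivity) hL
  have hC1 : 30000 * (ρ ^ 2 * Real.log N) + 12 * C₀ ≤ s := by
    have : C₀ ≤ C₀ * (ρ ^ 2 * Real.log N) := le_mul_of_one_le_right (by linarith) (by linarith)
    linarith
  have hs0 : 30000 ≤ s := by linarith
  have hκa : s / 2 ≤ kap D * X := by
    have := mul_le_mul_of_nonneg_right Real.pi_gt_three.le (show 0 ≤ s by linarith)
    linarith
  have hκb : kap D * X ≤ 0.53 * s := by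
    have := mul_le_mul_of_nonneg_right Real.pi_lt_d2.le (show 0 ≤ s by linarith)
    linarith
  have hsX := Real.sqrt_nonneg (X : ℝ)
  have hM1 : 30000 * ρ ^ 2 + 30000 * √(X : ℝ) < V.card := by
    have : 0 ≤ C₀ * (ρ ^ 2 + √(X : ℝ)) := by positivity
    linarith
  have hs9 : 30000 * s ≤ N := hss ▸ mul_le_mul_of_nonneg_right hs0 (by linarith)
  have hX16 : 16 ≤ X := by
    have h1 : (V.card : ℝ) ≤ 7 * X := by exact_mod_cast hV7
    have h2 : (16 : ℝ) ≤ X := by linarith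
    exact_mod_cast h2
  obtain ⟨d, hd1, hd2⟩ : ∃ d : ℕ, 9 * ρ ≤ d ∧ (d : ℝ) ≤ 10 * ρ :=
    ⟨⌈9 * ρ⌉₊, Nat.le_ceil _, by linarith [Nat.ceil_lt_add_one (show 0 ≤ 9 * ρ by linarith)]⟩
  obtain ⟨B, hB1, hB2⟩ : ∃ B : ℕ, 2 * C₀ + 12 * (kap D * X) ≤ B ∧ (B : ℝ) ≤ 8 * s :=
    ⟨⌈2 * C₀ + 12 * (kap D * X)⌉₊, Nat.le_ceil _, by
      linarith [Nat.ceil_lt_add_one (show 0 ≤ 2 * C₀ + 12 * (kap D * X) by linarith)]⟩
  have hd : 1 ≤ d := by
    have : (1 : ℝ) ≤ d := by linarith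
    exact_mod_cast this
  have hd0 : (0 : ℝ) ≤ d := Nat.cast_nonneg d
  have hds : (d : ℝ) ≤ s := by linarith
  have hdd : (d : ℝ) ^ 2 ≤ 100 * ρ ^ 2 := (pow_le_pow_left₀ hd0 hd2 2).trans_eq (by ring)
  have hmem : ∀ x ∈ V, x.Prime ∧ X < x ∧ x ≤ 8 * X ∧ (pn (nx D x)).primeFactors ⊆ S := by
    intro x hx
    rw [hVdef, Finset.mem_filter, Finset.mem_Ioc] at hx
    tauto
  have hr' := fun x (hx : x ∈ V) => hr D x hD (hmem x hx).1 (by have := (hmem x hx).2.1; omega)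
  choose! e he using fun x hx => (hr' x hx).2
  have hsm := num_small N X d (kap D) C₀ (C₀ * Real.exp (-√(N : ℝ) / 6)) hN hd hC₀ (by linarith)
  have hsN : √(N : ℝ) = s := by rw [← hss, Real.sqrt_mul_self (by linarith)]
  rw [hsN] at hsm
  obtain ⟨k1, k2⟩ := hsm (by linarith)
    (by have : (8 * X : ℝ) ≤ N := by linarith
        exact_mod_cast this)
    (by have : (2 * d : ℝ) ≤ N := by linarith
        exact_mod_cast this) (by positivity) le_rfl
    (by linarith [mul_le_mul_of_nonneg_right hdd (show 0 ≤ Real.log N by linarith)]) (by linarith)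
  refine core (kap D) _ _ (by linarith) hc (by positivity) X d B hX16 hd V S (fun x => pn (nx D x)) e
    (fun x hx => ⟨(hmem x hx).1, (hmem x hx).2.1, (hmem x hx).2.2.1⟩)
    (fun x hx => ⟨(pn_pos _).ne', ?_, (hmem x hx).2.2.2⟩) (fun x hx => ⟨(he x hx).2, ?_⟩) k1 ?_
    (num_pigeon N X V.card d B S.card ρ hX hN hd hρ hd1 ?_ ?_ (by linarith)) k2
  · have h1 : (x : ℝ) ≤ 8 * X := by exact_mod_cast (hmem x hx).2.2.1
    have h2 : C₀ ≤ Real.exp C₀ := by linarith [Real.add_one_le_exp C₀]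
    have h3 : (pn (nx D x) : ℝ) ≤ 2 ^ B := by
      refine (hr' x hx).1.trans ((mul_le_mul_of_nonneg_right h2 (Real.exp_pos _).le).trans ?_)
      rw [← Real.exp_add, ← Real.exp_log two_pos, ← Real.exp_nat_mul, Real.exp_le_exp]
      have h4 := mul_le_mul_of_nonneg_left h1 (show 0 ≤ kap D by linarith)
      have h5 : (B : ℝ) * 0.69 ≤ B * Real.log 2 :=
        mul_le_mul_of_nonneg_left (by linarith [Real.log_two_gt_d9]) (Nat.cast_nonneg B)
      linarith
    exact_mod_cast h3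
  · refine (he x hx).1.trans (mul_le_mul_of_nonneg_left (Real.exp_le_exp.2 ?_) (by linarith))
    have h1 : (X : ℝ) ≤ x := by exact_mod_cast (hmem x hx).2.1.le
    have h4 := mul_le_mul_of_nonneg_left h1 (show 0 ≤ kap D by linarith)
    linarith
  · have : (200 * d ^ 2 : ℝ) ≤ V.card := by linarith
    exact_mod_cast this
  · have : (d * B : ℝ) ≤ 8 * N := by
      have := mul_le_mul hds hB2 (Nat.cast_nonneg B) (by linarith)
      linarith
    exact_mod_cast this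
  · have : (d * X : ℝ) ≤ N := by
      have := mul_le_mul hds hXs (Nat.cast_nonneg X) (by linarith)
      linarith
    exact_mod_cast this

end PNF
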