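import Mathlib

namespace PNF

open Polynomial

/-- The partition function `p(n)`. -/
def pn (n : ℕ) : ℕ := Fintype.card (Nat.Partition n)

/-- The constant `π²/6`. -/
noncomputable def aa : ℝ := Real.pi ^ 2 / 6

/-- The generating function of `p(n)` at a complex point. -/
noncomputable def PP (q : ℂ) : ℂ := ∑' n : ℕ, (pn n : ℂ) * q ^ n

/-- Inverse Laplace transform of `GG`. -/
noncomputable def gg (v : ℝ) : ℝ :=
  (2 * √(aa * v) * Real.sinh (2 * √(aa * v)) - Real.cosh (2 * √(aa * v)) + 1 - 2 * (aa * v)) /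
    (2 * √Real.pi * (v * √v))

/-- The model function with two terms removed, so that it decays like `|τ|^(-3/2)`. -/
noncomputable def GG (τ : ℂ) : ℂ := τ ^ (1 / 2 : ℂ) * (Complex.exp (aa / τ) - 1 - aa / τ)

/-- `μ(n) = π √(24 n - 1) / 6`. -/
noncomputable def mu (n : ℕ) : ℝ := Real.pi * √(24 * (n : ℝ) - 1) / 6

/-- First term of the Hardy-Ramanujan expansion. -/
noncomputable def mainTerm (n : ℕ) : ℝ :=
  12 * √3 / Real.pi * (mu n - 1) * Real.exp (mu n) / ((24 * (n : ℝ) - 1) * √(24 * (n : ℝ) - 1))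

/-- The index `n` with `24 n - 1 = D x²`. -/
def nx (D x : ℕ) : ℕ := (D * x ^ 2 + 1) / 24

/-- `κ = π √D / 6`. -/
noncomputable def kap (D : ℕ) : ℝ := Real.pi * √(D : ℝ) / 6

/-- The integer polynomial attached to a multiplicative relation. -/
noncomputable def QQ (A B : Finset ℕ) : ℤ[X] :=
  C (∏ x ∈ B, (x : ℤ) ^ 3) * ∏ x ∈ A, (C (x : ℤ) * X - 1) -
    C (∏ x ∈ A, (x : ℤ) ^ 3) * ∏ x ∈ B, (C (x : ℤ) * X - 1)

/-- `P` vanishes at `1 / y` modulo `l`. -/
def Bad (P : ℤ[X]) (y l : ℕ) : Prop :=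
  (P.map (Int.castRingHom (ZMod l))).eval ((y : ZMod l)⁻¹) = 0

theorem pn_pos (n : ℕ) : 0 < pn n := Fintype.card_pos

theorem pn_zero : pn 0 = 1 := by simp [pn]

theorem aa_pos : 0 < aa := by unfold aa; positivity

theorem aa_lt : aa < 5 / 3 := by
  unfold aa; nlinarith [Real.pi_lt_d2, Real.pi_pos]

theorem aa_gt : 3 / 2 < aa := by
  unfold aa; nlinarith [Real.pi_gt_three]

end PNF
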