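import Pool.Agent.P.MP_373cf5_nt.HR

namespace PNF

theorem nx_spec (D x : ℕ) (hD : D % 24 = 23) (hx : x.Prime) (h5 : 5 ≤ x) :
    24 * nx D x = D * x ^ 2 + 1 := by
  have h2 : ¬ 2 ∣ x := fun h => by
    have := (Nat.prime_dvd_prime_iff_eq Nat.prime_two hx).1 h
    omega
  have h3 : ¬ 3 ∣ x := fun h => by
    have := (Nat.prime_dvd_prime_iff_eq Nat.prime_three hx).1 h
    omega
  have h4 : x ^ 2 % 24 = 1 := by
    have h6 : x % 24 = 1 ∨ x % 24 = 5 ∨ x % 24 = 7 ∨ x % 24 = 11 ∨ x % 24 = 13 ∨ x % 24 = 17 ∨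
        x % 24 = 19 ∨ x % 24 = 23 := by omega
    rw [Nat.pow_mod]
    rcases h6 with h | h | h | h | h | h | h | h <;> rw [h]
  have h6 : (D * x ^ 2) % 24 = 23 := by rw [Nat.mul_mod, hD, h4]
  unfold nx
  omega

theorem hrRel_main {μ y : ℝ} (h2 : 2 ≤ μ) (h3 : μ ≤ y) (h4 : y ≤ 2 * μ) :
    Real.exp μ / (16 * μ ^ 2) ≤ 12 * √3 / Real.pi * (μ - 1) * Real.exp μ / y ^ 3 ∧
      12 * √3 / Real.pi * (μ - 1) * Real.exp μ / y ^ 3 ≤ 7 * Real.exp μ := by
  have hμ : 0 < μ := by linarith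
  have hy : 0 < y := by linarith
  have he := Real.exp_pos μ
  have s1 : (1 : ℝ) ≤ √3 := Real.one_le_sqrt.2 (by norm_num)
  have s2 : √3 ≤ 7 / 4 := Real.sqrt_le_iff.2 ⟨by norm_num, by norm_num⟩
  have c1 : (1 : ℝ) ≤ 12 * √3 / Real.pi := by
    rw [le_div_iff₀ Real.pi_pos]
    linarith [Real.pi_le_four]
  have c2 : 12 * √3 / Real.pi ≤ 7 := by
    rw [div_le_iff₀ Real.pi_pos]
    linarith [Real.pi_gt_three]
  generalize 12 * √3 / Real.pi = c at c1 c2
  constructor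
  · have h5 : y ^ 3 ≤ (2 * μ) ^ 3 := pow_le_pow_left₀ hy.le h4 3
    calc Real.exp μ / (16 * μ ^ 2) = 1 * (μ / 2) * Real.exp μ / (2 * μ) ^ 3 := by
          field_simp
          ring
      _ ≤ c * (μ - 1) * Real.exp μ / y ^ 3 := by
          have h6 : μ / 2 ≤ μ - 1 := by linarith
          have h7 : 0 ≤ μ - 1 := by linarith
          gcongr
  · rw [div_le_iff₀ (by positivity)]
    have h5 : μ - 1 ≤ y ^ 3 := by
      have h6 : y ^ 1 ≤ y ^ 3 := pow_le_pow_right₀ (by linarith) (by norm_num)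
      linarith
    have h6 : c * (μ - 1) ≤ 7 * y ^ 3 := mul_le_mul c2 h5 (by linarith) (by norm_num)
    nlinarith

theorem hr_rel : ∃ C₀ : ℝ, 1 ≤ C₀ ∧ ∀ D x : ℕ, D % 24 = 23 → x.Prime → 5 ≤ x →
    (pn (nx D x) : ℝ) ≤ C₀ * Real.exp (kap D * x) ∧
    ∃ e : ℝ, |e| ≤ C₀ * Real.exp (-(kap D * x) / 3) ∧
      (pn (nx D x) : ℝ) = 12 * √3 / (Real.pi * (D * √(D : ℝ))) *
        ((kap D * x - 1) / (x : ℝ) ^ 3) * Real.exp (kap D * x) * (1 + e) := by
  obtain ⟨C, hC, h⟩ := hardy_ramanujan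
  refine ⟨1152 * C + 7, by linarith, fun D x hD hx h5 => ?_⟩
  have h1 := nx_spec D x hD hx h5
  have h2 := h (nx D x) (by omega)
  have h3 : 24 * (nx D x : ℝ) - 1 = D * (x : ℝ) ^ 2 := by
    have : (24 * (nx D x : ℝ)) = D * (x : ℝ) ^ 2 + 1 := by exact_mod_cast h1
    linarith
  have hx5 : (5 : ℝ) ≤ x := by exact_mod_cast h5
  have hD1 : (1 : ℝ) ≤ D := by exact_mod_cast (show 1 ≤ D by omega)
  have hs : (1 : ℝ) ≤ √(D : ℝ) := Real.one_le_sqrt.2 hD1
  have hss : √(D : ℝ) * √(D : ℝ) = D := Real.mul_self_sqrt (by linarith)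
  have h4 : √(D * (x : ℝ) ^ 2) = √(D : ℝ) * x := by
    rw [Real.sqrt_mul (by linarith), Real.sqrt_sq (by linarith)]
  have hmu : mu (nx D x) = kap D * x := by
    unfold mu kap
    rw [h3, h4]
    ring
  have hy : (5 : ℝ) ≤ √(D : ℝ) * x := by nlinarith
  have hk : kap D * x = Real.pi * (√(D : ℝ) * x) / 6 := by
    unfold kap
    ring
  have hm : mainTerm (nx D x) =
      12 * √3 / Real.pi * (kap D * x - 1) * Real.exp (kap D * x) / (√(D : ℝ) * x) ^ 3 := by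
    unfold mainTerm
    rw [hmu, h3, h4]
    congr 1
    linear_combination (-(√(D : ℝ)) * (x : ℝ) ^ 3) * hss
  have hm' : mainTerm (nx D x) = 12 * √3 / (Real.pi * (D * √(D : ℝ))) *
      ((kap D * x - 1) / (x : ℝ) ^ 3) * Real.exp (kap D * x) := by
    rw [hm, show (√(D : ℝ) * x) ^ 3 = D * √(D : ℝ) * (x : ℝ) ^ 3 by
      linear_combination (√(D : ℝ) * (x : ℝ) ^ 3) * hss]
    have := Real.pi_pos
    field_simp
  have hp3 := Real.pi_gt_three
  have hp4 := Real.pi_le_four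
  have hμ2 : 2 ≤ kap D * x := by rw [hk]; nlinarith
  obtain ⟨b1, b2⟩ := hrRel_main (μ := kap D * x) (y := √(D : ℝ) * x) hμ2
    (by rw [hk]; nlinarith) (by rw [hk]; nlinarith)
  rw [← hm] at b1 b2
  rw [← hm']
  rw [hmu] at h2
  generalize kap D * x = μ at *
  generalize mainTerm (nx D x) = m at *
  generalize (pn (nx D x) : ℝ) = p at *
  have hμ : 0 < μ := by linarith
  have hm0 : 0 < m := lt_of_lt_of_le (by positivity) b1
  have e1 : Real.exp (μ / 2) ≤ Real.exp μ := Real.exp_le_exp.2 (by linarith)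
  refine ⟨?_, (p - m) / m, ?_, by field_simp; ring⟩
  · have := (abs_le.1 h2).2
    nlinarith [Real.exp_pos μ]
  · rw [abs_div, abs_of_pos hm0]
    have e2 : μ ^ 2 ≤ 72 * Real.exp (μ / 6) := by
      have := Real.quadratic_le_exp_of_nonneg (show 0 ≤ μ / 6 by linarith)
      nlinarith
    have e3 : Real.exp (μ / 2) * Real.exp (μ / 6) = Real.exp (-μ / 3) * Real.exp μ := by
      rw [← Real.exp_add, ← Real.exp_add]
      congr 1
      ring
    calc |p - m| / m ≤ C * Real.exp (μ / 2) / (Real.exp μ / (16 * μ ^ 2)) := by gcongr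
      _ = 16 * C * Real.exp (μ / 2) * μ ^ 2 / Real.exp μ := by field_simp
      _ ≤ 16 * C * Real.exp (μ / 2) * (72 * Real.exp (μ / 6)) / Real.exp μ := by gcongr
      _ = 1152 * C * (Real.exp (μ / 2) * Real.exp (μ / 6)) / Real.exp μ := by ring
      _ = 1152 * C * Real.exp (-μ / 3) := by rw [e3]; field_simp
      _ ≤ _ := by nlinarith [Real.exp_pos (-μ / 3)]

end PNF
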