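import Pool.Agent.P.MP_373cf5_nt.BigPrimes
import Pool.Agent.P.MP_373cf5_nt.HRrel

namespace PNF

open Classical

/-- Double counting of the pairs `(D, x)`. -/
theorem dens_comb (N X J : ℕ) (hX : 4 ≤ X) (hJ : (24 * N : ℝ) ≤ (X : ℝ) ^ J) (𝒟 : Finset ℕ)
    (h𝒟 : ∀ D ∈ 𝒟, D % 24 = 23 ∧ 4 * D * X ^ 2 ≤ N) (G : ℕ → Prop) (m : ℝ)
    (hm : ∀ D ∈ 𝒟, m ≤ (((Finset.Ioc X (8 * X)).filter fun x => x.Prime ∧ G (nx D x)).card : ℝ)) :
    𝒟.card * m ≤ J * (((Finset.Icc 1 N).filter G).card : ℝ) := by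
  set T : Finset (Σ _ : ℕ, ℕ) :=
    𝒟.sigma fun D => (Finset.Ioc X (8 * X)).filter fun x => x.Prime ∧ G (nx D x) with hT
  have h1 : 𝒟.card * m ≤ (T.card : ℝ) := by
    rw [hT, Finset.card_sigma]
    push_cast
    rw [← nsmul_eq_mul]
    exact Finset.card_nsmul_le_sum _ _ _ hm
  have hmem : ∀ a ∈ T, a.1 % 24 = 23 ∧ 4 * a.1 * X ^ 2 ≤ N ∧ X < a.2 ∧ a.2 ≤ 8 * X ∧ a.2.Prime ∧
      G (nx a.1 a.2) ∧ 24 * nx a.1 a.2 = a.1 * a.2 ^ 2 + 1 := by
    intro a ha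
    rw [hT, Finset.mem_sigma, Finset.mem_filter, Finset.mem_Ioc] at ha
    obtain ⟨a1, ⟨a2, a3⟩, a4, a5⟩ := ha
    exact ⟨(h𝒟 _ a1).1, (h𝒟 _ a1).2, a2, a3, a4, a5, nx_spec _ _ (h𝒟 _ a1).1 a4 (by omega)⟩
  have h2 : T.card ≤ J * ((Finset.Icc 1 N).filter G).card := by
    apply Finset.card_le_mul_card_image_of_maps_to (f := fun a => nx a.1 a.2)
    · intro a ha
      obtain ⟨a1, a2, a3, a4, a5, a6, a7⟩ := hmem a ha
      rw [Finset.mem_filter, Finset.mem_Icc]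
      have b1 : a.2 ^ 2 ≤ 64 * X ^ 2 := by nlinarith
      have b2 : a.1 * a.2 ^ 2 ≤ a.1 * (64 * X ^ 2) := Nat.mul_le_mul_left _ b1
      have b3 : a.1 * (64 * X ^ 2) = 16 * (4 * a.1 * X ^ 2) := by ring
      have b4 : 0 < 4 * a.1 * X ^ 2 := by
        have : 0 < a.1 := by omega
        have : 0 < X := by omega
        positivity
      refine ⟨⟨by omega, by omega⟩, a6⟩
    · intro n hn
      rw [Finset.mem_filter, Finset.mem_Icc] at hn
      have hinj : Set.InjOn (fun a : (Σ _ : ℕ, ℕ) => a.2)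
          ((T.filter fun a => nx a.1 a.2 = n : Finset (Σ _ : ℕ, ℕ)) : Set (Σ _ : ℕ, ℕ)) := by
        intro a ha b hb hab
        rw [Finset.mem_coe, Finset.mem_filter] at ha hb
        obtain ⟨-, -, a3, -, -, -, a7⟩ := hmem a ha.1
        obtain ⟨-, -, -, -, -, -, b7⟩ := hmem b hb.1
        have hab' : a.2 = b.2 := hab
        rw [ha.2] at a7
        rw [hb.2, ← hab'] at b7
        have hpos : 0 < a.2 ^ 2 := by
          have : 0 < a.2 := by omega
          positivity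
        have : a.1 = b.1 := Nat.eq_of_mul_eq_mul_right hpos (by omega)
        exact Sigma.ext this (heq_of_eq hab')
      rw [← Finset.card_image_of_injOn hinj]
      apply card_big_primes (24 * (n : ℤ) - 1) (by omega) X J (by omega)
      · have n1 : (1 : ℝ) ≤ n := by exact_mod_cast hn.1.1
        have n2 : (n : ℝ) ≤ N := by exact_mod_cast hn.1.2
        push_cast
        rw [abs_of_nonneg (by linarith)]
        linarith
      · intro l hl
        obtain ⟨a, ha, rfl⟩ := Finset.mem_image.mp hl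
        rw [Finset.mem_filter] at ha
        obtain ⟨-, -, a3, -, a5, -, a7⟩ := hmem a ha.1
        refine ⟨a5, a3, ⟨a.1 * a.2, ?_⟩⟩
        rw [ha.2] at a7
        have : (24 * (n : ℤ)) = a.1 * (a.2 : ℤ) ^ 2 + 1 := by exact_mod_cast a7
        rw [this]; ring
  refine h1.trans ?_
  exact_mod_cast h2

/-- Many admissible `D`. -/
theorem exists_Ds (N X : ℕ) (hX : 1 ≤ X) (h : 800 * X ^ 2 ≤ N) :
    ∃ 𝒟 : Finset ℕ, (∀ D ∈ 𝒟, D % 24 = 23 ∧ 4 * D * X ^ 2 ≤ N ∧ N ≤ 16 * D * X ^ 2) ∧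
      (N : ℝ) / (400 * (X : ℝ) ^ 2) ≤ 𝒟.card := by
  have hX2 : 0 < X ^ 2 := by positivity
  set q := N / X ^ 2 with hq
  have hq1 : 800 ≤ q := (Nat.le_div_iff_mul_le hX2).mpr h
  have hq2 : q * X ^ 2 ≤ N := Nat.div_mul_le_self _ _
  have hq3 : N < (q + 1) * X ^ 2 := by
    have := Nat.lt_div_mul_add (a := N) hX2
    rw [add_mul, one_mul]; exact this
  refine ⟨(Finset.Ico (q / 384 + 1) (q / 96)).image fun j => 24 * j + 23, ?_, ?_⟩
  · intro D hD
    obtain ⟨j, hj, rfl⟩ := Finset.mem_image.mp hD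
    rw [Finset.mem_Ico] at hj
    refine ⟨by omega, ?_, ?_⟩
    · exact (Nat.mul_le_mul_right _ (by omega)).trans hq2
    · exact hq3.le.trans (Nat.mul_le_mul_right _ (by omega))
  · rw [Finset.card_image_of_injective _ (fun a b hab => by simpa using hab), Nat.card_Ico]
    have h1 : q + 1 ≤ 400 * (q / 96 - (q / 384 + 1)) := by omega
    have h2 : N ≤ (q / 96 - (q / 384 + 1)) * (400 * X ^ 2) := by
      calc N ≤ (q + 1) * X ^ 2 := hq3.le
        _ ≤ 400 * (q / 96 - (q / 384 + 1)) * X ^ 2 := Nat.mul_le_mul_right _ h1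
        _ = _ := by ring
    rw [div_le_iff₀ (by positivity)]
    exact_mod_cast h2

end PNF
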