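import Pool.Agent.P.MP_373cf5_nt.Primes

namespace PNF

open Filter

theorem densNum_log_le (a b : ℝ) (ha : 0 < a) (hb : 0 < b) :
    ∀ᶠ x : ℝ in atTop, Real.log x ≤ b * x ^ a := by
  have h := (isLittleO_log_rpow_atTop ha).bound hb
  filter_upwards [h, eventually_ge_atTop (1 : ℝ)] with x hx hx1
  rw [Real.norm_eq_abs, Real.norm_eq_abs, abs_of_nonneg (Real.log_nonneg hx1),
    abs_of_nonneg (by positivity)] at hx
  exact hx

theorem densNum_sqrt (C : ℝ) (hC : 0 < C) :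
    ∀ᶠ X : ℕ in atTop, C * √(X : ℝ) ≤ (X : ℝ) / Real.log X / 4 := by
  have h := tendsto_natCast_atTop_atTop.eventually
    (densNum_log_le (1 / 2) (1 / (4 * C)) (by norm_num) (by positivity))
  filter_upwards [h, eventually_ge_atTop 2] with X hX hX2
  have hX' : (2 : ℝ) ≤ X := by exact_mod_cast hX2
  have hl : 0 < Real.log X := Real.log_pos (by linarith)
  rw [← Real.sqrt_eq_rpow] at hX
  have hs : 0 < √(X : ℝ) := Real.sqrt_pos.mpr (by linarith)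
  have hss : √(X : ℝ) * √(X : ℝ) = X := Real.mul_self_sqrt (by linarith)
  rw [le_div_iff₀ (by norm_num), le_div_iff₀ hl]
  calc C * √(X : ℝ) * 4 * Real.log X ≤ C * √(X : ℝ) * 4 * (1 / (4 * C) * √(X : ℝ)) := by gcongr
    _ = √(X : ℝ) * √(X : ℝ) := by field_simp
    _ = X := hss

/-- Choice of `X` for the density theorem. -/
theorem dens_num (θ C : ℝ) (h0 : 0 < θ) (hC : 0 < C) :
    ∃ c₀ : ℝ, 0 < c₀ ∧ ∃ A : ℝ, 0 < A ∧ ∃ J : ℕ, 0 < J ∧ ∀ᶠ N : ℕ in Filter.atTop, ∀ y : ℝ,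
      (N : ℝ) ^ θ ≤ y → y ≤ c₀ * (N : ℝ) ^ (1 / 4 : ℝ) * √(Real.log N) → ∃ X : ℕ, 4 ≤ X ∧
      800 * X ^ 2 ≤ N ∧ (24 * N : ℝ) ≤ (X : ℝ) ^ J ∧
      (X : ℝ) * Real.log X ≤ A * y ^ 2 ∧
      (X : ℝ) / Real.log X ≤ (((Finset.Ioc X (8 * X)).filter Nat.Prime).card : ℝ) ∧
      ∀ N' : ℕ, N ≤ 16 * N' → 1 ≤ N' → N' ≤ N → ∀ ρ : ℝ,
        ρ = ((((Finset.range (⌊y⌋₊ + 1)).filter Nat.Prime).card : ℝ) + 1) *
          Real.log N' / Real.log X →
        C * ρ ^ 2 * Real.log N' ≤ √(N' : ℝ) ∧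
        C * (ρ ^ 2 + √(X : ℝ)) ≤ (X : ℝ) / Real.log X / 2 := by
  set A₀ : ℝ := 36 * C / θ ^ 4 with hA₀
  have hA : 0 < A₀ := by positivity
  refine ⟨1 / √(60 * A₀), by positivity, 2 * A₀, by positivity, ⌈2 / θ⌉₊,
    Nat.ceil_pos.mpr (by positivity), ?_⟩
  obtain ⟨X₀, hX₀⟩ := eventually_atTop.mp (primes_Ioc.and (densNum_sqrt C hC))
  obtain ⟨y₀, hy₀⟩ := eventually_atTop.mp primes_le
  have ty : Tendsto (fun N : ℕ => (N : ℝ) ^ θ) atTop atTop :=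
    (tendsto_rpow_atTop h0).comp tendsto_natCast_atTop_atTop
  have e1 := tendsto_natCast_atTop_atTop.eventually (densNum_log_le θ A₀ h0 hA)
  filter_upwards [e1, ty.eventually_ge_atTop y₀, ty.eventually_ge_atTop (X₀ + 4 : ℝ),
    eventually_ge_atTop 24] with N f1 f2' f3 f5 y hy hyu
  have f2 := hy₀ y (f2'.trans hy)
  set L : ℝ := Real.log N with hL
  have hN : (24 : ℝ) ≤ N := by exact_mod_cast f5
  have hN0 : (0 : ℝ) < N := by linarith
  have hX₀0 : (0 : ℝ) ≤ X₀ := Nat.cast_nonneg _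
  have hy4 : 4 ≤ y := by linarith
  have hy0 : 0 < y := by linarith
  have hL0 : 0 < L := Real.log_pos (by linarith)
  have hlogy : θ * L ≤ Real.log y := by
    rw [hL, ← Real.log_rpow hN0]
    exact Real.log_le_log (by positivity) hy
  have hsq : ((N : ℝ) ^ (1 / 4 : ℝ)) ^ 2 = √(N : ℝ) := by
    rw [← Real.rpow_natCast, ← Real.rpow_mul hN0.le, Real.sqrt_eq_rpow]; norm_num
  have hy2s : y ^ 2 ≤ √(N : ℝ) * L / (60 * A₀) := by
    calc y ^ 2 ≤ (1 / √(60 * A₀) * (N : ℝ) ^ (1 / 4 : ℝ) * √L) ^ 2 := by gcongr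
      _ = √(N : ℝ) * L / (60 * A₀) := by
        rw [mul_pow, mul_pow, div_pow, hsq, Real.sq_sqrt hL0.le, Real.sq_sqrt (by positivity)]
        ring
  have hsN : √(N : ℝ) * √(N : ℝ) = N := Real.mul_self_sqrt hN0.le
  have f1' : L ≤ A₀ * y := f1.trans (mul_le_mul_of_nonneg_left hy hA.le)
  set z : ℝ := A₀ * y ^ 2 / L with hz
  have hzy : y ≤ z := by
    rw [hz, le_div_iff₀ hL0]; nlinarith
  set X : ℕ := ⌈z⌉₊ with hX
  have hzX : z ≤ X := Nat.le_ceil z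
  have hX2z : (X : ℝ) ≤ 2 * z := by
    have := Nat.ceil_lt_add_one (show 0 ≤ z by linarith)
    linarith
  have hyX : y ≤ X := hzy.trans hzX
  have hX4 : (4 : ℝ) ≤ X := by linarith
  have hXX₀ : X₀ ≤ X := by
    have : (X₀ : ℝ) ≤ X := by linarith
    exact_mod_cast this
  obtain ⟨g1, g2⟩ := hX₀ X hXX₀
  have hzs : z ≤ √(N : ℝ) / 60 := by
    calc z ≤ A₀ * (√(N : ℝ) * L / (60 * A₀)) / L := by rw [hz]; gcongr
      _ = √(N : ℝ) / 60 := by field_simp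
  have h800 : (800 * (X : ℝ) ^ 2) ≤ N := by
    have hX0 : (0 : ℝ) ≤ X := Nat.cast_nonneg _
    have : (X : ℝ) ≤ √(N : ℝ) / 30 := by linarith
    nlinarith
  have hXN : (X : ℝ) ≤ N := by nlinarith
  have hlX : Real.log X ≤ L := Real.log_le_log (by linarith) hXN
  have hlX0 : 0 < Real.log X := Real.log_pos (by linarith)
  have hlX1 : θ * L ≤ Real.log X := hlogy.trans (Real.log_le_log hy0 hyX)
  refine ⟨X, by exact_mod_cast hX4, by exact_mod_cast h800, ?_, ?_, g1, ?_⟩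
  · have a1 : ((N : ℝ) ^ θ) ^ ⌈2 / θ⌉₊ ≤ (X : ℝ) ^ ⌈2 / θ⌉₊ :=
      pow_le_pow_left₀ (by positivity) (hy.trans hyX) _
    have a2 : (N : ℝ) ^ (2 : ℝ) ≤ ((N : ℝ) ^ θ) ^ ⌈2 / θ⌉₊ := by
      rw [← Real.rpow_natCast, ← Real.rpow_mul hN0.le]
      apply Real.rpow_le_rpow_of_exponent_le (by linarith)
      have := Nat.le_ceil (2 / θ)
      rw [div_le_iff₀ h0] at this
      linarith
    rw [Real.rpow_two] at a2
    nlinarith
  · calc (X : ℝ) * Real.log X ≤ (2 * z) * L := by gcongr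
      _ = 2 * A₀ * y ^ 2 := by rw [hz]; field_simp
  · intro N' b1 b2 b3 ρ hρ
    have b1' : (N : ℝ) ≤ 16 * N' := by exact_mod_cast b1
    have b2' : (1 : ℝ) ≤ N' := by exact_mod_cast b2
    have b3' : (N' : ℝ) ≤ N := by exact_mod_cast b3
    have c0 : 0 ≤ Real.log N' := Real.log_nonneg b2'
    have c1 : Real.log N' ≤ L := Real.log_le_log (by linarith) b3'
    have f2'' : 3 * y / Real.log y ≤ 3 * y / (θ * L) :=
      div_le_div_of_nonneg_left (by linarith) (by positivity) hlogy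
    replace f2 := f2.trans f2''
    have hρ0 : 0 ≤ ρ := by rw [hρ]; positivity
    have hρ1 : ρ ≤ 3 * y / (θ ^ 2 * L) := by
      rw [hρ]
      calc _ ≤ (3 * y / (θ * L)) * L / (θ * L) := by gcongr
        _ = 3 * y / (θ ^ 2 * L) := by field_simp
    have hρ2 : C * ρ ^ 2 ≤ z / (4 * L) := by
      calc C * ρ ^ 2 ≤ C * (3 * y / (θ ^ 2 * L)) ^ 2 := by gcongr
        _ = z / (4 * L) := by rw [hz, hA₀]; field_simp; ring
    constructor
    · have d1 : √(N : ℝ) ≤ 4 * √(N' : ℝ) := by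
        calc √(N : ℝ) ≤ √(16 * (N' : ℝ)) := Real.sqrt_le_sqrt b1'
          _ = 4 * √(N' : ℝ) := by
            rw [Real.sqrt_mul (by norm_num), show (16 : ℝ) = 4 ^ 2 by norm_num,
              Real.sqrt_sq (by norm_num)]
      have d2 : C * ρ ^ 2 * Real.log N' ≤ z / (4 * L) * L := by gcongr
      have d3 : z / (4 * L) * L = z / 4 := by field_simp
      have d4 : 0 ≤ √(N' : ℝ) := Real.sqrt_nonneg _
      linarith
    · have d1 : z / (4 * L) ≤ (X : ℝ) / Real.log X / 4 := by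
        rw [div_div (X : ℝ), mul_comm (Real.log X)]
        gcongr
      linarith

end PNF
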