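import Pool.Agent.P.MP_373cf5_nt.Count
import Pool.Agent.P.MP_373cf5_nt.DensComb
import Pool.Agent.P.MP_373cf5_nt.DensNum

namespace PNF

open Classical

theorem density (θ : ℝ) (h0 : 0 < θ) :
    ∃ c : ℝ, 0 < c ∧ ∀ᶠ N : ℕ in Filter.atTop, ∀ y : ℝ, (N : ℝ) ^ θ ≤ y →
      y ≤ c * (N : ℝ) ^ (1 / 4 : ℝ) * √(Real.log N) →
      c * (N : ℝ) / y ^ 2 ≤ (((Finset.Icc 1 N).filter
        fun n => ∃ l : ℕ, l.Prime ∧ l ∣ pn n ∧ y < l).card : ℝ) := by
  obtain ⟨C, hC, hcount⟩ := count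
  obtain ⟨c₀, hc₀, A, hA, J, hJ, hev⟩ := dens_num θ C h0 hC
  have hJ' : (0 : ℝ) < J := by exact_mod_cast hJ
  refine ⟨min c₀ (1 / (800 * A * J)), lt_min hc₀ (by positivity), ?_⟩
  filter_upwards [hev] with N hN y hy1 hy2
  obtain ⟨X, hX4, hXN, hXJ, hXA, hprimes, hρ⟩ := hN y hy1
    (hy2.trans (by gcongr; exact min_le_left _ _))
  obtain ⟨𝒟, h𝒟, hcard⟩ := exists_Ds N X (by omega) hXN
  set S := (Finset.range (⌊y⌋₊ + 1)).filter Nat.Prime with hS
  set G : ℕ → Prop := fun n => ∃ l : ℕ, l.Prime ∧ l ∣ pn n ∧ y < l with hG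
  have hX' : (4 : ℝ) ≤ X := by exact_mod_cast hX4
  have hlog : 0 < Real.log X := Real.log_pos (by linarith)
  have hX2 : 0 < X ^ 2 := by positivity
  have hN0 : (0 : ℝ) < N := by
    have : 0 < N := by omega
    exact_mod_cast this
  have hm : ∀ D ∈ 𝒟, (X : ℝ) / Real.log X / 2 ≤
      (((Finset.Ioc X (8 * X)).filter fun x => x.Prime ∧ G (nx D x)).card : ℝ) := by
    intro D hD
    obtain ⟨hD1, hD2, hD3⟩ := h𝒟 D hD
    have hD0 : 0 < D := by omega
    have hDX : 0 < D * X ^ 2 := by positivity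
    obtain ⟨r1, r2⟩ := hρ (D * X ^ 2) (by rw [← mul_assoc]; exact hD3) hDX
      (by rw [mul_assoc] at hD2; omega) _ rfl
    have r3 := hcount D X hD1 (by omega) S _ rfl r1
    have hsub : (Finset.Ioc X (8 * X)).filter Nat.Prime ⊆
        ((Finset.Ioc X (8 * X)).filter fun x => x.Prime ∧ G (nx D x)) ∪
        ((Finset.Ioc X (8 * X)).filter
          fun x => x.Prime ∧ (pn (nx D x)).primeFactors ⊆ S) := by
      intro x hx
      rw [Finset.mem_filter] at hx
      rw [Finset.mem_union, Finset.mem_filter, Finset.mem_filter]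
      by_cases hg : G (nx D x)
      · exact Or.inl ⟨hx.1, hx.2, hg⟩
      · refine Or.inr ⟨hx.1, hx.2, fun l hl => ?_⟩
        have hlp := Nat.prime_of_mem_primeFactors hl
        have hld := Nat.dvd_of_mem_primeFactors hl
        rw [hS, Finset.mem_filter, Finset.mem_range]
        refine ⟨Nat.lt_succ_of_le (Nat.le_floor ?_), hlp⟩
        by_contra hlt
        exact hg ⟨l, hlp, hld, not_le.mp hlt⟩
    have h5 := (Finset.card_le_card hsub).trans (Finset.card_union_le _ _)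
    have h6 : ((((Finset.Ioc X (8 * X)).filter Nat.Prime).card : ℕ) : ℝ) ≤
        (((Finset.Ioc X (8 * X)).filter fun x => x.Prime ∧ G (nx D x)).card : ℝ) +
        (((Finset.Ioc X (8 * X)).filter
          fun x => x.Prime ∧ (pn (nx D x)).primeFactors ⊆ S).card : ℝ) := by
      exact_mod_cast h5
    linarith
  have hcomb := dens_comb N X J hX4 hXJ 𝒟 (fun D hD => ⟨(h𝒟 D hD).1, (h𝒟 D hD).2.1⟩) G _
    (fun D hD => by convert hm D hD)
  have hp0 : 0 < y := (Real.rpow_pos_of_pos hN0 _).trans_le hy1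
  have h7 : (N : ℝ) / (800 * A * y ^ 2) ≤
      (N : ℝ) / (400 * (X : ℝ) ^ 2) * ((X : ℝ) / Real.log X / 2) := by
    have : (N : ℝ) / (400 * (X : ℝ) ^ 2) * ((X : ℝ) / Real.log X / 2) =
        N / (800 * (X * Real.log X)) := by
      field_simp
      ring
    rw [this]
    apply div_le_div_of_nonneg_left hN0.le (by positivity)
    linarith
  have h8 : (N : ℝ) / (400 * (X : ℝ) ^ 2) * ((X : ℝ) / Real.log X / 2) ≤
      𝒟.card * ((X : ℝ) / Real.log X / 2) :=
    mul_le_mul_of_nonneg_right hcard (by positivity)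
  have h9 : 1 / (800 * A * J) * (N : ℝ) / y ^ 2 = (N : ℝ) / (800 * A * y ^ 2) / J := by
    field_simp
  have h10 : min c₀ (1 / (800 * A * J)) * (N : ℝ) / y ^ 2 ≤ 1 / (800 * A * J) * (N : ℝ) / y ^ 2 := by
    gcongr; exact min_le_right _ _
  refine h10.trans ?_
  rw [h9, div_le_iff₀ hJ', mul_comm _ (J : ℝ)]
  refine h7.trans (h8.trans ?_)
  convert hcomb

end PNF
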