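import Pool.Agent.P.MP_373cf5_nt.GenFun

namespace PNF

open Complex

theorem eta_branch (τ : ℂ) (hτ : 0 < τ.re) :
    (Complex.sqrt I)⁻¹ * Complex.sqrt (I * τ / (2 * Real.pi)) =
      ((√(2 * Real.pi) : ℝ) : ℂ)⁻¹ * τ ^ (1 / 2 : ℂ) := by
  have hτ0 : τ ≠ 0 := fun h => by simp [h] at hτ
  have hpi : (0 : ℝ) < 2 * Real.pi := by positivity
  have harg := abs_lt.1 (Complex.abs_arg_lt_pi_div_two_iff.2 (Or.inl hτ))
  have hlog : Complex.log (I * τ) = Complex.log I + Complex.log τ := by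
    rw [Complex.log_mul_eq_add_log_iff I_ne_zero hτ0, arg_I]
    constructor <;> linarith [harg.1, harg.2, Real.pi_pos]
  have e : I * τ / (2 * Real.pi) = (((2 * Real.pi)⁻¹ : ℝ) : ℂ) * (I * τ) := by
    push_cast; ring
  have h1 : ((√(2 * Real.pi) : ℝ) : ℂ)⁻¹ = cexp ((Real.log ((2 * Real.pi)⁻¹) : ℂ) * 2⁻¹) := by
    have : Real.exp (Real.log ((2 * Real.pi)⁻¹) * 2⁻¹) = (√(2 * Real.pi))⁻¹ := by
      rw [← Real.rpow_def_of_pos (inv_pos.2 hpi), Real.inv_rpow hpi.le, Real.sqrt_eq_rpow, one_div]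
    rw [← ofReal_inv, ← this]; push_cast; rfl
  rw [e, Complex.sqrt, Complex.sqrt, cpow_def_of_ne_zero I_ne_zero,
    cpow_def_of_ne_zero (mul_ne_zero (ofReal_ne_zero.2 (inv_pos.2 hpi).ne')
      (mul_ne_zero I_ne_zero hτ0)), log_ofReal_mul (inv_pos.2 hpi) (mul_ne_zero I_ne_zero hτ0),
    hlog, cpow_def_of_ne_zero hτ0, h1, ← Complex.exp_neg, ← Complex.exp_add, ← Complex.exp_add]
  congr 1; ring

/-- Transformation formula of the partition generating function. -/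
theorem PP_transform (τ : ℂ) (hτ : 0 < τ.re) :
    PP (cexp (-τ)) = ((√(2 * Real.pi) : ℝ) : ℂ)⁻¹ * τ ^ (1 / 2 : ℂ) * cexp (-τ / 24 + aa / τ) *
      PP (cexp (-(4 * Real.pi ^ 2 / τ))) := by
  have hτ0 : τ ≠ 0 := fun h => by simp [h] at hτ
  have hpi : (Real.pi : ℂ) ≠ 0 := ofReal_ne_zero.2 Real.pi_ne_zero
  have hz : I * τ / (2 * Real.pi) ∈ UpperHalfPlane.upperHalfPlaneSet := by
    have e : I * τ / (2 * Real.pi) = (((2 * Real.pi)⁻¹ : ℝ) : ℂ) * (I * τ) := by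
      push_cast; ring
    show 0 < (I * τ / (2 * Real.pi)).im
    rw [e, im_ofReal_mul]
    have : (I * τ).im = τ.re := by simp
    rw [this]; positivity
  have h := ModularForm.eta_comp_eq_csqrt_I_inv hz
  simp only [Function.comp, Pi.smul_apply, Pi.mul_apply, smul_eq_mul, ModularForm.eta,
    ModularForm.eta_q_eq_pow, Function.Periodic.qParam] at h
  have e1 : 2 * (Real.pi : ℂ) * I * (I * τ / (2 * Real.pi)) = -τ := by
    field_simp; rw [I_sq]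
  have e2 : 2 * (Real.pi : ℂ) * I * (-1 / (I * τ / (2 * Real.pi))) = -(4 * Real.pi ^ 2 / τ) := by
    field_simp; ring
  rw [e1, e2, ← mul_assoc, eta_branch τ hτ] at h
  have h1 := PP_mul (cexp (-τ)) (by rw [norm_exp, Real.exp_lt_one_iff]; simpa using hτ)
  have h2 := PP_mul (cexp (-(4 * Real.pi ^ 2 / τ))) (by
    rw [norm_exp, Real.exp_lt_one_iff]
    have e : (4 * Real.pi ^ 2 / τ : ℂ) = ((4 * Real.pi ^ 2 : ℝ) : ℂ) * τ⁻¹ := by push_cast; ring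
    rw [neg_re, e, re_ofReal_mul, inv_re, neg_lt_zero]
    have := normSq_pos.2 hτ0
    positivity)
  have e3 : cexp (-τ / 24 + aa / τ) * cexp (-(4 * Real.pi ^ 2 / τ) / ((24 : ℝ) : ℂ)) =
      cexp (-τ / ((24 : ℝ) : ℂ)) := by
    rw [← Complex.exp_add]; congr 1
    simp only [aa]; push_cast; field_simp; ring
  have h3 := exp_ne_zero (-(4 * Real.pi ^ 2 / τ) / ((24 : ℝ) : ℂ))
  apply mul_left_cancel₀ h3
  rw [← e3] at h
  linear_combination (PP (cexp (-τ)) * PP (cexp (-(4 * Real.pi ^ 2 / τ)))) * h -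
    cexp (-(4 * Real.pi ^ 2 / τ) / ((24 : ℝ) : ℂ)) * PP (cexp (-τ)) * h2 +
    ((√(2 * Real.pi) : ℝ) : ℂ)⁻¹ * τ ^ (1 / 2 : ℂ) * cexp (-τ / 24 + aa / τ) *
      cexp (-(4 * Real.pi ^ 2 / τ) / ((24 : ℝ) : ℂ)) * PP (cexp (-(4 * Real.pi ^ 2 / τ))) * h1

end PNF
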