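import Pool.Agent.P.MP_373cf5_nt.Defs

namespace PNF

open Complex MeasureTheory Set

theorem ggb_ne (t θ : ℝ) (ht : 0 < t) : (t : ℂ) + θ * I ≠ 0 := fun h => by
  have := congrArg Complex.re h
  simp at this
  exact ht.ne' this

theorem ggb_norm (τ : ℂ) : ‖τ ^ (1 / 2 : ℂ)‖ = √‖τ‖ := by
  rw [show (1 / 2 : ℂ) = ((1 / 2 : ℝ) : ℂ) by push_cast; rfl, Complex.norm_cpow_real,
    Real.sqrt_eq_rpow]

theorem continuous_GG (t : ℝ) (ht : 0 < t) : Continuous fun θ : ℝ => GG (t + θ * I) := by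
  have h1 : Continuous fun θ : ℝ => (t : ℂ) + θ * I := by fun_prop
  have h2 : Continuous fun θ : ℝ => (aa : ℂ) / ((t : ℂ) + θ * I) :=
    continuous_const.div h1 fun θ => ggb_ne t θ ht
  unfold GG
  exact (h1.cpow continuous_const fun θ => Or.inl (by simpa using ht)).mul
    ((h2.cexp.sub continuous_const).sub h2)

theorem norm_GG_le (t θ : ℝ) (ht : 0 < t) (hθ : Real.pi ≤ |θ|) :
    ‖GG (t + θ * I)‖ ≤ 8 * (1 + ‖θ‖) ^ (-(3 / 2) : ℝ) := by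
  have hR : |θ| ≤ ‖(t : ℂ) + θ * I‖ := by simpa using abs_im_le_norm ((t : ℂ) + θ * I)
  have h3 := Real.pi_gt_three
  have a1 := aa_pos
  have a2 := aa_lt
  have hn : ‖(aa : ℂ) / ((t : ℂ) + θ * I)‖ = aa / ‖(t : ℂ) + θ * I‖ := by
    rw [norm_div, Complex.norm_real, Real.norm_of_nonneg a1.le]
  have h1 := Complex.norm_exp_sub_one_sub_id_le (x := (aa : ℂ) / ((t : ℂ) + θ * I))
    (by rw [hn, div_le_one (by linarith)]; linarith)
  unfold GG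
  rw [norm_mul, ggb_norm]
  rw [hn] at h1
  refine (mul_le_mul_of_nonneg_left h1 (Real.sqrt_nonneg _)).trans ?_
  generalize ‖(t : ℂ) + θ * I‖ = R at hR
  obtain ⟨ρ, hρ, rfl⟩ : ∃ ρ : ℝ, 0 < ρ ∧ R = ρ ^ 2 :=
    ⟨√R, Real.sqrt_pos.2 (by linarith), (Real.sq_sqrt (by linarith)).symm⟩
  obtain ⟨s, hs, e⟩ : ∃ s : ℝ, 0 < s ∧ 1 + ‖θ‖ = s ^ 2 :=
    ⟨√(1 + ‖θ‖), Real.sqrt_pos.2 (by positivity), (Real.sq_sqrt (by positivity)).symm⟩
  have e2 : (s ^ 2) ^ (-(3 / 2) : ℝ) = (s ^ 3)⁻¹ := by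
    rw [← Real.rpow_natCast, ← Real.rpow_mul hs.le, ← Real.rpow_natCast, ← Real.rpow_neg hs.le]
    norm_num
  have h4 : s ≤ 4 / 3 * ρ := by
    refine (pow_le_pow_iff_left₀ hs.le (by positivity) two_ne_zero).1 ?_
    rw [← e, Real.norm_eq_abs]
    nlinarith
  have h5 : s ^ 3 ≤ (4 / 3 * ρ) ^ 3 := pow_le_pow_left₀ hs.le h4 3
  have h6 : aa ^ 2 ≤ 25 / 9 := by nlinarith
  rw [e, e2, Real.sqrt_sq hρ.le, ← div_eq_mul_inv, le_div_iff₀ (by positivity),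
    show ρ * (aa / ρ ^ 2) ^ 2 * s ^ 3 = aa ^ 2 * s ^ 3 / ρ ^ 3 by field_simp,
    div_le_iff₀ (by positivity)]
  nlinarith [mul_le_mul h6 h5 (by positivity) (by norm_num), pow_pos hρ 3]

theorem integrable_GG (t : ℝ) (ht : 0 < t) : Integrable fun θ : ℝ => GG (t + θ * I) := by
  have hc := continuous_GG t ht
  rw [← integrableOn_univ, ← union_compl_self (Icc (-Real.pi) Real.pi)]
  refine hc.integrableOn_Icc.union ?_
  refine (((integrable_one_add_norm (E := ℝ) (μ := volume) (r := 3 / 2)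
    (by rw [Module.finrank_self]; norm_num)).const_mul 8).integrableOn).mono'
    hc.aestronglyMeasurable.restrict ?_
  filter_upwards [ae_restrict_mem measurableSet_Icc.compl] with θ h
  exact norm_GG_le t θ ht (not_le.1 fun h' => h (abs_le.1 h')).le

theorem norm_low_le (t θ : ℝ) (ht : 0 < t) (ht1 : t ≤ 1) (hθ : |θ| ≤ Real.pi) :
    ‖((t : ℂ) + θ * I) ^ (1 / 2 : ℂ) * (1 + aa / (t + θ * I))‖ ≤ 6 / t := by
  have h1 : t ≤ ‖(t : ℂ) + θ * I‖ := by simpa using re_le_norm ((t : ℂ) + θ * I)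
  have h2 : ‖(t : ℂ) + θ * I‖ ≤ 4 := by
    rw [Complex.norm_add_mul_I]
    refine Real.sqrt_le_iff.2 ⟨by norm_num, ?_⟩
    have := Real.pi_lt_d2
    nlinarith [sq_abs θ, abs_nonneg θ]
  have h3 : √‖(t : ℂ) + θ * I‖ ≤ 2 := Real.sqrt_le_iff.2 ⟨by norm_num, by linarith⟩
  have h4 : ‖1 + (aa : ℂ) / (t + θ * I)‖ ≤ 3 / t := by
    refine (norm_add_le _ _).trans ?_
    rw [norm_one, norm_div, Complex.norm_real, Real.norm_of_nonneg aa_pos.le]
    have h5 : aa / ‖(t : ℂ) + θ * I‖ ≤ 2 / t :=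
      div_le_div₀ (by norm_num) (by linarith [aa_lt]) ht h1
    have h6 : 1 ≤ 1 / t := by rwa [le_div_iff₀ ht, one_mul]
    have h7 : 3 / t = 1 / t + 2 / t := by ring
    linarith
  rw [norm_mul, ggb_norm]
  refine (mul_le_mul h3 h4 (norm_nonneg _) (by norm_num)).trans_eq ?_
  ring

end PNF
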