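import Pool.Agent.P.MP_373cf5_nt.Defs

namespace PNF

open Complex MeasureTheory Set

theorem gaussA_split (b : ℝ) (τ : ℂ) (u : ℝ) :
    (Real.cosh (b * u) : ℂ) * cexp (-τ * u ^ 2) =
      (cexp (-τ * u ^ 2 + b * u + 0) + cexp (-τ * u ^ 2 + (-b : ℂ) * u + 0)) / 2 := by
  rw [add_zero, add_zero, exp_add, exp_add, Real.cosh_eq, neg_mul (b : ℂ)]
  push_cast
  ring

theorem gaussA_full (b : ℝ) (τ : ℂ) (hτ : 0 < τ.re) :
    ∫ u : ℝ, (Real.cosh (b * u) : ℂ) * cexp (-τ * u ^ 2) =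
      (Real.pi / τ) ^ (1 / 2 : ℂ) * cexp ((b : ℂ) ^ 2 / (4 * τ)) := by
  have h : (-τ).re < 0 := by simpa using hτ
  simp_rw [gaussA_split]
  rw [integral_div, integral_add (integrable_cexp_quadratic hτ _ _)
    (integrable_cexp_quadratic hτ _ _), integral_cexp_quadratic h, integral_cexp_quadratic h,
    neg_neg, neg_sq, zero_sub, mul_neg, div_neg, neg_neg]
  ring

theorem integrable_cosh_gauss (b : ℝ) (τ : ℂ) (hτ : 0 < τ.re) :
    Integrable fun u : ℝ => (Real.cosh (b * u) : ℂ) * cexp (-τ * u ^ 2) := by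
  simp_rw [gaussA_split]
  exact ((integrable_cexp_quadratic hτ _ _).add (integrable_cexp_quadratic hτ _ _)).div_const 2

theorem integral_cosh_gauss (b : ℝ) (τ : ℂ) (hτ : 0 < τ.re) :
    ∫ u in Ioi (0 : ℝ), ((Real.cosh (b * u) : ℂ) - 1) * cexp (-τ * u ^ 2) =
      (Real.pi / τ) ^ (1 / 2 : ℂ) * (cexp ((b : ℂ) ^ 2 / (4 * τ)) - 1) / 2 := by
  have h1 := gaussA_full b τ hτ
  have h2 := integrable_cosh_gauss b τ hτ
  have h3 : ∫ u in Iic (0 : ℝ), (Real.cosh (b * u) : ℂ) * cexp (-τ * u ^ 2) =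
      ∫ u in Ioi (0 : ℝ), (Real.cosh (b * u) : ℂ) * cexp (-τ * u ^ 2) := by
    have h4 := integral_comp_neg_Ioi (0 : ℝ)
      fun u : ℝ => (Real.cosh (b * u) : ℂ) * cexp (-τ * u ^ 2)
    rw [neg_zero] at h4
    rw [← h4]
    simp only [mul_neg, Real.cosh_neg, ofReal_neg, neg_sq]
  rw [← integral_add_compl (s := Ioi 0) measurableSet_Ioi h2, compl_Ioi, h3] at h1
  simp_rw [sub_mul, one_mul]
  rw [integral_sub h2.integrableOn (integrable_cexp_neg_mul_sq hτ).integrableOn,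
    integral_gaussian_complex_Ioi hτ]
  linear_combination h1 / 2

theorem pi_div_cpow (τ : ℂ) (hτ : 0 < τ.re) :
    τ * (Real.pi / τ) ^ (1 / 2 : ℂ) = ((√Real.pi : ℝ) : ℂ) * τ ^ (1 / 2 : ℂ) := by
  have h0 : τ ≠ 0 := fun h => by simp [h] at hτ
  have hπ : (Real.pi : ℂ) ≠ 0 := ofReal_ne_zero.2 Real.pi_ne_zero
  have ha : τ.arg ≠ Real.pi := fun h => by
    have := (arg_eq_pi_iff.1 h).1
    linarith
  have h1 : ((√Real.pi : ℝ) : ℂ) = cexp ((Real.log Real.pi : ℝ) * (1 / 2)) := by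
    rw [Real.sqrt_eq_rpow, Real.rpow_def_of_pos Real.pi_pos]
    push_cast
    rfl
  rw [cpow_def_of_ne_zero (div_ne_zero hπ h0), cpow_def_of_ne_zero h0, div_eq_mul_inv,
    log_ofReal_mul Real.pi_pos (inv_ne_zero h0), log_inv _ ha, h1, ← exp_add]
  nth_rewrite 1 [← exp_log h0]
  rw [← exp_add]
  congr 1
  ring

end PNF
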