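import Pool.Agent.P.MP_373cf5_nt.GaussA

namespace PNF

open Complex MeasureTheory Set

theorem gaussB_nonneg {f f' : ℝ → ℝ} (hf : ∀ x, HasDerivAt f (f' x) x) (h0 : f 0 = 0)
    (hp : ∀ x, 0 ≤ x → 0 ≤ f' x) {z : ℝ} (hz : 0 ≤ z) : 0 ≤ f z := by
  have hm : MonotoneOn f (Ici 0) :=
    monotoneOn_of_deriv_nonneg (convex_Ici 0)
      (fun x _ => (hf x).continuousAt.continuousWithinAt)
      (fun x _ => (hf x).differentiableAt.differentiableWithinAt)
      fun x hx => by rw [(hf x).deriv]; exact hp x (interior_subset hx)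
  have := hm self_mem_Ici hz hz
  rwa [h0] at this

theorem gaussB_sinh_le {z : ℝ} (hz : 0 ≤ z) : Real.sinh z ≤ z * Real.cosh z := by
  have := gaussB_nonneg (f := fun z => z * Real.cosh z - Real.sinh z)
    (f' := fun z => z * Real.sinh z) (fun x => by
      have h := ((hasDerivAt_id' x).mul (Real.hasDerivAt_cosh x)).sub (Real.hasDerivAt_sinh x)
      exact h.congr_deriv (by ring)) (by simp)
    (fun x hx => mul_nonneg hx (Real.sinh_nonneg_iff.2 hx)) hz
  linarith

theorem gaussB_cosh_le {z : ℝ} (hz : 0 ≤ z) : Real.cosh z - 1 ≤ z * Real.sinh z := by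
  have := gaussB_nonneg (f := fun z => z * Real.sinh z - Real.cosh z + 1)
    (f' := fun z => z * Real.cosh z) (fun x => by
      have h := (((hasDerivAt_id' x).mul (Real.hasDerivAt_sinh x)).sub
        (Real.hasDerivAt_cosh x)).add_const 1
      exact h.congr_deriv (by ring)) (by simp)
    (fun x hx => mul_nonneg hx (Real.cosh_pos x).le) hz
  linarith

theorem integrableOn_parts (b : ℝ) (hb : 0 ≤ b) (τ : ℂ) (hτ : 0 < τ.re) :
    IntegrableOn (fun u : ℝ =>
      (((b * u * Real.sinh (b * u) - Real.cosh (b * u) + 1) / u ^ 2 : ℝ) : ℂ) * cexp (-τ * u ^ 2))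
      (Ioi 0) := by
  refine Integrable.mono' (((integrable_cosh_gauss b τ hτ).norm.const_mul (b ^ 2)).integrableOn)
    (Measurable.aestronglyMeasurable (by fun_prop)) ?_
  filter_upwards [ae_restrict_mem measurableSet_Ioi] with u hu
  have hu0 : 0 < u := hu
  have hz : 0 ≤ b * u := mul_nonneg hb hu0.le
  have h1 := gaussB_sinh_le hz
  have h2 := gaussB_cosh_le hz
  have h3 := Real.one_le_cosh (b * u)
  rw [norm_mul, norm_mul, ← mul_assoc, norm_real, norm_real,
    Real.norm_of_nonneg (div_nonneg (by linarith) (sq_nonneg _)),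
    Real.norm_of_nonneg (Real.cosh_pos _).le]
  refine mul_le_mul_of_nonneg_right ?_ (norm_nonneg _)
  rw [div_le_iff₀ (by positivity)]
  nlinarith [mul_le_mul_of_nonneg_left h1 hz]

theorem gaussB_phi {b u : ℝ} (hb : 0 ≤ b) (hu : 0 ≤ u) :
    ‖(Real.cosh (b * u) - 1) / u‖ ≤ b * Real.sinh (b * u) := by
  have hz : 0 ≤ b * u := mul_nonneg hb hu
  rw [Real.norm_of_nonneg (div_nonneg (sub_nonneg.2 (Real.one_le_cosh _)) hu)]
  refine div_le_of_le_mul₀ hu (mul_nonneg hb (Real.sinh_nonneg_iff.2 hz)) ?_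
  linarith [gaussB_cosh_le hz]

theorem gaussB_deriv (b : ℝ) (τ : ℂ) {u : ℝ} (hu : 0 < u) :
    HasDerivAt (fun u : ℝ => (((Real.cosh (b * u) - 1) / u : ℝ) : ℂ) * cexp (-τ * u ^ 2))
      ((((b * u * Real.sinh (b * u) - Real.cosh (b * u) + 1) / u ^ 2 : ℝ) : ℂ) * cexp (-τ * u ^ 2)
        - 2 * τ * (((Real.cosh (b * u) : ℂ) - 1) * cexp (-τ * u ^ 2))) u := by
  have h1 : HasDerivAt (fun u : ℝ => (Real.cosh (b * u) - 1) / u)
      ((b * u * Real.sinh (b * u) - Real.cosh (b * u) + 1) / u ^ 2) u := by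
    have h := ((((hasDerivAt_id' u).const_mul b).cosh).sub_const 1).div (hasDerivAt_id' u) hu.ne'
    exact h.congr_deriv (by ring)
  have h2 : HasDerivAt (fun u : ℝ => cexp (-τ * (u : ℂ) ^ 2))
      (cexp (-τ * (u : ℂ) ^ 2) * (-τ * (2 * u))) u := by
    have h := (((hasDerivAt_id' (u : ℂ)).pow 2).const_mul (-τ)).cexp.comp_ofReal
    exact h.congr_deriv (by simp)
  refine (h1.ofReal_comp.mul h2).congr_deriv ?_
  have hu' : (u : ℂ) ≠ 0 := ofReal_ne_zero.2 hu.ne'
  rw [ofReal_div (Real.cosh (b * u) - 1), ofReal_sub (Real.cosh (b * u)) 1, ofReal_one]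
  field_simp
  ring

theorem integral_parts (b : ℝ) (hb : 0 ≤ b) (τ : ℂ) (hτ : 0 < τ.re) :
    ∫ u in Ioi (0 : ℝ),
      (((b * u * Real.sinh (b * u) - Real.cosh (b * u) + 1) / u ^ 2 : ℝ) : ℂ) * cexp (-τ * u ^ 2) =
      τ * (Real.pi / τ) ^ (1 / 2 : ℂ) * (cexp ((b : ℂ) ^ 2 / (4 * τ)) - 1) := by
  have i1 := integrableOn_parts b hb τ hτ
  have i2 : IntegrableOn (fun u : ℝ =>
      2 * τ * (((Real.cosh (b * u) : ℂ) - 1) * cexp (-τ * u ^ 2))) (Ioi 0) := by
    simp only [sub_mul, one_mul]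
    exact (((integrable_cosh_gauss b τ hτ).sub (integrable_cexp_neg_mul_sq hτ)).const_mul
      _).integrableOn
  have hc : ContinuousWithinAt (fun u : ℝ =>
      (((Real.cosh (b * u) - 1) / u : ℝ) : ℂ) * cexp (-τ * u ^ 2)) (Ici 0) 0 := by
    have h1 : ContinuousWithinAt (fun u : ℝ => (Real.cosh (b * u) - 1) / u) (Ici 0) 0 := by
      have h2 : Continuous fun u : ℝ => b * Real.sinh (b * u) := by fun_prop
      rw [ContinuousWithinAt, div_zero]
      refine squeeze_zero_norm' (eventually_nhdsWithin_of_forall fun u hu => gaussB_phi hb hu) ?_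
      simpa using (h2.tendsto 0).mono_left nhdsWithin_le_nhds
    exact (continuous_ofReal.continuousAt.comp_continuousWithinAt h1).mul
      (Continuous.continuousWithinAt (by fun_prop))
  have ht : Filter.Tendsto (fun u : ℝ =>
      (((Real.cosh (b * u) - 1) / u : ℝ) : ℂ) * cexp (-τ * u ^ 2)) Filter.atTop (nhds 0) := by
    have h1 : Filter.Tendsto (fun u : ℝ => u * (b + -τ.re * u)) Filter.atTop Filter.atBot :=
      Filter.tendsto_id.atTop_mul_atBot₀ (Filter.tendsto_atBot_add_const_left _ b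
        (Filter.tendsto_id.const_mul_atTop_of_neg (neg_neg_of_pos hτ)))
    have h2 := (Real.tendsto_exp_atBot.comp h1).const_mul b
    rw [mul_zero] at h2
    refine squeeze_zero_norm' ?_ h2
    filter_upwards [Filter.eventually_ge_atTop 0] with u hu
    have h3 : Real.sinh (b * u) ≤ Real.exp (b * u) := by
      rw [← Real.sinh_add_cosh]
      linarith [Real.cosh_pos (b * u)]
    have h4 : (-τ * (u : ℂ) ^ 2).re = -τ.re * u ^ 2 := by
      rw [← ofReal_pow, re_mul_ofReal, neg_re]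
    rw [norm_mul, norm_real, norm_exp, h4, Function.comp_apply,
      show u * (b + -τ.re * u) = b * u + -τ.re * u ^ 2 by ring, Real.exp_add, ← mul_assoc]
    exact mul_le_mul_of_nonneg_right ((gaussB_phi hb hu).trans
      (mul_le_mul_of_nonneg_left h3 hb)) (Real.exp_pos _).le
  have h := integral_Ioi_of_hasDerivAt_of_tendsto hc (fun u hu => gaussB_deriv b τ hu)
    (i1.sub i2) ht
  rw [integral_sub i1 i2, integral_const_mul, integral_cosh_gauss b τ hτ, div_zero, ofReal_zero,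
    zero_mul, sub_zero, sub_eq_zero] at h
  rw [h]
  ring

end PNF
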