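import Pool.Agent.P.MP_373cf5_nt.Defs

namespace PNF

open PowerSeries

/-- absolute convergence at `q` with sum `s` -/
def genfinEv (q : ℂ) (f : PowerSeries ℂ) (s : ℂ) : Prop :=
  (Summable fun n : ℕ => ‖coeff n f * q ^ n‖) ∧ ∑' n : ℕ, coeff n f * q ^ n = s

theorem genfin_mul {q : ℂ} {f g : PowerSeries ℂ} {s t : ℂ} (hf : genfinEv q f s)
    (hg : genfinEv q g t) : genfinEv q (f * g) (s * t) := by
  have h : ∀ n : ℕ, coeff n (f * g) * q ^ n = ∑ kl ∈ Finset.HasAntidiagonal.antidiagonal n,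
      (coeff kl.1 f * q ^ kl.1) * (coeff kl.2 g * q ^ kl.2) := by
    intro n
    rw [coeff_mul, Finset.sum_mul]
    refine Finset.sum_congr rfl fun kl hkl => ?_
    rw [← Finset.HasAntidiagonal.mem_antidiagonal.1 hkl, pow_add]
    ring
  have h1 := summable_norm_sum_mul_antidiagonal_of_summable_norm
    (f := fun n : ℕ => coeff n f * q ^ n) (g := fun n : ℕ => coeff n g * q ^ n) hf.1 hg.1
  have h2 := tsum_mul_tsum_eq_tsum_sum_antidiagonal_of_summable_norm
    (f := fun n : ℕ => coeff n f * q ^ n) (g := fun n : ℕ => coeff n g * q ^ n) hf.1 hg.1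
  refine ⟨h1.congr fun n => by rw [h n], ?_⟩
  rw [← hf.2, ← hg.2, h2]
  exact tsum_congr h

theorem genfin_pow (q : ℂ) (k : ℕ) : genfinEv q (X ^ k) (q ^ k) := by
  have h : ∀ n : ℕ, n ≠ k → coeff n (X ^ k : PowerSeries ℂ) * q ^ n = 0 := by
    intro n hn
    rw [coeff_X_pow, if_neg hn, zero_mul]
  refine ⟨(hasSum_single k fun n hn => by rw [h n hn, norm_zero]).summable, ?_⟩
  rw [tsum_eq_single k h, coeff_X_pow, if_pos rfl, one_mul]

theorem genfin_one (q : ℂ) : genfinEv q 1 1 := by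
  simpa using genfin_pow q 0

theorem genfin_sub {q : ℂ} {f g : PowerSeries ℂ} {s t : ℂ} (hf : genfinEv q f s)
    (hg : genfinEv q g t) : genfinEv q (f - g) (s - t) := by
  refine ⟨?_, ?_⟩
  · refine (hf.1.add hg.1).of_nonneg_of_le (fun _ => norm_nonneg _) fun n => ?_
    rw [map_sub, sub_mul]
    exact norm_sub_le _ _
  · simp only [map_sub, sub_mul]
    rw [hf.1.of_norm.tsum_sub hg.1.of_norm, hf.2, hg.2]

theorem genfin_prod {q : ℂ} {f : ℕ → PowerSeries ℂ} {s : ℕ → ℂ} (h : ∀ i, genfinEv q (f i) (s i))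
    (N : ℕ) : genfinEv q (∏ i ∈ Finset.range N, f i) (∏ i ∈ Finset.range N, s i) := by
  induction N with
  | zero => simpa using genfin_one q
  | succ N ih =>
    rw [Finset.prod_range_succ, Finset.prod_range_succ]
    exact genfin_mul ih (h N)

/-- the geometric series in `X ^ (i + 1)` -/
noncomputable def genfinG (i : ℕ) : PowerSeries ℂ :=
  PowerSeries.mk fun n => if (i + 1) ∣ n then 1 else 0

theorem genfin_G {q : ℂ} (hq : ‖q‖ < 1) (i : ℕ) :
    genfinEv q (genfinG i) (∑' n : ℕ, coeff n (genfinG i) * q ^ n) := by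
  refine ⟨(summable_geometric_of_lt_one (norm_nonneg q) hq).of_nonneg_of_le
    (fun _ => norm_nonneg _) fun n => ?_, rfl⟩
  rw [genfinG, coeff_mk]
  split_ifs
  · rw [one_mul, norm_pow]
  · rw [zero_mul, norm_zero]
    positivity

theorem genfin_inv (i : ℕ) : (1 - X ^ (i + 1)) * genfinG i = 1 := by
  ext n
  rw [sub_mul, one_mul, map_sub, coeff_X_pow_mul', genfinG, coeff_mk, coeff_mk, coeff_one]
  by_cases h : i + 1 ≤ n
  · have h1 : (i + 1 ∣ n - (i + 1)) ↔ (i + 1 ∣ n) :=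
      ⟨fun h2 => by simpa [Nat.sub_add_cancel h] using Nat.dvd_add h2 (dvd_refl (i + 1)),
        fun h2 => Nat.dvd_sub h2 dvd_rfl⟩
    rw [if_pos h, if_neg (show n ≠ 0 by omega)]
    simp only [h1, sub_self]
  · rw [if_neg h, sub_zero]
    by_cases h0 : n = 0
    · simp [h0]
    · rw [if_neg h0, if_neg fun h2 => h (Nat.le_of_dvd (by omega) h2)]

open scoped PowerSeries.WithPiTopology in
theorem genfin_formal (N : ℕ) :
    (PowerSeries.mk fun n => ((Nat.Partition.restricted n (· ≤ N)).card : ℂ))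
      = ∏ i ∈ Finset.range N, genfinG i := by
  have h1 := Nat.Partition.hasProd_powerSeriesMk_card_restricted ℂ (· ≤ N)
  have h2 : HasProd (fun i => if i + 1 ≤ N then ∑' j : ℕ, (X : PowerSeries ℂ) ^ ((i + 1) * j) else 1)
      (∏ i ∈ Finset.range N,
        if i + 1 ≤ N then ∑' j : ℕ, (X : PowerSeries ℂ) ^ ((i + 1) * j) else 1) :=
    hasProd_prod_of_ne_finset_one fun i hi => if_neg (by simpa using hi)
  rw [h1.unique h2]
  refine Finset.prod_congr rfl fun i hi => ?_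
  rw [if_pos (by simpa using hi)]
  have h3 : (1 - X ^ (i + 1)) * ∑' j : ℕ, ((X : PowerSeries ℂ) ^ (i + 1)) ^ j = 1 :=
    PowerSeries.WithPiTopology.one_sub_mul_tsum_pow_of_constantCoeff_eq_zero (by simp)
  simp only [pow_mul]
  calc ∑' j : ℕ, ((X : PowerSeries ℂ) ^ (i + 1)) ^ j
      = ((1 - X ^ (i + 1)) * genfinG i) * ∑' j : ℕ, ((X : PowerSeries ℂ) ^ (i + 1)) ^ j := by
        rw [genfin_inv, one_mul]
    _ = genfinG i * ((1 - X ^ (i + 1)) * ∑' j : ℕ, ((X : PowerSeries ℂ) ^ (i + 1)) ^ j) := by ring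
    _ = genfinG i := by rw [h3, mul_one]

/-- Partitions into parts `≤ N`: analytic generating function. -/
theorem restricted_gen (N : ℕ) (q : ℂ) (hq : ‖q‖ < 1) :
    (Summable fun n : ℕ => ((Nat.Partition.restricted n (· ≤ N)).card : ℝ) * ‖q‖ ^ n) ∧
    (∑' n : ℕ, ((Nat.Partition.restricted n (· ≤ N)).card : ℂ) * q ^ n) *
      ∏ k ∈ Finset.range N, (1 - q ^ (k + 1)) = 1 := by
  have h1 := genfin_prod (genfin_G hq) N
  have h2 := genfin_prod (fun i => genfin_sub (genfin_one q) (genfin_pow q (i + 1))) N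
  have h3 := genfin_mul h1 h2
  have h4 : (∏ i ∈ Finset.range N, genfinG i) * ∏ i ∈ Finset.range N, (1 - X ^ (i + 1)) = 1 := by
    rw [← Finset.prod_mul_distrib]
    exact Finset.prod_eq_one fun i _ => by rw [mul_comm, genfin_inv]
  rw [h4] at h3
  have h5 := h3.2.symm.trans (genfin_one q).2
  rw [← genfin_formal] at h1
  obtain ⟨h6, h7⟩ := h1
  simp only [coeff_mk] at h6 h7
  refine ⟨?_, by rw [h7, h5]⟩
  simpa using h6

end PNF
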