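import Pool.Agent.P.MP_373cf5_nt.Defs

namespace PNF

theorem prodBound_geom (r : ℝ) (h0 : 0 ≤ r) (h1 : r < 1) (m : ℕ) :
    r ^ m * (m + 1) * (1 - r) ≤ 1 - r ^ (m + 1) := by
  rw [← mul_neg_geom_sum, mul_comm]
  refine mul_le_mul_of_nonneg_left ?_ (by linarith)
  have h := Finset.card_nsmul_le_sum (Finset.range (m + 1)) (fun i => r ^ i) (r ^ m)
    fun i hi => pow_le_pow_of_le_one h0 h1.le (Nat.lt_succ_iff.1 (Finset.mem_range.1 hi))
  rw [Finset.card_range, nsmul_eq_mul] at h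
  push_cast at h
  linarith

theorem prodBound_col (r : ℝ) (h0 : 0 ≤ r) (h1 : r < 1) (N m : ℕ) :
    ∑ k ∈ Finset.range N, (r ^ (k + 1)) ^ (m + 1) / ((m : ℝ) + 1)
      ≤ r / (1 - r) * (1 / ((m + 1 : ℕ) : ℝ) ^ 2) := by
  have e : ∑ k ∈ Finset.range N, (r ^ (k + 1)) ^ (m + 1) / ((m : ℝ) + 1)
      = r * r ^ m * (∑ k ∈ Finset.range N, (r ^ (m + 1)) ^ k) / ((m : ℝ) + 1) := by
    rw [Finset.mul_sum, Finset.sum_div]
    exact Finset.sum_congr rfl fun k _ => by ring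
  have hS : 0 ≤ ∑ k ∈ Finset.range N, (r ^ (m + 1)) ^ k :=
    Finset.sum_nonneg fun k _ => by positivity
  have h2 : (1 - r ^ (m + 1)) * ∑ k ∈ Finset.range N, (r ^ (m + 1)) ^ k ≤ 1 := by
    rw [mul_neg_geom_sum]
    have : 0 ≤ (r ^ (m + 1)) ^ N := by positivity
    linarith
  have h3 := (mul_le_mul_of_nonneg_right (prodBound_geom r h0 h1 m) hS).trans h2
  have h4 : 0 < 1 - r := by linarith
  have h5 : (0 : ℝ) < (m : ℝ) + 1 := by positivity
  rw [e, div_mul_div_comm, div_le_div_iff₀ h5 (by positivity)]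
  push_cast
  nlinarith [mul_le_mul_of_nonneg_left h3 (mul_nonneg h0 h5.le)]

theorem prod_inv_le (r : ℝ) (h0 : 0 ≤ r) (h1 : r < 1) (N : ℕ) :
    ∏ k ∈ Finset.range N, (1 - r ^ (k + 1))⁻¹ ≤ Real.exp (aa * r / (1 - r)) := by
  have hlt : ∀ k : ℕ, r ^ (k + 1) < 1 := fun k => pow_lt_one₀ h0 h1 (Nat.succ_ne_zero k)
  have h2 := hasSum_sum (s := Finset.range N) fun k _ =>
    Real.hasSum_pow_div_log_of_abs_lt_one (x := r ^ (k + 1))
      (by rw [abs_of_nonneg (by positivity)]; exact hlt k)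
  have h3 : HasSum (fun m : ℕ => (1 : ℝ) / ((m + 1 : ℕ) : ℝ) ^ 2) aa := by
    have h := (hasSum_nat_add_iff' 1).2 hasSum_zeta_two
    simpa [aa] using h
  have h4 := hasSum_le (prodBound_col r h0 h1 N) h2 (h3.mul_left (r / (1 - r)))
  have e : ∏ k ∈ Finset.range N, (1 - r ^ (k + 1))⁻¹
      = Real.exp (∑ k ∈ Finset.range N, -Real.log (1 - r ^ (k + 1))) := by
    rw [Real.exp_sum]
    exact Finset.prod_congr rfl fun k _ => by
      rw [Real.exp_neg, Real.exp_log (sub_pos.2 (hlt k))]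
  rw [e]
  refine Real.exp_le_exp.2 (h4.trans (le_of_eq ?_))
  ring

end PNF
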