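import Pool.Agent.P.MP_373cf5_nt.GenFin
import Pool.Agent.P.MP_373cf5_nt.ProdBound

namespace PNF

theorem genFun_le (N n : ℕ) : (Nat.Partition.restricted n (· ≤ N)).card ≤ pn n :=
  Finset.card_le_univ _

theorem genFun_eq {N n : ℕ} (h : n ≤ N) : (Nat.Partition.restricted n (· ≤ N)).card = pn n := by
  rw [Nat.Partition.restricted, Finset.filter_true_of_mem, Finset.card_univ, pn]
  intro x _ i hi
  exact (Nat.Partition.le_of_mem_parts hi).trans h

theorem genFun_range (r : ℝ) (h0 : 0 ≤ r) (h1 : r < 1) (N : ℕ) :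
    ∑ n ∈ Finset.range N, (pn n : ℝ) * r ^ n ≤ Real.exp (aa * r / (1 - r)) := by
  have hn : ‖(r : ℂ)‖ = r := by rw [Complex.norm_real, Real.norm_of_nonneg h0]
  obtain ⟨h2, h3⟩ := restricted_gen N (r : ℂ) (by rwa [hn])
  rw [hn] at h2
  have h4 : (∑' n : ℕ, ((Nat.Partition.restricted n (· ≤ N)).card : ℝ) * r ^ n) *
      ∏ k ∈ Finset.range N, (1 - r ^ (k + 1)) = 1 := by
    exact_mod_cast h3
  calc ∑ n ∈ Finset.range N, (pn n : ℝ) * r ^ n
      = ∑ n ∈ Finset.range N, ((Nat.Partition.restricted n (· ≤ N)).card : ℝ) * r ^ n :=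
        Finset.sum_congr rfl fun n hn' => by rw [genFun_eq (Finset.mem_range.1 hn').le]
    _ ≤ ∑' n : ℕ, ((Nat.Partition.restricted n (· ≤ N)).card : ℝ) * r ^ n :=
        h2.sum_le_tsum _ fun n _ => by positivity
    _ = ∏ k ∈ Finset.range N, (1 - r ^ (k + 1))⁻¹ := by
        rw [Finset.prod_inv_distrib]
        exact eq_inv_of_mul_eq_one_left h4
    _ ≤ _ := prod_inv_le r h0 h1 N

theorem summable_pn (r : ℝ) (h0 : 0 ≤ r) (h1 : r < 1) :
    Summable fun n : ℕ => (pn n : ℝ) * r ^ n :=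
  summable_of_sum_range_le (fun n => by positivity) (genFun_range r h0 h1)

theorem tsum_pn_le (r : ℝ) (h0 : 0 ≤ r) (h1 : r < 1) :
    ∑' n : ℕ, (pn n : ℝ) * r ^ n ≤ Real.exp (aa * r / (1 - r)) :=
  Real.tsum_le_of_sum_range_le (fun n => by positivity) (genFun_range r h0 h1)

theorem PP_mul (q : ℂ) (hq : ‖q‖ < 1) : PP q * ∏' k : ℕ, (1 - q ^ (k + 1)) = 1 := by
  have h1 : Filter.Tendsto
      (fun N : ℕ => ∑' n : ℕ, ((Nat.Partition.restricted n (· ≤ N)).card : ℂ) * q ^ n)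
      Filter.atTop (nhds (PP q)) := by
    refine tendsto_tsum_of_dominated_convergence (summable_pn ‖q‖ (norm_nonneg _) hq)
      (fun n => ?_) (Filter.Eventually.of_forall fun N n => ?_)
    · refine tendsto_const_nhds.congr' ?_
      filter_upwards [Filter.eventually_ge_atTop n] with N hN
      rw [genFun_eq hN]
    · rw [norm_mul, norm_pow, Complex.norm_natCast]
      exact mul_le_mul_of_nonneg_right (by exact_mod_cast genFun_le N n) (by positivity)
  have h2 := (ModularForm.multipliable_one_sub_pow hq).hasProd.tendsto_prod_nat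
  refine tendsto_nhds_unique (h1.mul h2) (tendsto_const_nhds.congr fun N => ?_)
  exact (restricted_gen N q hq).2.symm

theorem norm_PP_sub_one (q : ℂ) (hq : ‖q‖ < 1) :
    ‖PP q - 1‖ ≤ Real.exp (aa * ‖q‖ / (1 - ‖q‖)) - 1 := by
  have h1 := summable_pn ‖q‖ (norm_nonneg _) hq
  have hn : ∀ n : ℕ, ‖(pn n : ℂ) * q ^ n‖ = (pn n : ℝ) * ‖q‖ ^ n := fun n => by
    rw [norm_mul, norm_pow, Complex.norm_natCast]
  have h2 : Summable fun n : ℕ => ‖(pn n : ℂ) * q ^ n‖ := by simpa only [hn] using h1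
  have h3 := tsum_pn_le ‖q‖ (norm_nonneg _) hq
  rw [h1.tsum_eq_zero_add, pn_zero] at h3
  have h4 : PP q - 1 = ∑' n : ℕ, (pn (n + 1) : ℂ) * q ^ (n + 1) := by
    rw [PP, h2.of_norm.tsum_eq_zero_add, pn_zero]
    simp
  have h6 : Summable fun n : ℕ => ‖(pn (n + 1) : ℂ) * q ^ (n + 1)‖ :=
    (summable_nat_add_iff (f := fun n : ℕ => ‖(pn n : ℂ) * q ^ n‖) 1).2 h2
  have h5 := norm_tsum_le_tsum_norm (f := fun n : ℕ => (pn (n + 1) : ℂ) * q ^ (n + 1)) h6
  simp only [hn] at h5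
  rw [h4]
  simp only [Nat.cast_one, pow_zero, mul_one] at h3
  linarith

end PNF
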