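import Pool.Agent.P.MP_373cf5_nt.Defs

namespace PNF

theorem two_sqrt_eq_mu (n : ℕ) (hn : 1 ≤ n) : 2 * √(aa * ((n : ℝ) - 1 / 24)) = mu n := by
  have h1 : aa * ((n : ℝ) - 1 / 24) = (Real.pi / 12) ^ 2 * (24 * (n : ℝ) - 1) := by
    unfold aa; ring
  have hp : (0 : ℝ) ≤ Real.pi / 12 := by have := Real.pi_pos; positivity
  rw [h1, Real.sqrt_mul (sq_nonneg _), Real.sqrt_sq hp]
  unfold mu; ring

theorem hrb_exp_bound (m : ℝ) (hm : 0 ≤ m) : (m + 1) * Real.exp (-m) ≤ 1 := by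
  have h := Real.add_one_le_exp m
  have h2 : Real.exp m * Real.exp (-m) = 1 := by rw [← Real.exp_add]; simp
  have h3 := Real.exp_pos (-m)
  nlinarith

theorem hrb_sqrt24 (x : ℝ) (_hx : 0 ≤ x) : √(24 * x) = 2 * √2 * √3 * √x := by
  have h : (24 : ℝ) * x = 2 ^ 2 * (2 * (3 * x)) := by ring
  rw [h, Real.sqrt_mul (by norm_num), Real.sqrt_sq (by norm_num), Real.sqrt_mul (by norm_num),
    Real.sqrt_mul (by norm_num)]
  ring

theorem hrb_diff (n : ℕ) (hn : 1 ≤ n) :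
    gg ((n : ℝ) - 1 / 24) / √(2 * Real.pi) - mainTerm n =
      (1 - (mu n + 1) * Real.exp (-(mu n)) / 2 - 2 * (aa * ((n : ℝ) - 1 / 24))) /
        (2 * √2 * Real.pi * (((n : ℝ) - 1 / 24) * √((n : ℝ) - 1 / 24))) := by
  have hn' : (1 : ℝ) ≤ n := by exact_mod_cast hn
  have hl : (0 : ℝ) < (n : ℝ) - 1 / 24 := by linarith
  have h24 : 24 * (n : ℝ) - 1 = 24 * ((n : ℝ) - 1 / 24) := by ring
  unfold gg mainTerm
  rw [two_sqrt_eq_mu n hn, h24, hrb_sqrt24 _ hl.le, Real.sqrt_mul (by norm_num : (0 : ℝ) ≤ 2),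
    Real.sinh_eq, Real.cosh_eq]
  set lam : ℝ := (n : ℝ) - 1 / 24 with hlam
  set m : ℝ := mu n
  have hs : 0 < √lam := Real.sqrt_pos.mpr hl
  have h2 : 0 < √(2 : ℝ) := Real.sqrt_pos.mpr (by norm_num)
  have h3 : 0 < √(3 : ℝ) := Real.sqrt_pos.mpr (by norm_num)
  have hpi : 0 < √Real.pi := Real.sqrt_pos.mpr Real.pi_pos
  have hpp : Real.pi = √Real.pi * √Real.pi := (Real.mul_self_sqrt Real.pi_pos.le).symm
  set s := √lam
  set r2 := √(2 : ℝ)
  set r3 := √(3 : ℝ)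
  set p := √Real.pi
  rw [hpp]
  field_simp
  ring

theorem gg_sub_main : ∃ C : ℝ, 0 < C ∧ ∀ n : ℕ, 1 ≤ n →
    |gg ((n : ℝ) - 1 / 24) / √(2 * Real.pi) - mainTerm n| ≤ C := by
  refine ⟨10, by norm_num, fun n hn => ?_⟩
  rw [hrb_diff n hn]
  have hn' : (1 : ℝ) ≤ n := by exact_mod_cast hn
  have hm : 0 ≤ mu n := by unfold mu; have := Real.pi_pos; positivity
  have he := hrb_exp_bound _ hm
  have he0 : 0 ≤ (mu n + 1) * Real.exp (-(mu n)) := by positivity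
  set E := (mu n + 1) * Real.exp (-(mu n))
  set lam : ℝ := (n : ℝ) - 1 / 24 with hlam
  have hl : (23 / 24 : ℝ) ≤ lam := by linarith
  have hs : (1 / 2 : ℝ) ≤ √lam := by
    apply Real.le_sqrt_of_sq_le; linarith
  have h2 : (1 : ℝ) ≤ √2 := by
    apply Real.le_sqrt_of_sq_le; norm_num
  have hpi := Real.pi_gt_three
  have ha := aa_lt
  have ha0 := aa_pos
  have hD1 : (6 : ℝ) ≤ 2 * √2 * Real.pi := by nlinarith
  have hD2 : lam / 2 ≤ lam * √lam := by nlinarith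
  have hD : 3 * lam ≤ 2 * √2 * Real.pi * (lam * √lam) := by nlinarith
  have hDpos : 0 < 2 * √2 * Real.pi * (lam * √lam) := by linarith
  rw [abs_div, abs_of_pos hDpos, div_le_iff₀ hDpos, abs_le]
  have hal : aa * lam ≤ 5 / 3 * lam := by nlinarith
  have hal0 : 0 ≤ aa * lam := by nlinarith
  constructor <;> linarith

end PNF
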