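import Pool.Agent.P.MP_373cf5_nt.HRA
import Pool.Agent.P.MP_373cf5_nt.HRB

namespace PNF

/-- Hardy-Ramanujan first term with the square-root error. -/
theorem hardy_ramanujan : ∃ C : ℝ, 0 < C ∧ ∀ n : ℕ, 1 ≤ n →
    |(pn n : ℝ) - mainTerm n| ≤ C * Real.exp (mu n / 2) := by
  obtain ⟨C₁, hC₁, h₁⟩ := pn_sub_gg
  obtain ⟨C₂, hC₂, h₂⟩ := gg_sub_main
  refine ⟨5 * C₁ + C₂, by positivity, fun n hn => ?_⟩
  have hn' : (1 : ℝ) ≤ n := by exact_mod_cast hn
  set lam : ℝ := (n : ℝ) - 1 / 24 with hlam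
  have hl : 23 / 24 ≤ lam := by rw [hlam]; linarith
  have hl0 : 0 < lam := by linarith
  have ha := aa_pos
  have ha1 := aa_lt
  have ha2 := aa_gt
  have hmu : 2 * √(aa * lam) = mu n := two_sqrt_eq_mu n hn
  have hs : 0 < √(aa * lam) := Real.sqrt_pos.mpr (by positivity)
  have hm0 : 0 < mu n := by linarith
  have hsq : mu n ^ 2 = 4 * aa * lam := by
    rw [← hmu, mul_pow, Real.sq_sqrt (by positivity)]; ring
  set m := mu n with hm
  have ht0 : 0 < m / (4 * lam) := by positivity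
  have ht1 : m / (4 * lam) ≤ 1 := by
    rw [div_le_one (by positivity)]
    have : m ^ 2 ≤ (4 * lam) ^ 2 := by rw [hsq]; nlinarith
    exact (pow_le_pow_iff_left₀ hm0.le (by positivity) two_ne_zero).mp this
  have e1 : lam * (m / (4 * lam)) = m / 4 := by field_simp
  have e2 : aa / (4 * (m / (4 * lam))) = m / 4 := by
    field_simp
    linarith
  have key := h₁ n hn _ ht0 ht1
  rw [← hlam, e1, e2] at key
  have e3 : m / 4 + m / 4 = m / 2 := by ring
  rw [e3] at key
  have e4 : Real.exp (m / 4) / (m / (4 * lam)) ≤ 4 * Real.exp (m / 2) := by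
    rw [div_le_iff₀ ht0]
    have h5 : m / 4 + 1 ≤ Real.exp (m / 4) := Real.add_one_le_exp _
    have h6 : Real.exp (m / 2) = Real.exp (m / 4) * Real.exp (m / 4) := by
      rw [← Real.exp_add, e3]
    have h7 : 0 < Real.exp (m / 4) := Real.exp_pos _
    have h8 : 1 ≤ 4 * Real.exp (m / 4) * (m / (4 * lam)) := by
      have : 4 * Real.exp (m / 4) * (m / (4 * lam)) = Real.exp (m / 4) * m / lam := by
        field_simp
      rw [this, le_div_iff₀ hl0]
      nlinarith
    rw [h6]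
    nlinarith
  have h9 : 1 ≤ Real.exp (m / 2) := Real.one_le_exp (by positivity)
  have k2 := h₂ n hn
  rw [← hlam] at k2
  have tri := abs_sub_le (pn n : ℝ) (gg lam / √(2 * Real.pi)) (mainTerm n)
  have : C₁ * (Real.exp (m / 2) + Real.exp (m / 4) / (m / (4 * lam))) ≤
      C₁ * (5 * Real.exp (m / 2)) := by
    apply mul_le_mul_of_nonneg_left _ hC₁.le
    linarith
  nlinarith

end PNF
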