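import Pool.Agent.P.MP_373cf5_nt.Invert

namespace PNF

open Complex MeasureTheory Set

theorem tail_norm_exp (t lam θ : ℝ) : ‖cexp (lam * (t + θ * I))‖ = Real.exp (lam * t) := by
  rw [Complex.norm_exp]
  simp

theorem tail_slit {t : ℝ} (ht : 0 < t) (θ : ℝ) : (t : ℂ) + θ * I ∈ slitPlane := by
  left
  simpa using ht

theorem model_integral : ∃ C : ℝ, 0 < C ∧ ∀ t lam : ℝ, 0 < t → t ≤ 1 → 0 < lam →
    ‖(1 / (2 * Real.pi) : ℂ) * (∫ θ in (-Real.pi)..Real.pi,
        ((t : ℂ) + θ * I) ^ (1 / 2 : ℂ) * cexp (aa / (t + θ * I)) * cexp (lam * (t + θ * I))) -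
      (gg lam : ℂ)‖ ≤ C * Real.exp (lam * t) / t := by
  have hK : Integrable fun θ : ℝ => 8 * (1 + ‖θ‖) ^ (-(3 / 2) : ℝ) :=
    (integrable_one_add_norm (by rw [Module.finrank_self]; norm_num)).const_mul 8
  set K : ℝ := ∫ θ : ℝ, 8 * (1 + ‖θ‖) ^ (-(3 / 2) : ℝ) with hKdef
  have hK0 : 0 ≤ K := integral_nonneg fun θ => by positivity
  refine ⟨6 + K + 1, by positivity, fun t lam ht ht1 hl => ?_⟩
  have hπ := Real.pi_pos
  have hle : -Real.pi ≤ Real.pi := by linarith
  have hc : Continuous fun θ : ℝ => (t : ℂ) + θ * I := by fun_prop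
  have hce : Continuous fun θ : ℝ => cexp (lam * (t + θ * I)) := by fun_prop
  have hi : Integrable fun θ : ℝ => GG (t + θ * I) * cexp (lam * (t + θ * I)) :=
    (integrable_GG t ht).mul_bdd (c := Real.exp (lam * t)) hce.aestronglyMeasurable
      (Filter.Eventually.of_forall fun θ => (tail_norm_exp t lam θ).le)
  have hlow : Continuous fun θ : ℝ =>
      ((t : ℂ) + θ * I) ^ (1 / 2 : ℂ) * (1 + aa / (t + θ * I)) * cexp (lam * (t + θ * I)) :=
    ((hc.cpow continuous_const (tail_slit ht)).mul (continuous_const.add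
      (continuous_const.div hc fun θ => slitPlane_ne_zero (tail_slit ht θ)))).mul hce
  have hsplit : (∫ θ in (-Real.pi)..Real.pi,
        ((t : ℂ) + θ * I) ^ (1 / 2 : ℂ) * cexp (aa / (t + θ * I)) * cexp (lam * (t + θ * I)))
      = (∫ θ in (-Real.pi)..Real.pi, GG (t + θ * I) * cexp (lam * (t + θ * I)))
        + ∫ θ in (-Real.pi)..Real.pi,
          ((t : ℂ) + θ * I) ^ (1 / 2 : ℂ) * (1 + aa / (t + θ * I)) * cexp (lam * (t + θ * I)) := by
    rw [← intervalIntegral.integral_add hi.intervalIntegrable (hlow.intervalIntegrable _ _)]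
    refine intervalIntegral.integral_congr fun θ _ => ?_
    simp only [GG]
    ring
  have hcomp := integral_add_compl (s := Ioc (-Real.pi) Real.pi) measurableSet_Ioc hi
  rw [← intervalIntegral.integral_of_le hle] at hcomp
  have b1 : ‖∫ θ in (-Real.pi)..Real.pi,
      ((t : ℂ) + θ * I) ^ (1 / 2 : ℂ) * (1 + aa / (t + θ * I)) * cexp (lam * (t + θ * I))‖
      ≤ 6 / t * Real.exp (lam * t) * (2 * Real.pi) := by
    refine (intervalIntegral.norm_integral_le_of_norm_le_const
      (C := 6 / t * Real.exp (lam * t)) fun θ hθ => ?_).trans (le_of_eq ?_)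
    · rw [uIoc_of_le hle] at hθ
      rw [norm_mul, tail_norm_exp]
      exact mul_le_mul_of_nonneg_right (norm_low_le t θ ht ht1 (abs_le.2 ⟨hθ.1.le, hθ.2⟩))
        (Real.exp_pos _).le
    · rw [abs_of_nonneg (by linarith)]
      ring
  have b2 : ‖∫ θ in (Ioc (-Real.pi) Real.pi)ᶜ, GG (t + θ * I) * cexp (lam * (t + θ * I))‖
      ≤ K * Real.exp (lam * t) := by
    refine (norm_integral_le_of_norm_le (hK.mul_const (Real.exp (lam * t))).integrableOn
      ?_).trans ?_
    · filter_upwards [ae_restrict_mem measurableSet_Ioc.compl] with θ hθ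
      rw [norm_mul, tail_norm_exp]
      refine mul_le_mul_of_nonneg_right (norm_GG_le t θ ht ?_) (Real.exp_pos _).le
      by_contra h
      have h' := abs_lt.1 (not_le.1 h)
      exact hθ ⟨h'.1, h'.2.le⟩
    · rw [hKdef, ← integral_mul_const]
      exact setIntegral_le_integral (hK.mul_const _)
        (Filter.Eventually.of_forall fun θ => by positivity)
  rw [← invert_GG t lam ht hl, hsplit, ← hcomp, ← mul_sub, add_sub_add_left_eq_sub, norm_mul]
  have hn : ‖(1 / (2 * Real.pi) : ℂ)‖ = 1 / (2 * Real.pi) := by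
    simp [abs_of_pos hπ]
  rw [hn]
  have he := Real.exp_pos (lam * t)
  have h3 : 1 / (2 * Real.pi) ≤ 1 := by
    rw [div_le_one (by positivity)]
    linarith [Real.pi_gt_three]
  have h4 : K * Real.exp (lam * t) ≤ K * Real.exp (lam * t) / t := by
    rw [le_div_iff₀ ht]
    exact mul_le_of_le_one_right (by positivity) ht1
  calc _ ≤ 1 / (2 * Real.pi) * (6 / t * Real.exp (lam * t) * (2 * Real.pi)
        + K * Real.exp (lam * t)) :=
        mul_le_mul_of_nonneg_left ((norm_sub_le _ _).trans (add_le_add b1 b2)) (by positivity)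
    _ = 6 * Real.exp (lam * t) / t + 1 / (2 * Real.pi) * (K * Real.exp (lam * t)) := by
        field_simp
    _ ≤ 6 * Real.exp (lam * t) / t + K * Real.exp (lam * t) / t :=
        add_le_add le_rfl ((mul_le_of_le_one_left (by positivity) h3).trans h4)
    _ ≤ (6 + K + 1) * Real.exp (lam * t) / t := by
        rw [← add_div]
        gcongr
        linarith

end PNF
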