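import Pool.Agent.P.MP_373cf5_nt.Cauchy
import Pool.Agent.P.MP_373cf5_nt.Circle
import Pool.Agent.P.MP_373cf5_nt.Tail

namespace PNF

open Complex

theorem hra_cont (t lam : ℝ) (ht : 0 < t) : Continuous fun θ : ℝ =>
    ((t : ℂ) + θ * I) ^ (1 / 2 : ℂ) * cexp (aa / (t + θ * I)) * cexp (lam * (t + θ * I)) := by
  have h0 : Continuous fun θ : ℝ => (t : ℂ) + θ * I := by fun_prop
  have h1 : ∀ θ : ℝ, (t : ℂ) + θ * I ∈ slitPlane := fun θ =>
    Complex.mem_slitPlane_iff.2 (Or.inl (by simpa using ht))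
  refine ((h0.cpow continuous_const h1).mul ?_).mul (by fun_prop)
  exact (continuous_const.div h0 fun θ => slitPlane_ne_zero (h1 θ)).cexp

/-- Circle method: `p(n)` against the model coefficient, for every admissible radius. -/
theorem pn_sub_gg : ∃ C : ℝ, 0 < C ∧ ∀ n : ℕ, 1 ≤ n → ∀ t : ℝ, 0 < t → t ≤ 1 →
    |(pn n : ℝ) - gg ((n : ℝ) - 1 / 24) / √(2 * Real.pi)| ≤
      C * (Real.exp (((n : ℝ) - 1 / 24) * t + aa / (4 * t)) +
        Real.exp (((n : ℝ) - 1 / 24) * t) / t) := by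
  obtain ⟨C, hC, hM⟩ := model_integral
  refine ⟨C + 24, by linarith, fun n hn t ht ht1 => ?_⟩
  obtain ⟨lam, hlam⟩ : ∃ lam : ℝ, lam = (n : ℝ) - 1 / 24 := ⟨_, rfl⟩
  rw [← hlam]
  have hn1 : (1 : ℝ) ≤ n := by exact_mod_cast hn
  have hl0 : 0 < lam := by linarith
  have hpi := Real.pi_pos
  have hs : Summable fun m : ℕ => ‖(pn m : ℂ)‖ * Real.exp (-t) ^ m := by
    simpa using summable_pn (Real.exp (-t)) (Real.exp_pos _).le
      (Real.exp_lt_one_iff.2 (by linarith))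
  have hc := cauchy_coeff (fun m => (pn m : ℂ)) t hs n
  have hcont := continuous_series (fun m => (pn m : ℂ)) t hs
  obtain ⟨s, hsd⟩ : ∃ s : ℝ, s = √(2 * Real.pi) := ⟨_, rfl⟩
  have hs1 : 1 ≤ s := by
    rw [hsd]
    exact Real.one_le_sqrt.2 (by linarith [Real.pi_gt_three])
  rw [← hsd]
  obtain ⟨g, hg⟩ : ∃ g : ℝ → ℂ, g = fun θ : ℝ =>
      ((t : ℂ) + θ * I) ^ (1 / 2 : ℂ) * cexp (aa / (t + θ * I)) * cexp (lam * (t + θ * I)) :=
    ⟨_, rfl⟩
  obtain ⟨f, hf⟩ : ∃ f : ℝ → ℂ, f = fun θ : ℝ =>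
      (∑' m : ℕ, (pn m : ℂ) * cexp (-(t + θ * I)) ^ m) * cexp (n * (t + θ * I)) := ⟨_, rfl⟩
  have hgc : Continuous g := hg ▸ hra_cont t lam ht
  have hfc : Continuous f := by
    rw [hf]
    exact hcont.mul (by fun_prop)
  have h1 := hM t lam ht ht1 hl0
  rw [← hg] at h1
  rw [← hf] at hc
  have hb : ∀ θ ∈ Set.uIoc (-Real.pi) Real.pi, ‖f θ - (s : ℂ)⁻¹ * g θ‖ ≤
      24 * Real.exp (lam * t + aa / (4 * t)) := by
    intro θ hθ
    rw [Set.uIoc_of_le (by linarith)] at hθ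
    have h2 := PP_sub_model t θ ht ht1 (abs_le.2 ⟨hθ.1.le, hθ.2⟩)
    rw [← hsd] at h2
    have e : f θ - (s : ℂ)⁻¹ * g θ = (PP (cexp (-(t + θ * I))) -
        (s : ℂ)⁻¹ * (t + θ * I) ^ (1 / 2 : ℂ) * cexp (-(t + θ * I) / 24 + aa / (t + θ * I))) *
          cexp (n * (t + θ * I)) := by
      have e1 : cexp (-(t + θ * I) / 24 + aa / (t + θ * I)) * cexp (n * (t + θ * I)) =
          cexp (aa / (t + θ * I)) * cexp (lam * (t + θ * I)) := by
        rw [← Complex.exp_add, ← Complex.exp_add, hlam]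
        congr 1
        push_cast
        ring
      rw [hf, hg, sub_mul, mul_assoc (_ * _) (cexp _), e1]
      simp only [PP]
      ring
    have e2 : ‖cexp (n * (t + θ * I))‖ ≤ 3 * Real.exp (lam * t) := by
      rw [Complex.norm_exp]
      have e3 : ((n : ℂ) * (t + θ * I)).re = t / 24 + lam * t := by
        rw [hlam]; simp; ring
      rw [e3, Real.exp_add]
      refine mul_le_mul_of_nonneg_right ?_ (Real.exp_pos _).le
      exact (Real.exp_le_exp.2 (by linarith)).trans (Real.exp_one_lt_d9.le.trans (by norm_num))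
    rw [e, norm_mul, Real.exp_add]
    refine (mul_le_mul h2 e2 (norm_nonneg _) (by positivity)).trans (le_of_eq ?_)
    ring
  have h3 := intervalIntegral.norm_integral_le_of_norm_le_const hb
  have hgc' : Continuous fun θ : ℝ => (s : ℂ)⁻¹ * g θ := continuous_const.mul hgc
  rw [intervalIntegral.integral_sub (hfc.intervalIntegrable _ _)
    (hgc'.intervalIntegrable _ _), intervalIntegral.integral_const_mul,
    sub_neg_eq_add, abs_of_pos (by linarith)] at h3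
  have e4 : (((pn n : ℝ) - gg lam / s : ℝ) : ℂ) =
      (1 / (2 * Real.pi) : ℂ) * ((∫ θ in (-Real.pi)..Real.pi, f θ) -
        (s : ℂ)⁻¹ * ∫ θ in (-Real.pi)..Real.pi, g θ) +
      (s : ℂ)⁻¹ * ((1 / (2 * Real.pi) : ℂ) * (∫ θ in (-Real.pi)..Real.pi, g θ) - (gg lam : ℂ)) := by
    push_cast
    rw [hc]
    ring
  have n1 : ‖(1 / (2 * Real.pi) : ℂ)‖ = 1 / (2 * Real.pi) := by
    rw [norm_div, norm_one, norm_mul, Complex.norm_real, Real.norm_eq_abs, abs_of_pos hpi]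
    simp
  have n2 : ‖(s : ℂ)⁻¹‖ ≤ 1 := by
    rw [norm_inv, Complex.norm_real, Real.norm_eq_abs, abs_of_pos (by linarith)]
    exact inv_le_one_of_one_le₀ hs1
  rw [← Real.norm_eq_abs, ← Complex.norm_real, e4]
  refine (norm_add_le _ _).trans ?_
  rw [norm_mul, norm_mul, n1]
  have a1 := mul_le_mul_of_nonneg_left h3 (show 0 ≤ 1 / (2 * Real.pi) by positivity)
  have a2 : 1 / (2 * Real.pi) * (24 * Real.exp (lam * t + aa / (4 * t)) * (Real.pi + Real.pi)) =
      24 * Real.exp (lam * t + aa / (4 * t)) := by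
    field_simp
    ring
  have a3 := mul_le_mul n2 h1 (norm_nonneg _) zero_le_one
  have a4 : 0 ≤ Real.exp (lam * t) / t := by positivity
  have a5 := Real.exp_pos (lam * t + aa / (4 * t))
  rw [a2] at a1
  rw [one_mul, mul_div_assoc] at a3
  nlinarith [mul_nonneg hC.le a5.le]

end PNF
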