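import Pool.Agent.P.MP_373cf5_nt.Laplace
import Pool.Agent.P.MP_373cf5_nt.GGBound

namespace PNF

open Complex MeasureTheory Set
open scoped FourierTransform

/-- The function whose Fourier transform is `GG` on a vertical line. -/
noncomputable def invert_f (t : ℝ) : ℝ → ℂ :=
  (Ioi (0 : ℝ)).indicator fun v : ℝ => (gg v : ℂ) * cexp (-(t : ℂ) * v)

theorem invert_integrable (t : ℝ) (ht : 0 < t) : Integrable (invert_f t) :=
  (integrable_indicator_iff measurableSet_Ioi).2 (integrableOn_gg t (by simpa using ht))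

theorem invert_fourier (t : ℝ) (ht : 0 < t) (w : ℝ) :
    𝓕 (invert_f t) w = GG (t + ((2 * Real.pi * w : ℝ) : ℂ) * I) := by
  rw [Real.fourier_real_eq_integral_exp_smul, ← laplace_gg _ (by simpa using ht),
    ← integral_indicator measurableSet_Ioi]
  refine integral_congr_ae (Filter.Eventually.of_forall fun v => ?_)
  by_cases hv : v ∈ Ioi (0 : ℝ)
  · simp only [invert_f, indicator_of_mem hv, smul_eq_mul]
    rw [mul_left_comm, ← Complex.exp_add]
    congr 2
    push_cast
    ring
  · simp only [invert_f, indicator_of_notMem hv, smul_zero]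

theorem invert_continuousAt (t lam : ℝ) (hl : 0 < lam) : ContinuousAt (invert_f t) lam := by
  have h1 : ContinuousAt gg lam := by
    unfold gg
    refine ContinuousAt.div (by fun_prop) (by fun_prop) ?_
    have := Real.sqrt_pos.2 hl
    have := Real.sqrt_pos.2 Real.pi_pos
    positivity
  have h2 : ContinuousAt (fun v : ℝ => (gg v : ℂ) * cexp (-(t : ℂ) * v)) lam :=
    (continuous_ofReal.continuousAt.comp h1).mul (by fun_prop)
  refine h2.congr ?_
  filter_upwards [Ioi_mem_nhds hl] with v hv
  simp only [invert_f, indicator_of_mem hv]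

theorem invert_GG (t lam : ℝ) (ht : 0 < t) (hl : 0 < lam) :
    (1 / (2 * Real.pi) : ℂ) * ∫ θ : ℝ, GG (t + θ * I) * cexp (lam * (t + θ * I)) = (gg lam : ℂ) := by
  have hpi : (2 * Real.pi : ℝ) ≠ 0 := by positivity
  have hF : 𝓕 (invert_f t) = fun w : ℝ => GG (t + ((2 * Real.pi * w : ℝ) : ℂ) * I) :=
    funext (invert_fourier t ht)
  have h1 : Integrable (𝓕 (invert_f t)) := by
    rw [hF]
    exact (integrable_GG t ht).comp_mul_left' hpi
  have h2 := (invert_integrable t ht).fourierInv_fourier_eq h1 (invert_continuousAt t lam hl)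
  rw [Real.fourierInv_eq', hF] at h2
  have h3 := Measure.integral_comp_mul_left
    (fun θ : ℝ => GG (t + θ * I) * cexp (lam * (t + θ * I))) (2 * Real.pi)
  have h4 : ∫ w : ℝ, GG (t + ((2 * Real.pi * w : ℝ) : ℂ) * I) *
      cexp (lam * (t + ((2 * Real.pi * w : ℝ) : ℂ) * I)) = cexp (t * lam) * invert_f t lam := by
    rw [← h2, ← integral_const_mul]
    refine integral_congr_ae (Filter.Eventually.of_forall fun w => ?_)
    simp only [smul_eq_mul]
    rw [← mul_assoc, ← Complex.exp_add, mul_comm]
    congr 2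
    simp only [RCLike.inner_apply, conj_trivial]
    push_cast
    ring
  rw [h4, abs_of_pos (by positivity), Complex.real_smul] at h3
  have h5 : invert_f t lam = (gg lam : ℂ) * cexp (-(t : ℂ) * lam) := by
    simp only [invert_f, indicator_of_mem (mem_Ioi.2 hl)]
  rw [h5, mul_left_comm, ← Complex.exp_add] at h3
  have h6 : (t : ℂ) * lam + -(t : ℂ) * lam = 0 := by ring
  rw [h6, Complex.exp_zero, mul_one] at h3
  rw [h3]
  push_cast
  rw [one_div]

end PNF
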