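import Pool.Agent.P.MP_373cf5_nt.GaussB

namespace PNF

open Complex MeasureTheory Set

theorem laplace_real {u : ℝ} (hu : 0 < u) : 2 * u * gg (u ^ 2) =
    (√Real.pi)⁻¹ * ((2 * √aa * u * Real.sinh (2 * √aa * u) - Real.cosh (2 * √aa * u) + 1) / u ^ 2 -
      2 * aa) := by
  have h1 : √(aa * u ^ 2) = √aa * u := by
    rw [Real.sqrt_mul aa_pos.le, Real.sqrt_sq hu.le]
  have h2 : (0 : ℝ) < √Real.pi := Real.sqrt_pos.2 Real.pi_pos
  unfold gg
  rw [h1, Real.sqrt_sq hu.le, ← mul_assoc 2 √aa u]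
  field_simp

theorem laplace_eq (τ : ℂ) {u : ℝ} (hu : u ∈ Ioi (0 : ℝ)) :
    (2 * u ^ ((2 : ℝ) - 1)) • ((gg (u ^ (2 : ℝ)) : ℂ) * cexp (-τ * ((u ^ (2 : ℝ) : ℝ) : ℂ))) =
      (((√Real.pi)⁻¹ : ℝ) : ℂ) *
        ((((2 * √aa * u * Real.sinh (2 * √aa * u) - Real.cosh (2 * √aa * u) + 1) / u ^ 2 : ℝ) : ℂ) *
          cexp (-τ * u ^ 2) - 2 * aa * cexp (-τ * u ^ 2)) := by
  have h1 : (2 : ℝ) - 1 = 1 := by norm_num
  rw [h1, Real.rpow_one, Real.rpow_two, Complex.real_smul, ← mul_assoc, ← ofReal_mul,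
    laplace_real hu, ofReal_mul, ofReal_sub, ofReal_pow, ofReal_mul 2 aa, ofReal_ofNat]
  ring

theorem integrableOn_gg (τ : ℂ) (hτ : 0 < τ.re) :
    IntegrableOn (fun v : ℝ => (gg v : ℂ) * cexp (-τ * v)) (Ioi 0) := by
  rw [← integrableOn_Ioi_comp_rpow_iff _ (two_ne_zero (α := ℝ)), abs_two]
  refine (integrableOn_congr_fun (fun u hu => laplace_eq τ hu) measurableSet_Ioi).2 ?_
  exact ((integrableOn_parts (2 * √aa) (by positivity) τ hτ).sub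
    ((integrable_cexp_neg_mul_sq hτ).integrableOn.const_mul _)).const_mul _

theorem laplace_gg (τ : ℂ) (hτ : 0 < τ.re) :
    ∫ v in Ioi (0 : ℝ), (gg v : ℂ) * cexp (-τ * v) = GG τ := by
  rw [← integral_comp_rpow_Ioi_of_pos (two_pos (α := ℝ)),
    setIntegral_congr_fun measurableSet_Ioi (fun u hu => laplace_eq τ hu), integral_const_mul,
    integral_sub (integrableOn_parts (2 * √aa) (by positivity) τ hτ)
      ((integrable_cexp_neg_mul_sq hτ).integrableOn.const_mul _), integral_const_mul,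
    integral_parts (2 * √aa) (by positivity) τ hτ, integral_gaussian_complex_Ioi hτ]
  have hτ0 : τ ≠ 0 := by rintro rfl; simp at hτ
  have h2 : ((√Real.pi : ℝ) : ℂ) ≠ 0 := ofReal_ne_zero.2 (Real.sqrt_pos.2 Real.pi_pos).ne'
  have h3 : ((2 * √aa : ℝ) : ℂ) ^ 2 / (4 * τ) = aa / τ := by
    rw [← ofReal_pow, mul_pow, Real.sq_sqrt aa_pos.le]
    push_cast
    field_simp
    ring
  have h4 : ((Real.pi : ℂ) / τ) ^ (1 / 2 : ℂ) = ((√Real.pi : ℝ) : ℂ) * τ ^ (1 / 2 : ℂ) / τ := by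
    rw [← pi_div_cpow τ hτ]; field_simp
  rw [h3, h4, GG, ofReal_inv]
  field_simp

end PNF
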