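import Pool.Agent.P.MP_373cf5_nt.Local

namespace PNF

open Filter

theorem omega_bound : ∃ c : ℝ, 0 < c ∧ ∀ᶠ n : ℕ in Filter.atTop,
    c * (n : ℝ) ^ (1 / 4 : ℝ) / √(Real.log n) ≤
      ((∏ k ∈ Finset.Icc (n / 100) n, pn k).primeFactors.card : ℝ) := by
  obtain ⟨c, hc, h⟩ := local_bound
  refine ⟨c, hc, ?_⟩
  filter_upwards [h] with n hn
  apply hn
  intro k hk1 hk2
  apply Nat.primeFactors_mono
  · exact Finset.dvd_prod_of_mem _ (Finset.mem_Icc.mpr ⟨by omega, hk2⟩)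
  · exact Finset.prod_ne_zero_iff.mpr fun a _ => (pn_pos a).ne'

end PNF
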