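import Pool.Agent.P.MP_373cf5_nt.Defs

namespace PNF

theorem primes_theta_split (X : ℕ) :
    Chebyshev.theta ((8 * X : ℕ) : ℝ) = Chebyshev.theta (X : ℝ) +
      ∑ p ∈ (Finset.Ioc X (8 * X)).filter Nat.Prime, Real.log p := by
  unfold Chebyshev.theta
  rw [Nat.floor_natCast, Nat.floor_natCast, Finset.sum_filter, Finset.sum_filter,
    Finset.sum_filter]
  exact (Finset.sum_Ioc_consecutive _ (Nat.zero_le X) (by omega)).symm

theorem primes_log_small : ∀ᶠ y : ℝ in Filter.atTop, Real.log y ≤ 1 / 16 * √y := by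
  have h := (isLittleO_log_rpow_atTop (r := 1 / 2) (by norm_num)).bound
    (c := 1 / 16) (by norm_num)
  filter_upwards [h, Filter.eventually_ge_atTop 0] with y hy hy0
  rw [Real.norm_of_nonneg (Real.rpow_nonneg hy0 _), ← Real.sqrt_eq_rpow] at hy
  exact (le_abs_self _).trans hy

theorem primes_Ioc : ∀ᶠ X : ℕ in Filter.atTop,
    (X : ℝ) / Real.log X ≤ (((Finset.Ioc X (8 * X)).filter Nat.Prime).card : ℝ) := by
  have ht : Filter.Tendsto (fun X : ℕ => ((8 * X : ℕ) : ℝ)) Filter.atTop Filter.atTop :=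
    tendsto_natCast_atTop_atTop.comp
      (Filter.tendsto_id.const_mul_atTop' (by norm_num : 0 < 8))
  filter_upwards [ht.eventually primes_log_small, Filter.eventually_ge_atTop 8] with X h1 hX
  have hX' : (8 : ℝ) ≤ X := by exact_mod_cast hX
  have hsplit := primes_theta_split X
  have hlow := Chebyshev.theta_ge (8 * X)
  have hup := Chebyshev.theta_le_log4_mul_x (x := (X : ℝ)) (by positivity)
  have hy : ((8 * X : ℕ) : ℝ) = 8 * (X : ℝ) := by push_cast; ring
  have hsum : ∑ p ∈ (Finset.Ioc X (8 * X)).filter Nat.Prime, Real.log p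
      ≤ (((Finset.Ioc X (8 * X)).filter Nat.Prime).card : ℝ) * (2 * Real.log X) := by
    have := Finset.sum_le_card_nsmul ((Finset.Ioc X (8 * X)).filter Nat.Prime)
      (fun p : ℕ => Real.log p) (2 * Real.log X) (fun p hp => by
        have hp' := Finset.mem_Ioc.1 (Finset.mem_filter.1 hp).1
        have h2 : (p : ℝ) ≤ 8 * X := by exact_mod_cast hp'.2
        have h3 : (0 : ℝ) < p := by exact_mod_cast (lt_of_le_of_lt (Nat.zero_le X) hp'.1)
        have h4 : Real.log p ≤ Real.log ((X : ℝ) ^ 2) :=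
          Real.log_le_log h3 (by nlinarith)
        rw [Real.log_pow] at h4
        exact_mod_cast h4)
    simpa [nsmul_eq_mul] using this
  rw [hy] at h1 hlow hsplit
  have hs0 : 0 ≤ √(8 * (X : ℝ)) := Real.sqrt_nonneg _
  have hss : √(8 * (X : ℝ)) * √(8 * (X : ℝ)) = 8 * X := Real.mul_self_sqrt (by positivity)
  have hs1 : √(8 * (X : ℝ)) ≤ X := by
    rw [Real.sqrt_le_left (by positivity)]
    nlinarith
  have h5 : 2 * √(8 * (X : ℝ)) * Real.log (8 * X) ≤ X := by nlinarith
  have h6 : Real.log (8 * (X : ℝ) + 1) ≤ X := by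
    have h7 : Real.log (8 * (X : ℝ) + 1) ≤ Real.log (2 * (8 * X)) :=
      Real.log_le_log (by positivity) (by linarith)
    rw [Real.log_mul (by norm_num) (by positivity)] at h7
    have := Real.log_two_lt_d9
    linarith
  have h4 : Real.log 4 = 2 * Real.log 2 := by
    rw [show (4 : ℝ) = 2 ^ 2 by norm_num, Real.log_pow]; norm_num
  have hl2 := Real.log_two_gt_d9
  have hlogX : 0 < Real.log X := Real.log_pos (by linarith)
  rw [div_le_iff₀ hlogX]
  have h8 : (2 / 3 : ℝ) * X ≤ Real.log 2 * X := mul_le_mul_of_nonneg_right (by linarith) (by linarith)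
  rw [h4] at hup
  nlinarith

theorem primes_le : ∀ᶠ y : ℝ in Filter.atTop,
    (((Finset.range (⌊y⌋₊ + 1)).filter Nat.Prime).card : ℝ) + 1 ≤ 3 * y / Real.log y := by
  filter_upwards [Chebyshev.eventually_primeCounting_le (ε := 1 / 2) (by norm_num),
    Filter.eventually_gt_atTop 1] with y h1 hy
  have hc : ((Finset.range (⌊y⌋₊ + 1)).filter Nat.Prime).card = Nat.primeCounting ⌊y⌋₊ := by
    rw [Nat.primeCounting, Nat.primeCounting', Nat.count_eq_card_filter_range]
  have hlog : 0 < Real.log y := Real.log_pos hy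
  have h2 : 1 ≤ y / Real.log y := by
    rw [le_div_iff₀ hlog]
    have := Real.log_le_sub_one_of_pos (by linarith : 0 < y)
    linarith
  have h4 : Real.log 4 = 2 * Real.log 2 := by
    rw [show (4 : ℝ) = 2 ^ 2 by norm_num, Real.log_pow]; norm_num
  have hl2 := Real.log_two_lt_d9
  rw [hc, mul_div_assoc]
  rw [mul_div_assoc, h4] at h1
  nlinarith

end PNF
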