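import Pool.Agent.P.MP_373cf5_nt.Defs

namespace PNF

open Polynomial

theorem rel_err {η : ℝ} (hη : 0 ≤ η) {A : Finset ℕ} {e : ℕ → ℝ} {d : ℕ} (hd : A.card ≤ d)
    (he : ∀ x ∈ A, |e x| ≤ η) (hdη : d * η ≤ 1) : |∏ x ∈ A, (1 + e x) - 1| ≤ 2 * (d * η) := by
  have h0 : 0 ≤ d * η := by positivity
  have h1 : ∑ x ∈ A, ‖e x‖ ≤ d * η := by
    refine (Finset.sum_le_card_nsmul A _ η he).trans ?_
    rw [nsmul_eq_mul]
    gcongr
  have h2 := Real.abs_exp_sub_one_le (x := d * η) (by rwa [abs_of_nonneg h0])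
  rw [abs_of_nonneg h0] at h2
  refine (Finset.norm_prod_one_add_sub_one_le A e).trans (le_trans ?_ ((le_abs_self _).trans h2))
  gcongr

theorem rel_size {κ Y : ℝ} (hκ : 0 ≤ κ) (hY : 1 ≤ Y) {A B : Finset ℕ} {d : ℕ}
    (hA : ∀ x ∈ A, (x : ℝ) ≤ Y) (hB : ∀ x ∈ B, (x : ℝ) ≤ Y) (dA : A.card ≤ d) (dB : B.card ≤ d) :
    |(∏ x ∈ B, (x : ℝ) ^ 3) * ∏ x ∈ A, (κ * x - 1)| ≤ ((κ + 2) * Y) ^ d * Y ^ (3 * d) := by
  rw [abs_mul, mul_comm, Finset.abs_prod, Finset.abs_prod, pow_mul]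
  have h1 : 1 ≤ (κ + 2) * Y := by nlinarith
  have h0 : ∀ (S : Finset ℕ) (f : ℕ → ℝ) (M : ℝ), 1 ≤ M → S.card ≤ d → (∀ x ∈ S, |f x| ≤ M) →
      ∏ x ∈ S, |f x| ≤ M ^ d := fun S f M hM hS h =>
    (Finset.prod_le_prod (fun _ _ => abs_nonneg _) h).trans
      ((Finset.prod_const M).trans_le (pow_le_pow_right₀ hM hS))
  refine mul_le_mul (h0 _ _ _ h1 dA fun x hx => ?_) (h0 _ _ _ (one_le_pow₀ hY) dB fun x hx => ?_)
    (by positivity) (by positivity)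
  · have h2 := mul_le_mul_of_nonneg_left (hA x hx) hκ
    have h3 : 0 ≤ κ * x := by positivity
    exact abs_le.2 ⟨by linarith, by linarith⟩
  · rw [abs_of_nonneg (by positivity)]
    exact pow_le_pow_left₀ (by positivity) (hB x hx) 3

theorem rel_small (κ c η Y : ℝ) (hκ : 0 ≤ κ) (hc : 0 < c) (hη : 0 ≤ η) (hY : 1 ≤ Y)
    (A B : Finset ℕ) (w : ℕ → ℕ) (e : ℕ → ℝ) (d : ℕ)
    (hAB : ∀ x ∈ A ∪ B, 1 ≤ x ∧ (x : ℝ) ≤ Y) (hcard : A.card = B.card) (hd : A.card ≤ d)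
    (hsum : ∑ x ∈ A, x = ∑ x ∈ B, x) (hprod : ∏ x ∈ A, w x = ∏ x ∈ B, w x)
    (hw : ∀ x ∈ A ∪ B, (w x : ℝ) = c * ((κ * x - 1) / (x : ℝ) ^ 3) * Real.exp (κ * x) * (1 + e x))
    (he : ∀ x ∈ A ∪ B, |e x| ≤ η) (hdη : d * η ≤ 1) :
    |aeval κ (QQ A B)| ≤ 4 * ((κ + 2) * Y) ^ d * Y ^ (3 * d) * (d * η) := by
  have key : ∀ S : Finset ℕ, S ⊆ A ∪ B → ((∏ x ∈ S, w x : ℕ) : ℝ) * ∏ x ∈ S, (x : ℝ) ^ 3 =
      c ^ S.card * Real.exp (κ * (∑ x ∈ S, x : ℕ)) *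
        ((∏ x ∈ S, (κ * x - 1)) * ∏ x ∈ S, (1 + e x)) := by
    intro S hS
    rw [Nat.cast_prod, Nat.cast_sum, Finset.mul_sum, Real.exp_sum, ← Finset.prod_const,
      ← Finset.prod_mul_distrib, ← Finset.prod_mul_distrib, ← Finset.prod_mul_distrib,
      ← Finset.prod_mul_distrib]
    refine Finset.prod_congr rfl fun x hx => ?_
    have h0 : (x : ℝ) ≠ 0 := Nat.cast_ne_zero.2 (by have := (hAB x (hS hx)).1; omega)
    rw [hw x (hS hx)]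
    field_simp
  have l := Finset.subset_union_left (s₁ := A) (s₂ := B)
  have r := Finset.subset_union_right (s₁ := A) (s₂ := B)
  have kA := key A l
  have kB := key B r
  rw [← hprod, ← hcard, ← hsum] at kB
  have u := rel_size hκ hY (fun x hx => (hAB x (l hx)).2) (fun x hx => (hAB x (r hx)).2) hd
    (hcard ▸ hd)
  have v := rel_size hκ hY (fun x hx => (hAB x (r hx)).2) (fun x hx => (hAB x (l hx)).2)
    (hcard ▸ hd) hd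
  have a := rel_err hη hd (fun x hx => he x (l hx)) hdη
  have b := rel_err hη (hcard ▸ hd) (fun x hx => he x (r hx)) hdη
  have e1 : aeval κ (QQ A B) =
      -((∏ x ∈ B, (x : ℝ) ^ 3) * ∏ x ∈ A, (κ * x - 1)) * (∏ x ∈ A, (1 + e x) - 1) +
        ((∏ x ∈ A, (x : ℝ) ^ 3) * ∏ x ∈ B, (κ * x - 1)) * (∏ x ∈ B, (1 + e x) - 1) := by
    have e2 : aeval κ (QQ A B) = (∏ x ∈ B, (x : ℝ) ^ 3) * ∏ x ∈ A, (κ * x - 1) -
        (∏ x ∈ A, (x : ℝ) ^ 3) * ∏ x ∈ B, (κ * x - 1) := by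
      simp [QQ, map_prod, mul_comm κ]
    rw [e2]
    refine mul_left_cancel₀ (a := c ^ A.card * Real.exp (κ * (∑ x ∈ A, x : ℕ)))
      (by positivity) ?_
    linear_combination (-∏ x ∈ B, (x : ℝ) ^ 3) * kA + (∏ x ∈ A, (x : ℝ) ^ 3) * kB
  rw [e1]
  refine (abs_add_le _ _).trans ?_
  rw [abs_mul, abs_neg, abs_mul (_ * _)]
  linarith [mul_le_mul u a (abs_nonneg _) (by positivity),
    mul_le_mul v b (abs_nonneg _) (by positivity)]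

end PNF
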